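import Pool.Agent.V8H11.TS.Live

/-!
Multilinear Boolean programs.
-/

namespace Pool.Agent.V8H11.TS

/-- The two truth values, with disjunction as addition and conjunction as multiplication. -/
inductive BoolSR
  | no
  | yes
  deriving DecidableEq

namespace BoolSR

/-- Disjunction. -/
def or : BoolSR → BoolSR → BoolSR
  | no, b => b
  | yes, _ => yes

/-- Conjunction. -/
def and : BoolSR → BoolSR → BoolSR
  | no, _ => no
  | yes, b => b

instance : Zero BoolSR := ⟨no⟩
instance : One BoolSR := ⟨yes⟩
instance : Add BoolSR := ⟨or⟩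
instance : Mul BoolSR := ⟨and⟩

instance : CommSemiring BoolSR where
  add_assoc := by intro a b c; cases a <;> cases b <;> cases c <;> rfl
  zero_add := by intro a; cases a <;> rfl
  add_zero := by intro a; cases a <;> rfl
  add_comm := by intro a b; cases a <;> cases b <;> rfl
  left_distrib := by intro a b c; cases a <;> cases b <;> cases c <;> rfl
  right_distrib := by intro a b c; cases a <;> cases b <;> cases c <;> rfl
  zero_mul := by intro a; cases a <;> rfl
  mul_zero := by intro a; cases a <;> rfl
  mul_assoc := by intro a b c; cases a <;> cases b <;> cases c <;> rfl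
  one_mul := by intro a; cases a <;> rfl
  mul_one := by intro a; cases a <;> rfl
  mul_comm := by intro a b; cases a <;> cases b <;> rfl
  nsmul := nsmulRec

theorem add_eq_yes (a b : BoolSR) : a + b = yes ↔ a = yes ∨ b = yes := by
  cases a <;> cases b <;> simp [HAdd.hAdd, Add.add, or]

theorem mul_eq_yes (a b : BoolSR) : a * b = yes ↔ a = yes ∧ b = yes := by
  cases a <;> cases b <;> simp [HMul.hMul, Mul.mul, and]

theorem zero_ne_yes : (0 : BoolSR) ≠ yes := by decide

theorem one_eq_yes : (1 : BoolSR) = yes := rfl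

theorem ne_zero_iff (a : BoolSR) : a ≠ 0 ↔ a = yes := by
  cases a
  · constructor
    · intro h; exact absurd rfl h
    · intro h; exact absurd h (by decide)
  · constructor
    · intro _; rfl
    · intro _ h; exact absurd h (by decide)

theorem list_sum_eq_yes (l : List BoolSR) : l.sum = yes ↔ yes ∈ l := by
  induction l with
  | nil => simp [zero_ne_yes]
  | cons a l ih =>
    rw [List.sum_cons, add_eq_yes, ih, List.mem_cons]
    constructor
    · rintro (h | h)
      · exact Or.inl h.symm
      · exact Or.inr h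
    · rintro (h | h)
      · exact Or.inl h.symm
      · exact Or.inr h

theorem list_prod_eq_yes (l : List BoolSR) : l.prod = yes ↔ ∀ a ∈ l, a = yes := by
  induction l with
  | nil => simp [one_eq_yes]
  | cons a l ih =>
    rw [List.prod_cons, mul_eq_yes, ih]
    simp

end BoolSR

variable {X Reg : Type}

theorem eval_eq_yes (τ : Term BoolSR X Reg) (x : X → BoolSR) (v : Reg → BoolSR) :
    τ.eval x v = BoolSR.yes ↔ τ.coeff ≠ 0 ∧ (∀ r ∈ τ.regs, v r = BoolSR.yes) ∧
      ∀ u ∈ τ.vars, x u = BoolSR.yes := by
  unfold Term.eval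
  rw [BoolSR.mul_eq_yes, BoolSR.mul_eq_yes, BoolSR.list_prod_eq_yes, BoolSR.list_prod_eq_yes,
    BoolSR.ne_zero_iff]
  simp only [List.mem_map, forall_exists_index, and_imp, forall_apply_eq_imp_iff₂]
  tauto

theorem bool_value_of_gen (P : Program BoolSR X Reg) (x : X → BoolSR) : ∀ (t : ℕ) (r : Reg)
    (m : Multiset X), m ∈ P.Gen t r → (∀ u ∈ m, x u = BoolSR.yes) →
      P.value x t r = BoolSR.yes := by
  intro t
  induction t with
  | zero =>
    intro r m hm _
    exact (BoolSR.ne_zero_iff _).mp hm.1
  | succ t ih =>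
    intro r m hm hx
    obtain ⟨τ, hτ, hc, l, hl, rfl⟩ := hm
    have h1 : P.value x (t + 1) r = ((P.rule t r).map (fun τ => τ.eval x (P.value x t))).sum := rfl
    rw [h1, BoolSR.list_sum_eq_yes, List.mem_map]
    refine ⟨τ, hτ, ?_⟩
    rw [eval_eq_yes]
    refine ⟨hc, ?_, ?_⟩
    · intro r' hr'
      obtain ⟨i, hi, rfl⟩ := List.getElem_of_mem hr'
      have hi' : i < l.length := by rw [← hl.length_eq]; exact hi
      have h2 := (List.forall₂_iff_get.mp hl).2 i hi hi'
      simp only [List.get_eq_getElem] at h2
      apply ih _ _ h2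
      intro u hu
      apply hx
      rw [Multiset.mem_add]
      right
      have h3 : l[i] ≤ l.sum := List.single_le_sum (fun _ _ => Multiset.zero_le _) _
        (List.getElem_mem hi')
      exact Multiset.mem_of_le h3 hu
    · intro u hu
      apply hx
      rw [Multiset.mem_add]
      left
      exact hu

theorem bool_gen_of_value (P : Program BoolSR X Reg) (x : X → BoolSR) : ∀ (t : ℕ) (r : Reg),
    P.value x t r = BoolSR.yes → ∃ m ∈ P.Gen t r, ∀ u ∈ m, x u = BoolSR.yes := by
  intro t
  induction t with
  | zero =>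
    intro r h
    exact ⟨0, ⟨(BoolSR.ne_zero_iff _).mpr h, rfl⟩, by simp⟩
  | succ t ih =>
    intro r h
    have h1 : P.value x (t + 1) r = ((P.rule t r).map (fun τ => τ.eval x (P.value x t))).sum := rfl
    rw [h1, BoolSR.list_sum_eq_yes, List.mem_map] at h
    obtain ⟨τ, hτ, h2⟩ := h
    rw [eval_eq_yes] at h2
    obtain ⟨hc, hr, hv⟩ := h2
    have key : ∀ regs : List Reg, (∀ r' ∈ regs, P.value x t r' = BoolSR.yes) →
        ∃ l : List (Multiset X), List.Forall₂ (fun r' m' => m' ∈ P.Gen t r') regs l ∧
          ∀ u ∈ l.sum, x u = BoolSR.yes := by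
      intro regs
      induction regs with
      | nil => exact fun _ => ⟨[], List.Forall₂.nil, by simp⟩
      | cons a regs ih2 =>
        intro h3
        obtain ⟨m, hm, hm2⟩ := ih a (h3 a (by simp))
        obtain ⟨l, hl, hl2⟩ := ih2 (fun r' hr' => h3 r' (by simp [hr']))
        refine ⟨m :: l, List.Forall₂.cons hm hl, ?_⟩
        intro u hu
        rw [List.sum_cons, Multiset.mem_add] at hu
        rcases hu with hu | hu
        · exact hm2 u hu
        · exact hl2 u hu
    obtain ⟨l, hl, hl2⟩ := key τ.regs hr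
    refine ⟨(τ.vars : Multiset X) + l.sum, ⟨τ, hτ, hc, l, hl, rfl⟩, ?_⟩
    intro u hu
    rw [Multiset.mem_add] at hu
    rcases hu with hu | hu
    · exact hv u hu
    · exact hl2 u hu

theorem lsum_eq_yes {ι V : Type} [Fintype ι] [DecidableEq ι] [Fintype V] [DecidableEq V] {n : ℕ}
    (src dst : ι → V) (x : ι × Fin n × Fin n → BoolSR) :
    lsum src dst x = BoolSR.yes ↔ ∃ φ : V → Fin n, ∀ e, x (sel src dst φ e) = BoolSR.yes := by
  unfold lsum
  rw [← Finset.sum_map_toList, BoolSR.list_sum_eq_yes, List.mem_map]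
  constructor
  · rintro ⟨φ, _, h⟩
    rw [← Finset.prod_map_toList, BoolSR.list_prod_eq_yes] at h
    exact ⟨φ, fun e => h _ (List.mem_map.mpr ⟨e, Finset.mem_toList.mpr (Finset.mem_univ _), rfl⟩)⟩
  · rintro ⟨φ, h⟩
    refine ⟨φ, Finset.mem_toList.mpr (Finset.mem_univ _), ?_⟩
    rw [← Finset.prod_map_toList, BoolSR.list_prod_eq_yes]
    intro a ha
    obtain ⟨e, _, rfl⟩ := List.mem_map.mp ha
    exact h e

/-- Every accepted input has a derivation that reads no input variable twice. -/
def Program.ReadOnce (P : Program BoolSR X Reg) (T : ℕ) : Prop :=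
  ∀ x : X → BoolSR, P.result T x = BoolSR.yes →
    ∃ m ∈ P.Gen T P.out, m.Nodup ∧ ∀ u ∈ m, x u = BoolSR.yes

/-- The monomials of the output register of a correct Boolean program with read-once
derivations. -/
theorem spec_of_bool {ι V : Type} [Fintype ι] [DecidableEq ι] [Fintype V] [DecidableEq V] {n : ℕ}
    (src dst : ι → V) (P : Program BoolSR (ι × Fin n × Fin n) Reg) (T : ℕ)
    (hro : P.ReadOnce T) (hP : ∀ x, P.result T x = lsum src dst x) :
    Spec (V := V) src dst (P.Gen T P.out) := by
  classical
  have h1 : ∀ m ∈ P.Gen T P.out, ∃ φ : V → Fin n, ∀ e, sel src dst φ e ∈ m := by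
    intro m hm
    have h2 := bool_value_of_gen P (fun u => if u ∈ m then BoolSR.yes else BoolSR.no) T P.out m hm
      (fun u hu => if_pos hu)
    have h3 : P.result T (fun u => if u ∈ m then BoolSR.yes else BoolSR.no) = BoolSR.yes := h2
    rw [hP, lsum_eq_yes] at h3
    obtain ⟨φ, hφ⟩ := h3
    refine ⟨φ, fun e => ?_⟩
    by_contra hcon
    have := hφ e
    rw [if_neg hcon] at this
    exact absurd this (by decide)
  constructor
  · intro φ
    have h2 : lsum src dst (fun u => if u ∈ mono src dst φ Finset.univ then BoolSR.yes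
        else BoolSR.no) = BoolSR.yes := by
      rw [lsum_eq_yes]
      refine ⟨φ, fun e => if_pos ?_⟩
      rw [mem_mono]
      exact ⟨Finset.mem_univ _, rfl⟩
    rw [← hP] at h2
    obtain ⟨m, hm, hnd, h3⟩ := hro _ h2
    have h4 : ∀ u ∈ m, u ∈ mono src dst φ Finset.univ := by
      intro u hu
      by_contra hcon
      have := h3 u hu
      rw [if_neg hcon] at this
      exact absurd this (by decide)
    obtain ⟨φ', hφ'⟩ := h1 m hm
    have h5 : m = mono src dst φ Finset.univ := by
      apply Multiset.eq_of_le_of_card_le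
      · rw [Multiset.le_iff_subset hnd]
        exact h4
      · have h6 : mono src dst φ' Finset.univ ≤ m := by
          rw [Multiset.le_iff_subset (mono_nodup src dst φ' Finset.univ)]
          intro v hv
          rw [mem_mono] at hv
          rw [hv.2]
          exact hφ' _
        have h7 := Multiset.card_le_card h6
        rw [card_mono] at h7 ⊢
        exact h7
    rw [← h5]
    exact hm
  · left
    intro m hm hc
    obtain ⟨φ, hφ⟩ := h1 m hm
    exact ⟨φ, mono_univ_of_sel src dst φ m hφ hc⟩

end Pool.Agent.V8H11.TS
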