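import Pool.Agent.V8H11.TS.Live

/-!
A set of edges of the grid with few boundary cells in a block of columns contains almost all or
almost none of the first row there.
-/

namespace Pool.Agent.V8H11.TS

open Finset

/-- First end of an edge. -/
def gsrc (k L : ℕ) (e : GridEdge k L) : Fin k × Fin L := e.val.1

/-- Second end of an edge. -/
def gdst (k L : ℕ) (e : GridEdge k L) : Fin k × Fin L := e.val.2

/-- The boundary of a set of edges of the grid. -/
noncomputable abbrev gbd {k L : ℕ} (E : Finset (GridEdge k L)) : Finset (Fin k × Fin L) :=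
  bd (gsrc k L) (gdst k L) E

/-- The edges of the first row starting in the columns `a, …, a + l - 1`. -/
def hrow (k L a l : ℕ) : Finset (GridEdge k L) :=
  univ.filter (fun e => e.val.1.1.val = 0 ∧ e.val.2.1.val = 0 ∧ a ≤ e.val.1.2.val ∧
    e.val.1.2.val < a + l)

/-- The cells of the columns `a, …, a + l - 1`. -/
def colset (k L a l : ℕ) : Finset (Fin k × Fin L) :=
  univ.filter (fun v => a ≤ v.2.val ∧ v.2.val < a + l)

theorem mem_hrow {k L a l : ℕ} (e : GridEdge k L) : e ∈ hrow k L a l ↔
    (e.val.1.1.val = 0 ∧ e.val.2.1.val = 0 ∧ a ≤ e.val.1.2.val ∧ e.val.1.2.val < a + l) := by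
  simp [hrow]

theorem mem_colset {k L a l : ℕ} (v : Fin k × Fin L) : v ∈ colset k L a l ↔
    (a ≤ v.2.val ∧ v.2.val < a + l) := by
  simp [colset]

/-- Horizontal edge. -/
def hE {k L : ℕ} (i : Fin k) (c : ℕ) (hc : c + 1 < L) : GridEdge k L :=
  ⟨((i, ⟨c, by omega⟩), (i, ⟨c + 1, hc⟩)), Or.inl ⟨rfl, rfl⟩⟩

/-- Vertical edge. -/
def vE {k L : ℕ} (i : ℕ) (hi : i + 1 < k) (c : Fin L) : GridEdge k L :=
  ⟨((⟨i, by omega⟩, c), (⟨i + 1, hi⟩, c)), Or.inr ⟨rfl, rfl⟩⟩

theorem hrow_injOn {k L a l : ℕ} {e e' : GridEdge k L} (he : e ∈ hrow k L a l)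
    (he' : e' ∈ hrow k L a l) (h : e.val.1.2 = e'.val.1.2) : e = e' := by
  rw [mem_hrow] at he he'
  obtain ⟨⟨⟨i, c⟩, ⟨i', c'⟩⟩, hp⟩ := e
  obtain ⟨⟨⟨j, d⟩, ⟨j', d'⟩⟩, hq⟩ := e'
  simp only at he he' h hp hq
  subst h
  have e1 : i = j := Fin.ext (by omega)
  have e2 : i' = j' := Fin.ext (by omega)
  subst e1 e2
  have e3 : c' = d' := by
    rcases hp with hp | hp
    · rcases hq with hq | hq
      · exact Fin.ext (by omega)
      · omega
    · omega
  subst e3
  rfl

theorem card_hrow {k L a l : ℕ} (hk : 1 ≤ k) (hL : a + l + 1 ≤ L) : (hrow k L a l).card = l := by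
  have h := Finset.card_bij (s := Finset.range l) (t := hrow k L a l)
    (fun x hx => hE (⟨0, hk⟩ : Fin k) (a + x) (by have := Finset.mem_range.mp hx; omega))
    (by
      intro x hx
      have := Finset.mem_range.mp hx
      rw [mem_hrow]
      refine ⟨rfl, rfl, ?_, ?_⟩
      · simp only [hE]
        omega
      · simp only [hE]
        omega)
    (by
      intro x hx y hy hxy
      have := congrArg (fun e : GridEdge k L => e.val.1.2.val) hxy
      simp only [hE] at this
      omega)
    (by
      intro e he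
      have he2 := (mem_hrow e).mp he
      refine ⟨e.val.1.2.val - a, ?_, ?_⟩
      · rw [Finset.mem_range]
        omega
      · apply hrow_injOn (a := a) (l := l)
        · rw [mem_hrow]
          refine ⟨rfl, rfl, ?_, ?_⟩
          · simp only [hE]
            omega
          · simp only [hE]
            omega
        · exact he
        · simp only [hE]
          exact Fin.ext (by simp only; omega))
  rw [← h, Finset.card_range]

/-- All edges at the cell are inside (or all outside) the set. -/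
def AllAt {k L : ℕ} (E : Finset (GridEdge k L)) (v : Fin k × Fin L) (b : Prop) : Prop :=
  ∀ e : GridEdge k L, (v = e.val.1 ∨ v = e.val.2) → (e ∈ E ↔ b)

theorem allAt_of_not_bd {k L : ℕ} {E : Finset (GridEdge k L)} {v : Fin k × Fin L}
    (hv : v ∉ gbd E) (e : GridEdge k L) (he : v = e.val.1 ∨ v = e.val.2) :
    AllAt E v (e ∈ E) := by
  intro e' he'
  rw [gbd, mem_bd] at hv
  by_contra hcon
  apply hv
  rw [not_iff] at hcon
  by_cases h : e ∈ E
  · have : e' ∉ E := hcon.mpr h
    exact ⟨⟨e, h, he⟩, ⟨e', this, he'⟩⟩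
  · have : e' ∈ E := by
      by_contra h'
      exact h (hcon.mp h')
    exact ⟨⟨e', this, he'⟩, ⟨e, h, he⟩⟩

/-- A column without boundary cells is uniform. -/
theorem column_uniform {k L : ℕ} {E : Finset (GridEdge k L)} {c : Fin L}
    (hc : ∀ i : Fin k, (i, c) ∉ gbd E) (hk : 0 < k) (b : Prop) (h0 : AllAt E (⟨0, hk⟩, c) b) :
    ∀ (i : ℕ) (hi : i < k), AllAt E (⟨i, hi⟩, c) b := by
  intro i
  induction i with
  | zero => intro _; exact h0
  | succ i ih =>
    intro hi
    have h1 := ih (by omega)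
    have h2 := h1 (vE i hi c) (Or.inl rfl)
    have h3 := allAt_of_not_bd (hc ⟨i + 1, hi⟩) (vE i hi c) (Or.inr rfl)
    intro e he
    rw [h3 e he, h2]

/-- Between a cell inside and a cell outside there is a boundary cell. -/
theorem exists_bd_between {k L : ℕ} {E : Finset (GridEdge k L)} (i : Fin k) (c c' : ℕ)
    (hcc : c < c') (hc' : c' < L) (b : Prop) (h1 : AllAt E (i, ⟨c, by omega⟩) b)
    (h2 : AllAt E (i, ⟨c', hc'⟩) (¬ b)) :
    ∃ (x : ℕ) (hx : x < L), c < x ∧ x < c' ∧ (i, (⟨x, hx⟩ : Fin L)) ∈ gbd E := by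
  by_contra hcon
  push Not at hcon
  have key : ∀ x : ℕ, c ≤ x → (hx : x < c') → (hE i x (by omega) ∈ E ↔ b) := by
    intro x hx
    induction x, hx using Nat.le_induction with
    | base =>
      intro hx
      exact h1 _ (Or.inl rfl)
    | succ x hx ih =>
      intro hx'
      have h3 := ih (by omega)
      have h4 := allAt_of_not_bd (hcon (x + 1) (by omega) (by omega) (by omega))
        (hE i x (by omega)) (Or.inr rfl)
      rw [h4 (hE i (x + 1) (by omega)) (Or.inl rfl)]
      exact h3
  obtain ⟨y, rfl⟩ : ∃ y, c' = y + 1 := ⟨c' - 1, by omega⟩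
  have h5 := key y (by omega) (by omega)
  have h6 := h2 (hE i y (by omega)) (Or.inr rfl)
  tauto

/-- Dichotomy. -/
theorem light_or_heavy {k L a l : ℕ} (hk : 0 < k) (E : Finset (GridEdge k L))
    (hb : (gbd E ∩ colset k L a l).card < k) :
    (E ∩ hrow k L a l).card < k ∨ (hrow k L a l \ E).card < k := by
  classical
  by_contra hcon
  push Not at hcon
  obtain ⟨hA, hB⟩ := hcon
  set D : Finset (Fin L) := (gbd E ∩ colset k L a l).image (fun v => v.2) with hD
  have hDc : D.card < k := lt_of_le_of_lt Finset.card_image_le hb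
  have hfind : ∀ S : Finset (GridEdge k L), S ⊆ hrow k L a l → k ≤ S.card →
      ∃ e ∈ S, e.val.1.2 ∉ D := by
    intro S hS hSc
    by_contra hno
    push Not at hno
    have : S.card ≤ D.card := by
      apply Finset.card_le_card_of_injOn (fun e => e.val.1.2)
      · intro e he
        exact hno e he
      · intro e he e' he' heq
        exact hrow_injOn (hS he) (hS he') heq
    omega
  obtain ⟨e, heS, heD⟩ := hfind (E ∩ hrow k L a l) Finset.inter_subset_right hA
  obtain ⟨e', heS', heD'⟩ := hfind (hrow k L a l \ E) Finset.sdiff_subset hB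
  rw [Finset.mem_inter] at heS
  rw [Finset.mem_sdiff] at heS'
  obtain ⟨heE, heH⟩ := heS
  obtain ⟨heH', heE'⟩ := heS'
  rw [mem_hrow] at heH heH'
  have hpure : ∀ c : Fin L, a ≤ c.val → c.val < a + l → c ∉ D → ∀ i : Fin k, (i, c) ∉ gbd E := by
    intro c h1 h2 h3 i h4
    apply h3
    rw [hD, Finset.mem_image]
    refine ⟨(i, c), ?_, rfl⟩
    rw [Finset.mem_inter, mem_colset]
    exact ⟨h4, h1, h2⟩
  have hp := hpure _ heH.2.2.1 heH.2.2.2 heD
  have hp' := hpure _ heH'.2.2.1 heH'.2.2.2 heD'
  have z1 : e.val.1 = ((⟨0, hk⟩ : Fin k), e.val.1.2) :=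
    Prod.ext (Fin.ext heH.1) rfl
  have z2 : e'.val.1 = ((⟨0, hk⟩ : Fin k), e'.val.1.2) :=
    Prod.ext (Fin.ext heH'.1) rfl
  have hin : ∀ (i : ℕ) (hi : i < k), AllAt E (⟨i, hi⟩, e.val.1.2) True := by
    apply column_uniform hp hk
    have := allAt_of_not_bd (hp ⟨0, hk⟩) e (Or.inl z1.symm)
    intro f hf
    rw [this f hf]
    simp [heE]
  have hout : ∀ (i : ℕ) (hi : i < k), AllAt E (⟨i, hi⟩, e'.val.1.2) (¬ True) := by
    apply column_uniform hp' hk
    have := allAt_of_not_bd (hp' ⟨0, hk⟩) e' (Or.inl z2.symm)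
    intro f hf
    rw [this f hf]
    simp [heE']
  have hne : e.val.1.2.val ≠ e'.val.1.2.val := by
    intro h
    have : e = e' := hrow_injOn (a := a) (l := l) (by rw [mem_hrow]; exact heH)
      (by rw [mem_hrow]; exact heH') (Fin.ext h)
    exact heE' (this ▸ heE)
  have hrows : ∀ i : Fin k, ∃ c : Fin L, (i, c) ∈ gbd E ∩ colset k L a l := by
    intro i
    rcases Nat.lt_or_gt_of_ne hne with hlt | hlt
    · obtain ⟨x, hx, h1, h2, h3⟩ := exists_bd_between i e.val.1.2.val e'.val.1.2.val hlt
        e'.val.1.2.isLt True (hin i.val i.isLt) (hout i.val i.isLt)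
      refine ⟨⟨x, hx⟩, ?_⟩
      rw [Finset.mem_inter, mem_colset]
      refine ⟨h3, ?_⟩
      simp only
      omega
    · obtain ⟨x, hx, h1, h2, h3⟩ := exists_bd_between i e'.val.1.2.val e.val.1.2.val hlt
        e.val.1.2.isLt (¬ True) (hout i.val i.isLt) (by
          have := hin i.val i.isLt
          intro f hf
          rw [this f hf]
          simp)
      refine ⟨⟨x, hx⟩, ?_⟩
      rw [Finset.mem_inter, mem_colset]
      refine ⟨h3, ?_⟩
      simp only
      omega
  choose c hc using hrows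
  have : k ≤ (gbd E ∩ colset k L a l).card := by
    have h1 : ((univ : Finset (Fin k)).image (fun i => (i, c i))) ⊆ gbd E ∩ colset k L a l := by
      intro v hv
      rw [Finset.mem_image] at hv
      obtain ⟨i, _, rfl⟩ := hv
      exact hc i
    have h2 : ((univ : Finset (Fin k)).image (fun i => (i, c i))).card = k := by
      rw [Finset.card_image_of_injective]
      · simp
      · intro i j hij
        exact (Prod.mk.inj hij).1
    calc k = _ := h2.symm
      _ ≤ _ := Finset.card_le_card h1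
  omega

end Pool.Agent.V8H11.TS
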