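import Pool.Agent.V8H11.TS.Top
import Pool.Agent.V8H11.TS.Grid

/-!
The divide and conquer program for the labelling problem of the grid.
-/

namespace Pool.Agent.V8H11.TS

open Finset

section

variable {k L n : ℕ}

/-- The weights inside a column. -/
def vertVars (k L n c : ℕ) (s : Fin k → Fin n) : List (Var k L n) :=
  if h : c < L then List.ofFn (fun i : Fin (k - 1) =>
    (vE i.val (by have := i.isLt; omega) ⟨c, h⟩, s ⟨i.val, by have := i.isLt; omega⟩,
      s ⟨i.val + 1, by have := i.isLt; omega⟩)) else []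

/-- The weights between two columns and inside the second one; after the last column the state
does not change. -/
def stepVars (k L n c : ℕ) (s s' : Fin k → Fin n) : Option (List (Var k L n)) :=
  if h : c + 1 < L then some (List.ofFn (fun i : Fin k => (hE i c h, s i, s' i)) ++
    vertVars k L n (c + 1) s') else (if s = s' then some [] else none)

variable {M : Type} [CommMonoid M]

theorem vertical_prod (f : GridEdge k L → M) (c : ℕ) (hc : c < L) :
    ∏ e ∈ univ.filter (fun e : GridEdge k L => e.val.2.2.val = c ∧ e.val.1.2 = e.val.2.2), f e =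
      ∏ i : Fin (k - 1), f (vE i.val (by have := i.isLt; omega) ⟨c, hc⟩) := by
  symm
  apply Finset.prod_bij (fun (i : Fin (k - 1)) _ =>
    (vE i.val (by have := i.isLt; omega) ⟨c, hc⟩ : GridEdge k L))
  · intro i _
    rw [Finset.mem_filter]
    exact ⟨Finset.mem_univ _, rfl, rfl⟩
  · intro i _ j _ hij
    have := congrArg (fun e : GridEdge k L => e.val.1.1.val) hij
    exact Fin.ext this
  · intro e he
    rw [Finset.mem_filter] at he
    obtain ⟨_, h1, h2⟩ := he
    obtain ⟨⟨⟨i, a⟩, ⟨j, b⟩⟩, hp⟩ := e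
    simp only at h1 h2 hp
    subst h2
    have hij : i.val + 1 = j.val := by
      rcases hp with hp | hp
      · omega
      · exact hp.1
    refine ⟨⟨i.val, by have := j.isLt; omega⟩, Finset.mem_univ _, ?_⟩
    apply Subtype.ext
    simp only [vE]
    refine Prod.ext (Prod.ext rfl (Fin.ext h1.symm)) (Prod.ext (Fin.ext hij) (Fin.ext h1.symm))
  · intro i _
    rfl

theorem horizontal_prod_zero (f : GridEdge k L → M) :
    ∏ e ∈ univ.filter (fun e : GridEdge k L => e.val.2.2.val = 0 ∧ ¬ e.val.1.2 = e.val.2.2), f e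
      = 1 := by
  apply Finset.prod_eq_one
  intro e he
  rw [Finset.mem_filter] at he
  obtain ⟨_, h1, h2⟩ := he
  exfalso
  rcases e.property with hp | hp
  · omega
  · exact h2 hp.2

theorem horizontal_prod (f : GridEdge k L → M) (c : ℕ) (hc : c + 1 < L) :
    ∏ e ∈ univ.filter (fun e : GridEdge k L => e.val.2.2.val = c + 1 ∧ ¬ e.val.1.2 = e.val.2.2),
      f e = ∏ i : Fin k, f (hE i c hc) := by
  symm
  apply Finset.prod_bij (fun (i : Fin k) _ => (hE i c hc : GridEdge k L))
  · intro i _
    rw [Finset.mem_filter]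
    refine ⟨Finset.mem_univ _, rfl, ?_⟩
    simp only [hE, Fin.mk.injEq]
    omega
  · intro i _ j _ hij
    have := congrArg (fun e : GridEdge k L => e.val.1.1) hij
    exact this
  · intro e he
    rw [Finset.mem_filter] at he
    obtain ⟨_, h1, h2⟩ := he
    obtain ⟨⟨⟨i, a⟩, ⟨j, b⟩⟩, hp⟩ := e
    simp only at h1 h2 hp
    have hij : i = j ∧ a.val + 1 = b.val := by
      rcases hp with hp | hp
      · exact hp
      · exact absurd hp.2 h2
    refine ⟨i, Finset.mem_univ _, ?_⟩
    apply Subtype.ext
    simp only [hE]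
    refine Prod.ext (Prod.ext rfl (Fin.ext (by simp only; omega)))
      (Prod.ext hij.1 (Fin.ext h1.symm))
  · intro i _
    rfl

end

section

variable {K : Type} [CommSemiring K] {k L n : ℕ}

theorem wt_append {X : Type} (x : X → K) (l l' : List X) :
    wt x (some (l ++ l')) = wt x (some l) * wt x (some l') := by
  simp [wt]

theorem wt_ofFn {X : Type} (x : X → K) {m : ℕ} (f : Fin m → X) :
    wt x (some (List.ofFn f)) = ∏ i, x (f i) := by
  simp [wt, List.map_ofFn, List.prod_ofFn]

/-- The labelling given by a sequence of columns. -/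
def ofCols (σ : ℕ → Fin k → Fin n) : Fin k × Fin L → Fin n := fun v => σ v.2.val v.1

theorem prod_ofCols {m : ℕ} (x : Var k (m + 1) n → K) (σ : ℕ → Fin k → Fin n) :
    (∏ e : GridEdge k (m + 1), x (e, ofCols σ e.val.1, ofCols σ e.val.2)) =
      wt x (some (vertVars k (m + 1) n 0 (σ 0))) *
        ∏ c ∈ Finset.range m, wt x (stepVars k (m + 1) n c (σ c) (σ (c + 1))) := by
  set f : GridEdge k (m + 1) → K := fun e => x (e, ofCols σ e.val.1, ofCols σ e.val.2) with hf
  have h1 : ∏ e : GridEdge k (m + 1), f e = ∏ c ∈ Finset.range (m + 1),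
      ∏ e ∈ univ.filter (fun e : GridEdge k (m + 1) => e.val.2.2.val = c), f e := by
    symm
    apply Finset.prod_fiberwise_of_maps_to
    intro e _
    rw [Finset.mem_range]
    exact e.val.2.2.isLt
  have h2 : ∀ c, ∏ e ∈ univ.filter (fun e : GridEdge k (m + 1) => e.val.2.2.val = c), f e =
      (∏ e ∈ univ.filter (fun e : GridEdge k (m + 1) => e.val.2.2.val = c ∧
        e.val.1.2 = e.val.2.2), f e) *
      ∏ e ∈ univ.filter (fun e : GridEdge k (m + 1) => e.val.2.2.val = c ∧
        ¬ e.val.1.2 = e.val.2.2), f e := by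
    intro c
    rw [← Finset.filter_filter, ← Finset.filter_filter]
    exact (Finset.prod_filter_mul_prod_filter_not _ _ _).symm
  have hv : ∀ c, c < m + 1 → wt x (some (vertVars k (m + 1) n c (σ c))) =
      ∏ e ∈ univ.filter (fun e : GridEdge k (m + 1) => e.val.2.2.val = c ∧
        e.val.1.2 = e.val.2.2), f e := by
    intro c hc
    rw [vertical_prod f c hc, vertVars, dif_pos hc, wt_ofFn]
    rfl
  have hs : ∀ c, c < m → wt x (stepVars k (m + 1) n c (σ c) (σ (c + 1))) =
      ∏ e ∈ univ.filter (fun e : GridEdge k (m + 1) => e.val.2.2.val = c + 1), f e := by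
    intro c hc
    have hc' : c + 1 < m + 1 := by omega
    rw [h2, horizontal_prod f c hc', stepVars, dif_pos hc', wt_append, hv (c + 1) hc', wt_ofFn,
      mul_comm]
    rfl
  rw [h1, Finset.prod_range_succ', h2 0, horizontal_prod_zero, mul_one, hv 0 (by omega), mul_comm]
  congr 1
  apply Finset.prod_congr rfl
  intro c hc
  rw [hs c (Finset.mem_range.mp hc)]

/-- Sums over sequences of states. -/
theorem walk_sum {X S : Type} [Fintype S] [DecidableEq S] (sv : ℕ → S → S → Option (List X))
    (iw : S → K) (x : X → K) (m : ℕ) : ∀ s' : S,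
    ∑ σ : Fin (m + 1) → S, (if σ (Fin.last m) = s' then
      iw (σ 0) * ∏ c : Fin m, wt x (sv c.val (σ c.castSucc) (σ c.succ)) else 0) =
      ∑ s, iw s * mdist sv x 0 m s s' := by
  induction m with
  | zero =>
    intro s'
    rw [Fintype.sum_equiv (Equiv.funUnique (Fin 1) S) _
      (fun s => if s = s' then iw s * 1 else 0)]
    · simp [mdist]
    · intro σ
      simp [Equiv.funUnique]
  | succ m ih =>
    intro s'
    rw [← (Fin.snocEquiv (fun _ : Fin (m + 2) => S)).sum_comp, Fintype.sum_prod_type]
    have h1 : ∀ (t : S) (σ : Fin (m + 1) → S),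
        (if (Fin.snocEquiv (fun _ : Fin (m + 2) => S)) (t, σ) (Fin.last (m + 1)) = s' then
          iw ((Fin.snocEquiv (fun _ : Fin (m + 2) => S)) (t, σ) 0) *
          ∏ c : Fin (m + 1), wt x (sv c.val
            ((Fin.snocEquiv (fun _ : Fin (m + 2) => S)) (t, σ) c.castSucc)
            ((Fin.snocEquiv (fun _ : Fin (m + 2) => S)) (t, σ) c.succ)) else 0) =
        if t = s' then (iw (σ 0) * ∏ c : Fin m, wt x (sv c.val (σ c.castSucc) (σ c.succ))) *
          wt x (sv m (σ (Fin.last m)) s') else 0 := by
      intro t σ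
      have e0 : (Fin.snocEquiv (fun _ : Fin (m + 2) => S)) (t, σ) = Fin.snoc σ t := rfl
      rw [e0]
      have e1 : (Fin.snoc σ t : Fin (m + 2) → S) (Fin.last (m + 1)) = t := Fin.snoc_last _ _
      have e2 : (Fin.snoc σ t : Fin (m + 2) → S) 0 = σ 0 :=
        Fin.snoc_castSucc (α := fun _ => S) t σ 0
      have e3 : ∀ c : Fin (m + 1), (Fin.snoc σ t : Fin (m + 2) → S) c.castSucc = σ c :=
        fun c => Fin.snoc_castSucc (α := fun _ => S) t σ c
      rw [e1, e2]
      split_ifs with h
      · subst h
        rw [Fin.prod_univ_castSucc, ← mul_assoc]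
        congr 1
        · congr 1
          apply Finset.prod_congr rfl
          intro c _
          rw [e3, Fin.succ_castSucc, e3]
          rfl
        · rw [e3, Fin.succ_last, e1]
          rfl
      · rfl
    simp_rw [h1]
    rw [Finset.sum_comm]
    simp only [Finset.sum_ite_eq', Finset.mem_univ, if_true]
    -- split by the last state
    have h2 : ∀ σ : Fin (m + 1) → S,
        (iw (σ 0) * ∏ c : Fin m, wt x (sv c.val (σ c.castSucc) (σ c.succ))) *
          wt x (sv m (σ (Fin.last m)) s') =
        ∑ u, (if σ (Fin.last m) = u then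
          iw (σ 0) * ∏ c : Fin m, wt x (sv c.val (σ c.castSucc) (σ c.succ)) else 0) *
            wt x (sv m u s') := by
      intro σ
      simp
    simp_rw [h2]
    rw [Finset.sum_comm]
    simp_rw [← Finset.sum_mul, ih, mdist, zero_add, Finset.mul_sum, Finset.sum_mul]
    rw [Finset.sum_comm]
    simp_rw [mul_assoc]

theorem labelSum_eq {m : ℕ} (x : Var k (m + 1) n → K) : labelSum k (m + 1) n x =
    ∑ s, ∑ s', wt x (some (vertVars k (m + 1) n 0 s)) * mdist (stepVars k (m + 1) n) x 0 m s s' := by
  rw [Finset.sum_comm]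
  simp_rw [← walk_sum (stepVars k (m + 1) n) (fun s => wt x (some (vertVars k (m + 1) n 0 s))) x m]
  rw [Finset.sum_comm]
  simp only [Finset.sum_ite_eq, Finset.mem_univ, if_true]
  unfold labelSum
  -- labellings are sequences of columns
  let E : (Fin k × Fin (m + 1) → Fin n) ≃ (Fin (m + 1) → Fin k → Fin n) :=
    { toFun := fun φ c i => φ (i, c)
      invFun := fun σ v => σ v.2 v.1
      left_inv := fun φ => rfl
      right_inv := fun σ => rfl }
  apply Fintype.sum_equiv E
  intro φ
  have h1 : φ = ofCols (fun c i => φ (i, Fin.ofNat (m + 1) c)) := by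
    funext v
    simp only [ofCols]
    congr 1
    apply Prod.ext
    · rfl
    · apply Fin.ext
      simp [Fin.ofNat, Nat.mod_eq_of_lt v.2.isLt]
  conv_lhs => rw [h1]
  rw [prod_ofCols]
  congr 1
  rw [← Fin.prod_univ_eq_prod_range (fun c => wt x (stepVars k (m + 1) n c
    (fun i => φ (i, Fin.ofNat (m + 1) c)) (fun i => φ (i, Fin.ofNat (m + 1) (c + 1))))) m]
  apply Finset.prod_congr rfl
  intro c _
  have h2 : (Fin.ofNat (m + 1) c.val) = c.castSucc := by
    apply Fin.ext
    simp [Fin.ofNat, Nat.mod_eq_of_lt (show c.val < m + 1 by omega)]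
  have h3 : (Fin.ofNat (m + 1) (c.val + 1)) = c.succ := by
    apply Fin.ext
    simp [Fin.ofNat, Nat.mod_eq_of_lt (show c.val + 1 < m + 1 by omega)]
  rw [h2, h3]
  rfl

theorem mdist_tail {m : ℕ} (x : Var k (m + 1) n → K) (b : ℕ) (s s' : Fin k → Fin n) :
    mdist (stepVars k (m + 1) n) x 0 (m + b) s s' = mdist (stepVars k (m + 1) n) x 0 m s s' := by
  induction b generalizing s' with
  | zero => rfl
  | succ b ih =>
    rw [← add_assoc]
    have : mdist (stepVars k (m + 1) n) x 0 (m + b + 1) s s' =
      ∑ u, mdist (stepVars k (m + 1) n) x 0 (m + b) s u *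
        wt x (stepVars k (m + 1) n (0 + (m + b)) u s') := rfl
    rw [this]
    have h : ∀ u, wt x (stepVars k (m + 1) n (0 + (m + b)) u s') = if u = s' then 1 else 0 := by
      intro u
      rw [stepVars, dif_neg (by omega)]
      split_ifs <;> simp [wt]
    simp_rw [h, ih]
    simp

theorem length_vertVars (c : ℕ) (s : Fin k → Fin n) : (vertVars k L n c s).length ≤ k - 1 := by
  unfold vertVars
  split_ifs <;> simp

theorem length_stepVars (c : ℕ) (s s' : Fin k → Fin n) (l : List (Var k L n))
    (h : stepVars k L n c s s' = some l) : l.length ≤ k + (k - 1) := by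
  unfold stepVars at h
  split_ifs at h
  · rw [← Option.some.inj h, List.length_append, List.length_ofFn]
    have := length_vertVars (k := k) (L := L) (n := n) (c + 1) s'
    omega
  · rw [← Option.some.inj h]
    simp

/-- Labels of positions. -/
theorem exists_lab (k n q G : ℕ) (hqG : n ^ k ≤ q * G) :
    ∃ lab : Fin q → Fin G → Option (Fin k → Fin n), IsLab lab := by
  classical
  have hcard : Fintype.card (Fin k → Fin n) ≤ Fintype.card (Fin q × Fin G) := by
    simpa using hqG
  obtain ⟨emb⟩ := Function.Embedding.nonempty_of_card_le hcard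
  set lab : Fin q → Fin G → Option (Fin k → Fin n) := fun g j =>
    if h : ∃ s, emb s = (g, j) then some h.choose else none with hlabdef
  have hlab1 : ∀ s, lab (emb s).1 (emb s).2 = some s := by
    intro s
    have hex : ∃ s', emb s' = ((emb s).1, (emb s).2) := ⟨s, rfl⟩
    simp only [hlabdef]
    rw [dif_pos hex]
    congr 1
    apply emb.injective
    exact hex.choose_spec
  have hlab2 : ∀ g j s, lab g j = some s → emb s = (g, j) := by
    intro g j s h
    simp only [hlabdef] at h
    split_ifs at h with hex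
    rw [← Option.some.inj h]
    exact hex.choose_spec
  refine ⟨lab, ?_⟩
  intro s
  refine ⟨emb s, hlab1 s, ?_⟩
  intro p hp
  exact (hlab2 p.1 p.2 s hp).symm

theorem length_le {S X : Type} (sv : ℕ → S → S → Option (List X)) (iv : S → List X) (D q G : ℕ)
    (hq : 1 ≤ q) (lab : Fin q → Fin G → Option S) (out : VReg D G) :
    (topL sv iv lab K out).length ≤ 2 * q ^ 2 * (3 * q) ^ D + 1 := by
  rw [length_topL]
  have h1 := len_le hq D
  have h2 : 1 ≤ (3 * q) ^ D := Nat.one_le_pow _ _ (by omega)
  have h3 : q ≤ q * (q * (3 * q) ^ D) := Nat.le_mul_of_pos_right _ (by positivity)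
  calc q * (1 + q * len q D) + 1 ≤ q * (1 + q * (3 * q) ^ D) + 1 := by gcongr
    _ = q + q * (q * (3 * q) ^ D) + 1 := by ring
    _ ≤ q * (q * (3 * q) ^ D) + q * (q * (3 * q) ^ D) + 1 := by omega
    _ = 2 * q ^ 2 * (3 * q) ^ D + 1 := by ring

/-- The divide and conquer program is correct over every commutative semiring. -/
theorem topL_correct (K : Type) [CommSemiring K] (k L n D q G : ℕ) (hk : 1 ≤ k)
    (hL : 1 ≤ L) (hD : L ≤ 2 ^ D + 1) (lab : Fin q → Fin G → Option (Fin k → Fin n))
    (hlab : IsLab lab) (out : VReg D G) :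
    (ofList (topL (stepVars k L n) (vertVars k L n 0) lab K out) out).FanIn (2 * k) ∧
    ∀ x, (ofList (topL (stepVars k L n) (vertVars k L n 0) lab K out) out).result
      (topL (stepVars k L n) (vertVars k L n 0) lab K out).length x = labelSum k L n x := by
  obtain ⟨m, rfl⟩ : ∃ m, L = m + 1 := ⟨L - 1, by omega⟩
  constructor
  · apply fanIn_ofList _ _ _ (by omega)
    apply rfanIn_topL _ _ _ _ (by omega)
    · intro c s s' l hl
      have := length_stepVars c s s' l hl
      omega
    · intro s
      have := length_vertVars (k := k) (L := m + 1) (n := n) 0 s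
      omega
  · intro x
    rw [Program.result, value_ofList]
    have h1 := exec_topL (stepVars k (m + 1) n) (vertVars k (m + 1) n 0) lab hlab x out
    have h2 : (ofList (topL (stepVars k (m + 1) n) (vertVars k (m + 1) n 0) lab K out) out).out
      = out := rfl
    rw [h2, h1, labelSum_eq x]
    obtain ⟨b, hb⟩ : ∃ b, 2 ^ D = m + b := ⟨2 ^ D - m, by omega⟩
    simp_rw [hb, mdist_tail]

/-- The upper bound, over every commutative semiring. -/
theorem rounds_upper_bound (K : Type) [CommSemiring K] (k L n D q G : ℕ) (hk : 1 ≤ k)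
    (hL : 1 ≤ L) (hG : 1 ≤ G) (hq : 1 ≤ q) (hqG : n ^ k ≤ q * G) (hD : L ≤ 2 ^ D + 1) :
    ∃ (T : ℕ) (P : Program K (Var k L n) (Fin (D + 2) × Fin G)),
      T ≤ 2 * q ^ 2 * (3 * q) ^ D + 1 ∧ P.FanIn (2 * k) ∧
        ∀ x, P.result T x = labelSum k L n x := by
  obtain ⟨lab, hlab⟩ := exists_lab k n q G hqG
  obtain ⟨h1, h2⟩ := topL_correct K k L n D q G hk hL hD lab hlab (sl D D, ⟨0, hG⟩)
  exact ⟨_, _, length_le _ _ D q G hq lab _, h1, h2⟩

end

end Pool.Agent.V8H11.TS
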