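import Pool.Agent.V8H11.TS.Models
import Pool.Agent.V8H11.TS.GridUp

/-!
The divide and conquer program in all models.
-/

namespace Pool.Agent.V8H11.TS

open Tropical OrderDual
open scoped NNReal

section

variable {K K' X Reg : Type} [CommSemiring K] [CommSemiring K'] (f : K → K')

/-- Change the coefficient of a term. -/
def Term.mapC (τ : Term K X Reg) : Term K' X Reg := ⟨f τ.coeff, τ.regs, τ.vars⟩

/-- Change the coefficients of a program. -/
def Program.mapC (P : Program K X Reg) : Program K' X Reg where
  init := fun r => f (P.init r)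
  rule := fun t r => (P.rule t r).map (Term.mapC f)
  out := P.out

theorem gen_mapC (hf : ∀ c, f c = 0 ↔ c = 0) (P : Program K X Reg) : ∀ (t : ℕ) (r : Reg),
    (P.mapC f).Gen t r = P.Gen t r := by
  intro t
  induction t with
  | zero =>
    intro r
    ext m
    change (f (P.init r) ≠ 0 ∧ m = 0) ↔ (P.init r ≠ 0 ∧ m = 0)
    rw [Ne, hf]
  | succ t ih =>
    intro r
    ext m
    constructor
    · rintro ⟨τ', hτ', hc, l, hl, hm⟩
      obtain ⟨τ, hτ, rfl⟩ := List.mem_map.mp hτ'
      refine ⟨τ, hτ, ?_, l, ?_, hm⟩
      · intro h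
        exact hc ((hf _).mpr h)
      · refine hl.imp ?_
        intro a b hab
        rwa [ih a] at hab
    · rintro ⟨τ, hτ, hc, l, hl, hm⟩
      refine ⟨τ.mapC f, List.mem_map.mpr ⟨τ, hτ, rfl⟩, ?_, l, ?_, hm⟩
      · intro h
        exact hc ((hf _).mp h)
      · refine hl.imp ?_
        intro a b hab
        rwa [ih a]

/-- Change the coefficients of a round. -/
def mapR (ρ : Round K X Reg) : Round K' X Reg := fun r => (ρ r).map (Term.mapC f)

theorem mapC_ofList (h0 : f 0 = 0) (h1 : f 1 = 1) (l : List (Round K X Reg)) (out : Reg) :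
    (ofList l out).mapC f = ofList (l.map (mapR f)) out := by
  unfold Program.mapC ofList
  simp only [h0]
  congr 1
  funext t r
  by_cases ht : t < l.length
  · simp [List.getD_eq_getElem?_getD, List.getElem?_eq_getElem ht, mapR]
  · have ht' : l.length ≤ t := by omega
    simp [List.getD_eq_getElem?_getD, List.getElem?_eq_none ht', Term.mapC, cp, h1]

theorem mapC_cp (h1 : f 1 = 1) (r : Reg) : (cp r : Term K X Reg).mapC f = cp r := by
  simp [Term.mapC, cp, h1]

end

section

variable {K K' X S : Type} [CommSemiring K] [CommSemiring K'] (f : K → K')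
  (sv : ℕ → S → S → Option (List X)) (iv : S → List X) {D q G : ℕ}
  (lab : Fin q → Fin G → Option S)

theorem mapR_prg (h0 : f 0 = 0) (h1 : f 1 = 1) (d c : ℕ) (src tgt : Fin (D + 2))
    (g0 g1 : Fin q) :
    (prg sv lab K d c src tgt g0 g1).map (mapR f) = prg sv lab K' d c src tgt g0 g1 := by
  have hclear : ∀ t, mapR f (clearR K D G X t) = clearR K' D G X t := by
    intro t
    funext r
    unfold mapR clearR
    split_ifs
    · rfl
    · simp [mapC_cp f h1]
  induction d generalizing c src tgt g0 g1 with
  | zero =>
    simp only [prg, List.map_cons, List.map_nil]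
    congr 1
    funext r
    unfold mapR stepR
    split_ifs
    · rw [List.map_cons, mapC_cp f h1, List.map_map]
      congr 1
      apply List.map_congr_left
      intro j _
      simp only [Function.comp, stepT]
      cases lab g0 j with
      | none => simp [Term.mapC, h0]
      | some s =>
        cases lab g1 r.2 with
        | none => simp [Term.mapC, h0]
        | some s' =>
          cases h2 : sv c s s' with
          | none => simp [Term.mapC, h0, h2]
          | some l => simp [Term.mapC, h1, h2]
    · simp [mapC_cp f h1]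
  | succ d ih =>
    simp only [prg, List.map_flatMap]
    congr 1
    funext h
    rw [List.map_cons, List.map_append, ih, ih, hclear]

theorem mapR_topL (h0 : f 0 = 0) (h1 : f 1 = 1) (out : VReg D G) :
    (topL sv iv lab K out).map (mapR f) = topL sv iv lab K' out := by
  unfold topL
  rw [List.map_append, List.map_flatMap]
  congr 1
  · congr 1
    funext g0
    rw [List.map_cons, List.map_flatMap]
    congr 1
    · funext r
      unfold mapR loadR
      split_ifs
      · cases lab g0 r.2 with
        | none => rfl
        | some s => simp [Term.mapC, h1]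
      · simp [mapC_cp f h1]
    · congr 1
      funext g1
      exact mapR_prg f sv lab h0 h1 _ _ _ _ _ _
  · simp only [List.map_cons, List.map_nil]
    congr 1
    funext r
    unfold mapR finalR
    split_ifs
    · rw [List.map_map]
      apply List.map_congr_left
      intro i _
      exact mapC_cp f h1 _
    · simp [mapC_cp f h1]

end

/-- The upper bound in all models. -/
theorem solves_upper_bound (M : Model) (k L n D q G : ℕ) (hk : 1 ≤ k) (hL : 1 ≤ L) (hG : 1 ≤ G)
    (hq : 1 ≤ q) (hqG : n ^ k ≤ q * G) (hD : L ≤ 2 ^ D + 1) :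
    ∃ T, T ≤ 2 * q ^ 2 * (3 * q) ^ D + 1 ∧ Solves k L n (Fin (D + 2) × Fin G) (2 * k) T M := by
  cases M with
  | minPlus =>
    obtain ⟨T, P, hT, hB, hP⟩ := rounds_upper_bound (Tropical (WithTop ℝ)) k L n D q G hk hL hG hq
      hqG hD
    exact ⟨T, hT, P, hB, fun w => hP _⟩
  | maxPlus =>
    obtain ⟨T, P, hT, hB, hP⟩ := rounds_upper_bound (Tropical (WithTop ℝᵒᵈ)) k L n D q G hk hL hG
      hq hqG hD
    exact ⟨T, hT, P, hB, fun w => hP _⟩
  | nonneg =>
    obtain ⟨T, P, hT, hB, hP⟩ := rounds_upper_bound ℝ≥0 k L n D q G hk hL hG hq hqG hD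
    exact ⟨T, hT, P, hB, fun w => hP _⟩
  | boolean =>
    classical
    obtain ⟨lab, hlab⟩ := exists_lab k n q G hqG
    set out : VReg D G := (sl D D, ⟨0, hG⟩) with hout
    obtain ⟨h1, h2⟩ := topL_correct BoolSR k L n D q G hk hL hD lab hlab out
    refine ⟨_, length_le _ _ D q G hq lab _, _, h1, ?_, h2⟩
    -- read-once derivations, from the min-plus version of the program
    intro x hx
    rw [h2] at hx
    have hx' : lsum (gsrc k L) (gdst k L) x = BoolSR.yes := hx
    rw [lsum_eq_yes] at hx'
    obtain ⟨φ, hφ⟩ := hx'
    have hn : 0 < n := lt_of_le_of_lt (Nat.zero_le _) (φ (⟨0, hk⟩, ⟨0, hL⟩)).isLt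
    obtain ⟨_, h3⟩ := topL_correct (Tropical (WithTop ℝ)) k L n D q G hk hL hD lab hlab out
    have hS := spec_of_computes (V := Fin k × Fin L) (n := n) (gsrc k L) (gdst k L) tropQVal
      (fun a : ℕ => trop ((a : ℝ) : WithTop ℝ)) 1
      (by
        intro a h
        have := congrArg untrop h
        simp at this)
      (by
        intro a
        change (untrop (trop ((a : ℝ) : WithTop ℝ))).untopD 0 = 1 * (a : ℝ)
        rw [untrop_trop, WithTop.untopD_coe, one_mul])
      (ofList (topL (stepVars k L n) (vertVars k L n 0) lab (Tropical (WithTop ℝ)) out) out)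
      (topL (stepVars k L n) (vertVars k L n 0) lab (Tropical (WithTop ℝ)) out).length
      one_ne_zero hn (fun w => h3 _)
    have hmem := hS.mono_mem φ
    -- the two programs have the same monomials
    set f : BoolSR → Tropical (WithTop ℝ) := fun b => if b = BoolSR.yes then 1 else 0 with hf
    have hf0 : f 0 = 0 := by
      simp only [hf]
      rw [if_neg BoolSR.zero_ne_yes]
    have hf1 : f 1 = 1 := by
      simp only [hf]
      rw [if_pos BoolSR.one_eq_yes]
    have hfz : ∀ c, f c = 0 ↔ c = 0 := by
      intro c
      by_cases hc : c = 0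
      · rw [hc, hf0]
        simp
      · have : c = BoolSR.yes := (BoolSR.ne_zero_iff c).mp hc
        rw [this, ← BoolSR.one_eq_yes, hf1]
        constructor
        · intro h; exact absurd h one_ne_zero
        · intro h; exact absurd h (by decide)
    have hmap := mapC_ofList f hf0 hf1 (topL (stepVars k L n) (vertVars k L n 0) lab BoolSR out) out
    rw [mapR_topL f _ _ lab hf0 hf1 out] at hmap
    rw [← hmap, gen_mapC f hfz] at hmem
    refine ⟨mono (gsrc k L) (gdst k L) φ Finset.univ, ?_, mono_nodup _ _ _ _, ?_⟩
    · rw [length_topL] at hmem ⊢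
      exact hmem
    · intro u hu
      rw [mem_mono] at hu
      rw [hu.2]
      exact hφ _

end Pool.Agent.V8H11.TS
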