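import Mathlib

/-!
Counting labellings with prescribed values on a set of cells.
-/

namespace Pool.Agent.V8H11.TS

open Finset

section

variable {V : Type} [Fintype V] [DecidableEq V] {n : ℕ}

/-- The number of members of `Q` that agree with `α` on `W`. -/
noncomputable def cnt (Q : Set (V → Fin n)) (W : Finset V) (α : V → Fin n) : ℕ := by
  classical exact ((univ : Finset (V → Fin n)).filter (fun φ => φ ∈ Q ∧ ∀ v ∈ W, φ v = α v)).card

theorem cnt_le_cnt {Q Q' : Set (V → Fin n)} {W W' : Finset V} {α α' : V → Fin n}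
    (h : ∀ φ, φ ∈ Q → (∀ v ∈ W, φ v = α v) → φ ∈ Q' ∧ ∀ v ∈ W', φ v = α' v) :
    cnt Q W α ≤ cnt Q' W' α' := by
  classical
  unfold cnt
  apply Finset.card_le_card
  intro φ hφ
  rw [Finset.mem_filter] at hφ ⊢
  exact ⟨Finset.mem_univ _, h φ hφ.2.1 hφ.2.2⟩

theorem cnt_eq_zero {Q : Set (V → Fin n)} {W : Finset V} {α : V → Fin n}
    (h : ∀ φ, φ ∉ Q) : cnt Q W α = 0 := by
  classical
  unfold cnt
  rw [Finset.card_eq_zero, Finset.filter_eq_empty_iff]
  rintro φ _ ⟨h1, _⟩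
  exact h φ h1

/-- `Q` is spread out: prescribing values outside `U` divides the number of members as for the
set of all labellings. -/
def Bnd (Q : Set (V → Fin n)) (U : Finset V) (x : ℝ) : Prop :=
  ∀ (W : Finset V) (α : V → Fin n), Disjoint W U → (cnt Q W α : ℝ) * (n : ℝ) ^ W.card ≤ x

theorem cnt_mono {Q Q' : Set (V → Fin n)} (h : Q ⊆ Q') (W : Finset V) (α : V → Fin n) :
    cnt Q W α ≤ cnt Q' W α := by
  classical
  unfold cnt
  apply Finset.card_le_card
  intro φ hφ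
  simp only [Finset.mem_filter, Finset.mem_univ, true_and] at hφ ⊢
  exact ⟨h hφ.1, hφ.2⟩

theorem bnd_mono {Q Q' : Set (V → Fin n)} {U U' : Finset V} {x x' : ℝ} (hQ : Q ⊆ Q')
    (hU : U ⊆ U') (hx : x ≤ x') (h : Bnd Q' U x) : Bnd Q U' x' := by
  intro W α hW
  have h1 := h W α (Finset.disjoint_of_subset_right hU hW)
  have h2 : (cnt Q W α : ℝ) ≤ (cnt Q' W α : ℝ) := by exact_mod_cast cnt_mono hQ W α
  calc (cnt Q W α : ℝ) * (n : ℝ) ^ W.card ≤ (cnt Q' W α : ℝ) * (n : ℝ) ^ W.card := by gcongr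
    _ ≤ x := h1
    _ ≤ x' := hx

theorem bnd_empty (U : Finset V) {x : ℝ} (hx : 0 ≤ x) : Bnd (∅ : Set (V → Fin n)) U x := by
  intro W α _
  have : cnt (∅ : Set (V → Fin n)) W α = 0 := by
    classical
    unfold cnt
    simp
  rw [this]
  simpa using hx

theorem cnt_union (Q Q' : Set (V → Fin n)) (W : Finset V) (α : V → Fin n) :
    cnt (Q ∪ Q') W α ≤ cnt Q W α + cnt Q' W α := by
  classical
  unfold cnt
  refine le_trans (Finset.card_le_card ?_) (Finset.card_union_le _ _)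
  intro φ hφ
  simp only [Finset.mem_filter, Finset.mem_univ, true_and, Finset.mem_union, Set.mem_union] at hφ ⊢
  tauto

theorem bnd_union {Q Q' : Set (V → Fin n)} {U : Finset V} {x x' : ℝ} (h : Bnd Q U x)
    (h' : Bnd Q' U x') : Bnd (Q ∪ Q') U (x + x') := by
  intro W α hW
  have h1 := h W α hW
  have h2 := h' W α hW
  have h3 : (cnt (Q ∪ Q') W α : ℝ) ≤ (cnt Q W α : ℝ) + (cnt Q' W α : ℝ) := by
    exact_mod_cast cnt_union Q Q' W α
  calc (cnt (Q ∪ Q') W α : ℝ) * (n : ℝ) ^ W.card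
      ≤ ((cnt Q W α : ℝ) + (cnt Q' W α : ℝ)) * (n : ℝ) ^ W.card := by gcongr
    _ = (cnt Q W α : ℝ) * (n : ℝ) ^ W.card + (cnt Q' W α : ℝ) * (n : ℝ) ^ W.card := by ring
    _ ≤ x + x' := add_le_add h1 h2

theorem cnt_exists {J : Type} [Fintype J] (Q : J → Set (V → Fin n)) (W : Finset V)
    (α : V → Fin n) : cnt {φ | ∃ j, φ ∈ Q j} W α ≤ ∑ j, cnt (Q j) W α := by
  classical
  unfold cnt
  refine le_trans (Finset.card_le_card ?_) (Finset.card_biUnion_le (s := univ)
    (t := fun j => (univ : Finset (V → Fin n)).filter (fun φ => φ ∈ Q j ∧ ∀ v ∈ W, φ v = α v)))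
  intro φ hφ
  simp only [Finset.mem_filter, Finset.mem_univ, true_and, Finset.mem_biUnion] at hφ ⊢
  obtain ⟨⟨j, hj⟩, h⟩ := hφ
  exact ⟨j, hj, h⟩

theorem bnd_exists {J : Type} [Fintype J] {Q : J → Set (V → Fin n)} {U : Finset V} {x : ℝ}
    (h : ∀ j, Bnd (Q j) U x) : Bnd {φ | ∃ j, φ ∈ Q j} U (Fintype.card J * x) := by
  intro W α hW
  have h3 : (cnt {φ | ∃ j, φ ∈ Q j} W α : ℝ) ≤ ∑ j, (cnt (Q j) W α : ℝ) := by
    exact_mod_cast cnt_exists Q W α
  calc (cnt {φ | ∃ j, φ ∈ Q j} W α : ℝ) * (n : ℝ) ^ W.card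
      ≤ (∑ j, (cnt (Q j) W α : ℝ)) * (n : ℝ) ^ W.card := by gcongr
    _ = ∑ j, (cnt (Q j) W α : ℝ) * (n : ℝ) ^ W.card := by rw [Finset.sum_mul]
    _ ≤ ∑ _j : J, x := Finset.sum_le_sum (fun j _ => h j W α hW)
    _ = Fintype.card J * x := by simp

theorem cnt_univ_mul (W : Finset V) (α : V → Fin n) :
    cnt (Set.univ : Set (V → Fin n)) W α * n ^ W.card = n ^ (Fintype.card V) := by
  classical
  have h1 : cnt (Set.univ : Set (V → Fin n)) W α =
      (Fintype.piFinset (fun v => if v ∈ W then {α v} else (univ : Finset (Fin n)))).card := by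
    unfold cnt
    congr 1
    ext φ
    simp only [Finset.mem_filter, Finset.mem_univ, true_and, Set.mem_univ, Fintype.mem_piFinset]
    constructor
    · intro h v
      split_ifs with hv
      · rw [Finset.mem_singleton]; exact h v hv
      · exact Finset.mem_univ _
    · intro h v hv
      have := h v
      rw [if_pos hv, Finset.mem_singleton] at this
      exact this
  have h2 : cnt (Set.univ : Set (V → Fin n)) W α = n ^ (Wᶜ).card := by
    rw [h1, Fintype.card_piFinset]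
    have : ∀ v : V, (if v ∈ W then ({α v} : Finset (Fin n)) else univ).card =
        if v ∈ W then 1 else n := by
      intro v
      split_ifs <;> simp
    rw [Finset.prod_congr rfl (fun v _ => this v), Finset.prod_ite]
    simp only [Finset.prod_const_one, one_mul, Finset.prod_const]
    congr 2
    ext v
    simp
  rw [h2, ← pow_add, Finset.card_compl_add_card]

theorem bnd_trivial (Q : Set (V → Fin n)) (U : Finset V) :
    Bnd Q U ((n : ℝ) ^ (Fintype.card V)) := by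
  intro W α _
  have h1 := cnt_mono (Set.subset_univ Q) W α
  have h2 := cnt_univ_mul W α
  have h3 : cnt Q W α * n ^ W.card ≤ n ^ (Fintype.card V) := by
    rw [← h2]; exact Nat.mul_le_mul_right _ h1
  exact_mod_cast h3

/-- Guessing one of `M` prescriptions of at least `k` values. -/
theorem bnd_bad {J : Type} [Fintype J] {Q : Set (V → Fin n)} {U U' : Finset V} {x : ℝ}
    (hn : 1 ≤ n) (k : ℕ) (hx : 0 ≤ x) (h : Bnd Q U x) (hUU : Disjoint U' U)
    (S : J → Finset V) (hS : ∀ j, S j ⊆ U') (β : J → V → Fin n) :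
    Bnd {φ | φ ∈ Q ∧ ∃ j, k ≤ (S j).card ∧ ∀ v ∈ S j, φ v = β j v} (U ∪ U')
      (Fintype.card J * (x / (n : ℝ) ^ k)) := by
  classical
  have hn0 : (0 : ℝ) < n := by exact_mod_cast hn
  have hn1 : (1 : ℝ) ≤ n := by exact_mod_cast hn
  have hset : {φ | φ ∈ Q ∧ ∃ j, k ≤ (S j).card ∧ ∀ v ∈ S j, φ v = β j v} =
      {φ | ∃ j, φ ∈ {φ | φ ∈ Q ∧ k ≤ (S j).card ∧ ∀ v ∈ S j, φ v = β j v}} := by
    ext φ
    constructor
    · rintro ⟨h1, j, h2, h3⟩
      exact ⟨j, h1, h2, h3⟩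
    · rintro ⟨j, h1, h2, h3⟩
      exact ⟨h1, j, h2, h3⟩
  rw [hset]
  apply bnd_exists
  intro j W α hW
  by_cases hk : k ≤ (S j).card
  swap
  · have : cnt {φ | φ ∈ Q ∧ k ≤ (S j).card ∧ ∀ v ∈ S j, φ v = β j v} W α = 0 := by
      apply cnt_eq_zero
      rintro φ ⟨_, h2, _⟩
      exact hk h2
    rw [this]
    simp only [Nat.cast_zero, zero_mul]
    positivity
  rw [Finset.disjoint_union_right] at hW
  have hWS : Disjoint W (S j) := Finset.disjoint_of_subset_right (hS j) hW.2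
  have hd : Disjoint (W ∪ S j) U := by
    rw [Finset.disjoint_union_left]
    exact ⟨hW.1, Finset.disjoint_of_subset_left (hS j) hUU⟩
  have h1 := h (W ∪ S j) (fun v => if v ∈ W then α v else β j v) hd
  have h2 : cnt {φ | φ ∈ Q ∧ k ≤ (S j).card ∧ ∀ v ∈ S j, φ v = β j v} W α ≤
      cnt Q (W ∪ S j) (fun v => if v ∈ W then α v else β j v) := by
    apply cnt_le_cnt
    rintro φ ⟨h3, _, h4⟩ h5
    refine ⟨h3, ?_⟩
    intro v hv
    by_cases hvW : v ∈ W
    · rw [if_pos hvW]; exact h5 v hvW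
    · rw [if_neg hvW]
      rcases Finset.mem_union.mp hv with hv | hv
      · exact absurd hv hvW
      · exact h4 v hv
  rw [Finset.card_union_of_disjoint hWS, pow_add] at h1
  rw [le_div_iff₀ (by positivity)]
  calc (cnt {φ | φ ∈ Q ∧ k ≤ (S j).card ∧ ∀ v ∈ S j, φ v = β j v} W α : ℝ) * (n : ℝ) ^ W.card *
        (n : ℝ) ^ k
      ≤ (cnt Q (W ∪ S j) (fun v => if v ∈ W then α v else β j v) : ℝ) * (n : ℝ) ^ W.card *
        (n : ℝ) ^ (S j).card := by
        gcongr
    _ = (cnt Q (W ∪ S j) (fun v => if v ∈ W then α v else β j v) : ℝ) *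
        ((n : ℝ) ^ W.card * (n : ℝ) ^ (S j).card) := by ring
    _ ≤ x := h1

end

end Pool.Agent.V8H11.TS
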