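import Mathlib

/-!
Register programs over a commutative semiring and the labelling problem of the `k × L` grid.
-/

namespace Pool.Agent.V8H11.TS

/-- One summand of a register update, over the semiring `K`, with the registers `Reg` and the
input variables `X`: it stands for the product of the constant `coeff`, of the current contents
of the registers listed in `regs` and of the input variables listed in `vars` (the lists may
repeat). -/
structure Term (K X Reg : Type) where
  coeff : K
  regs : List Reg
  vars : List X

/-- A register program over the semiring `K`, with the registers `Reg` and the input variables
`X`: `init` gives the contents of the registers before the first round; in round `t` every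
register `r` is replaced, all registers simultaneously, by the sum of the terms `rule t r`. -/
structure Program (K X Reg : Type) where
  init : Reg → K
  rule : ℕ → Reg → List (Term K X Reg)
  out : Reg

variable {K X Reg : Type}

/-- The value of a term on the input `x` when the registers contain `v`. -/
def Term.eval [CommSemiring K] (τ : Term K X Reg) (x : X → K) (v : Reg → K) : K :=
  τ.coeff * (τ.regs.map v).prod * (τ.vars.map x).prod

/-- The contents of the registers after `t` rounds on the input `x`. -/
def Program.value [CommSemiring K] (P : Program K X Reg) (x : X → K) : ℕ → Reg → K
  | 0 => P.init
  | t + 1 => fun r => ((P.rule t r).map (fun τ => τ.eval x (P.value x t))).sum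

/-- The output on the input `x` after `T` rounds. -/
def Program.result [CommSemiring K] (P : Program K X Reg) (T : ℕ) (x : X → K) : K :=
  P.value x T P.out

/-- Every product formed by the program has at most `B` factors besides its constant. -/
def Program.FanIn (P : Program K X Reg) (B : ℕ) : Prop :=
  ∀ t r, ∀ τ ∈ P.rule t r, τ.regs.length + τ.vars.length ≤ B

/-- The edges of the grid with `k` rows and `L` columns; a cell is a pair (row, column), and an
edge joins a cell to the next cell of its row or to the next cell of its column. -/
def GridEdge (k L : ℕ) : Type :=
  {e : (Fin k × Fin L) × (Fin k × Fin L) //
    (e.1.1 = e.2.1 ∧ e.1.2.val + 1 = e.2.2.val) ∨ (e.1.1.val + 1 = e.2.1.val ∧ e.1.2 = e.2.2)}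

instance (k L : ℕ) : DecidableEq (GridEdge k L) := by
  unfold GridEdge; infer_instance

instance (k L : ℕ) : Fintype (GridEdge k L) := by
  unfold GridEdge; infer_instance

/-- The input variables: the weight of the labels `a`, `b` at the two ends of the edge `e`. -/
abbrev Var (k L n : ℕ) : Type := GridEdge k L × Fin n × Fin n

/-- The sum, over all labellings of the cells of the `k × L` grid by `n` labels, of the product
of the weights of all edges. -/
def labelSum [CommSemiring K] (k L n : ℕ) (x : Var k L n → K) : K :=
  ∑ φ : Fin k × Fin L → Fin n, ∏ e : GridEdge k L, x (e, φ e.val.1, φ e.val.2)

end Pool.Agent.V8H11.TS
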