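import Pool.Agent.V8H11.TS.Defs

/-!
Programs given by finite lists of rounds.
-/

namespace Pool.Agent.V8H11.TS

variable {K X Reg : Type} [CommSemiring K]

/-- One round of updates. -/
abbrev Round (K X Reg : Type) := Reg → List (Term K X Reg)

/-- The effect of one round. -/
def app (x : X → K) (v : Reg → K) (ρ : Round K X Reg) : Reg → K :=
  fun r => ((ρ r).map (fun τ => τ.eval x v)).sum

/-- The effect of a list of rounds. -/
def exec (l : List (Round K X Reg)) (x : X → K) (v : Reg → K) : Reg → K :=
  l.foldl (app x) v

theorem exec_append (l l' : List (Round K X Reg)) (x : X → K) (v : Reg → K) :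
    exec (l ++ l') x v = exec l' x (exec l x v) := by
  simp [exec, List.foldl_append]

theorem exec_cons (ρ : Round K X Reg) (l : List (Round K X Reg)) (x : X → K) (v : Reg → K) :
    exec (ρ :: l) x v = exec l x (app x v ρ) := by
  simp [exec]

theorem exec_nil (x : X → K) (v : Reg → K) : exec ([] : List (Round K X Reg)) x v = v := rfl

/-- Copy of a register. -/
def cp (r : Reg) : Term K X Reg := ⟨1, [r], []⟩

theorem eval_cp (r : Reg) (x : X → K) (v : Reg → K) :
    (cp r : Term K X Reg).eval x v = v r := by
  simp [cp, Term.eval]

/-- The program that executes a list of rounds. -/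
def ofList (l : List (Round K X Reg)) (out : Reg) : Program K X Reg where
  init := fun _ => 0
  rule := fun t => l.getD t (fun r => [cp r])
  out := out

theorem value_ofList (l : List (Round K X Reg)) (out : Reg) (x : X → K) :
    (ofList l out).value x l.length = exec l x (fun _ => 0) := by
  have key : ∀ t, t ≤ l.length → (ofList l out).value x t = exec (l.take t) x (fun _ => 0) := by
    intro t
    induction t with
    | zero =>
      intro _
      funext r
      simp [Program.value, ofList, exec]
    | succ t ih =>
      intro ht
      have h1 := ih (by omega)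
      have h2 : l.take (t + 1) = l.take t ++ [l[t]] := by
        rw [List.take_add_one]
        simp [List.getElem?_eq_getElem (show t < l.length by omega)]
      rw [h2, exec_append, ← h1]
      funext r
      simp only [Program.value, exec, List.foldl_cons, List.foldl_nil, app]
      have h3 : (ofList l out).rule t = l[t] := by
        simp [ofList, List.getD_eq_getElem?_getD, List.getElem?_eq_getElem (show t < l.length by omega)]
      rw [h3]
  have := key l.length (le_refl _)
  rwa [List.take_length] at this

/-- Bound on the products of a round. -/
def RFanIn (B : ℕ) (ρ : Round K X Reg) : Prop := ∀ r, ∀ τ ∈ ρ r, τ.regs.length + τ.vars.length ≤ B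

theorem fanIn_ofList (l : List (Round K X Reg)) (out : Reg) (B : ℕ) (hB : 1 ≤ B)
    (h : ∀ ρ ∈ l, RFanIn B ρ) : (ofList l out).FanIn B := by
  intro t r τ hτ
  simp only [ofList, List.getD_eq_getElem?_getD] at hτ
  by_cases ht : t < l.length
  · rw [List.getElem?_eq_getElem ht] at hτ
    exact h _ (List.getElem_mem ht) r τ hτ
  · rw [List.getElem?_eq_none (by omega)] at hτ
    simp only [Option.getD_none, List.mem_singleton] at hτ
    rw [hτ]
    simpa [cp] using hB

end Pool.Agent.V8H11.TS
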