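import Mathlib

/-!
Semirings with a real-valued size function that turns products into sums and sums into minima up
to a bounded error: the min-plus semiring and the nonnegative reals.
-/

namespace Pool.Agent.V8H11.TS

/-- A size function on a semiring without zero divisors in which sums of nonzero elements are
nonzero. -/
structure QVal (K : Type) [CommSemiring K] where
  ν : K → ℝ
  c : ℝ
  c_nonneg : 0 ≤ c
  one_ne : (1 : K) ≠ 0
  mul_ne : ∀ a b : K, a ≠ 0 → b ≠ 0 → a * b ≠ 0
  add_ne : ∀ a b : K, a ≠ 0 → a + b ≠ 0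
  ν_mul : ∀ a b : K, a ≠ 0 → b ≠ 0 → ν (a * b) = ν a + ν b
  ν_add : ∀ a b : K, a ≠ 0 → ν (a + b) ≤ ν a
  le_ν_add : ∀ a b : K, a ≠ 0 → b ≠ 0 → min (ν a) (ν b) ≤ ν (a + b) + c

variable {K : Type} [CommSemiring K] (Q : QVal K)

theorem QVal.ν_one : Q.ν 1 = 0 := by
  have := Q.ν_mul 1 1 Q.one_ne Q.one_ne
  rw [mul_one] at this
  linarith

include Q in
theorem QVal.prod_ne {l : List K} (h : ∀ a ∈ l, a ≠ 0) : l.prod ≠ 0 := by
  induction l with
  | nil => simpa using Q.one_ne
  | cons a l ih =>
    rw [List.prod_cons]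
    exact Q.mul_ne _ _ (h a (by simp)) (ih (fun b hb => h b (by simp [hb])))

theorem QVal.ν_prod {l : List K} (h : ∀ a ∈ l, a ≠ 0) : Q.ν l.prod = (l.map Q.ν).sum := by
  induction l with
  | nil => simpa using Q.ν_one
  | cons a l ih =>
    have h1 := ih (fun b hb => h b (by simp [hb]))
    have h2 := Q.prod_ne (l := l) (fun b hb => h b (by simp [hb]))
    rw [List.prod_cons, Q.ν_mul _ _ (h a (by simp)) h2, h1]
    simp

theorem QVal.sum_ne {l : List K} {a : K} (ha : a ∈ l) (h : a ≠ 0) :
    l.sum ≠ 0 ∧ Q.ν l.sum ≤ Q.ν a := by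
  induction l with
  | nil => simp at ha
  | cons b l ih =>
    rw [List.sum_cons]
    rcases List.mem_cons.mp ha with rfl | ha
    · exact ⟨Q.add_ne _ _ h, Q.ν_add _ _ h⟩
    · obtain ⟨h1, h2⟩ := ih ha
      rw [add_comm]
      exact ⟨Q.add_ne _ _ h1, le_trans (Q.ν_add _ _ h1) h2⟩

/-- A nonzero sum is about as large as one of its nonzero summands. -/
theorem QVal.exists_le_sum {ι : Type} (l : List ι) : ∃ C : ℝ, ∀ f : ι → K,
    (l.map f).sum ≠ 0 → ∃ i ∈ l, f i ≠ 0 ∧ Q.ν (f i) ≤ Q.ν (l.map f).sum + C := by
  induction l with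
  | nil => exact ⟨0, fun f h => absurd rfl h⟩
  | cons a l ih =>
    obtain ⟨C, hC⟩ := ih
    refine ⟨|C| + Q.c, ?_⟩
    intro f h
    rw [List.map_cons, List.sum_cons] at h ⊢
    have hc := Q.c_nonneg
    have habs := le_abs_self C
    have habs0 := abs_nonneg C
    by_cases h1 : f a = 0
    · rw [h1, zero_add] at h ⊢
      obtain ⟨i, hi, h2, h3⟩ := hC f h
      exact ⟨i, by simp [hi], h2, by linarith⟩
    · by_cases h2 : (l.map f).sum = 0
      · rw [h2, add_zero]
        exact ⟨a, by simp, h1, by linarith⟩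
      · have h3 := Q.le_ν_add _ _ h1 h2
        rcases min_choice (Q.ν (f a)) (Q.ν (l.map f).sum) with h4 | h4
        · rw [h4] at h3
          exact ⟨a, by simp, h1, by linarith⟩
        · rw [h4] at h3
          obtain ⟨i, hi, h5, h6⟩ := hC f h2
          exact ⟨i, by simp [hi], h5, by linarith⟩

/-- The min-plus semiring. -/
noncomputable def tropQVal : QVal (Tropical (WithTop ℝ)) where
  ν := fun a => (Tropical.untrop a).untopD 0
  c := 0
  c_nonneg := le_refl _
  one_ne := by
    intro h
    have := congrArg Tropical.untrop h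
    simp at this
  mul_ne := by
    intro a b ha hb h
    have h1 := congrArg Tropical.untrop h
    rw [Tropical.untrop_mul, Tropical.untrop_zero, WithTop.add_eq_top] at h1
    rcases h1 with h1 | h1
    · exact ha (Tropical.untrop_injective (by rw [h1, Tropical.untrop_zero]))
    · exact hb (Tropical.untrop_injective (by rw [h1, Tropical.untrop_zero]))
  add_ne := by
    intro a b ha h
    have h1 := congrArg Tropical.untrop h
    rw [Tropical.untrop_add, Tropical.untrop_zero, min_eq_top] at h1
    exact ha (Tropical.untrop_injective (by rw [h1.1, Tropical.untrop_zero]))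
  ν_mul := by
    intro a b ha hb
    have h1 : Tropical.untrop a ≠ ⊤ := fun h =>
      ha (Tropical.untrop_injective (by rw [h, Tropical.untrop_zero]))
    have h2 : Tropical.untrop b ≠ ⊤ := fun h =>
      hb (Tropical.untrop_injective (by rw [h, Tropical.untrop_zero]))
    obtain ⟨x, hx⟩ := WithTop.ne_top_iff_exists.mp h1
    obtain ⟨y, hy⟩ := WithTop.ne_top_iff_exists.mp h2
    rw [Tropical.untrop_mul, ← hx, ← hy, ← WithTop.coe_add]
    simp
  ν_add := by
    intro a b ha
    have h1 : Tropical.untrop a ≠ ⊤ := fun h =>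
      ha (Tropical.untrop_injective (by rw [h, Tropical.untrop_zero]))
    obtain ⟨x, hx⟩ := WithTop.ne_top_iff_exists.mp h1
    rw [Tropical.untrop_add, ← hx]
    by_cases h2 : Tropical.untrop b = ⊤
    · rw [h2]; simp
    · obtain ⟨y, hy⟩ := WithTop.ne_top_iff_exists.mp h2
      rw [← hy, ← WithTop.coe_min, WithTop.untopD_coe, WithTop.untopD_coe]
      exact min_le_left _ _
  le_ν_add := by
    intro a b ha hb
    have h1 : Tropical.untrop a ≠ ⊤ := fun h =>
      ha (Tropical.untrop_injective (by rw [h, Tropical.untrop_zero]))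
    have h2 : Tropical.untrop b ≠ ⊤ := fun h =>
      hb (Tropical.untrop_injective (by rw [h, Tropical.untrop_zero]))
    obtain ⟨x, hx⟩ := WithTop.ne_top_iff_exists.mp h1
    obtain ⟨y, hy⟩ := WithTop.ne_top_iff_exists.mp h2
    rw [Tropical.untrop_add, ← hx, ← hy, ← WithTop.coe_min, WithTop.untopD_coe,
      WithTop.untopD_coe, WithTop.untopD_coe, add_zero]

open OrderDual in
/-- The max-plus semiring. -/
noncomputable def arcticQVal : QVal (Tropical (WithTop ℝᵒᵈ)) where
  ν := fun a => - ofDual ((Tropical.untrop a).untopD (toDual 0))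
  c := 0
  c_nonneg := le_refl _
  one_ne := by
    intro h
    have := congrArg Tropical.untrop h
    simp at this
  mul_ne := by
    intro a b ha hb h
    have h1 := congrArg Tropical.untrop h
    rw [Tropical.untrop_mul, Tropical.untrop_zero, WithTop.add_eq_top] at h1
    rcases h1 with h1 | h1
    · exact ha (Tropical.untrop_injective (by rw [h1, Tropical.untrop_zero]))
    · exact hb (Tropical.untrop_injective (by rw [h1, Tropical.untrop_zero]))
  add_ne := by
    intro a b ha h
    have h1 := congrArg Tropical.untrop h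
    rw [Tropical.untrop_add, Tropical.untrop_zero, min_eq_top] at h1
    exact ha (Tropical.untrop_injective (by rw [h1.1, Tropical.untrop_zero]))
  ν_mul := by
    intro a b ha hb
    have h1 : Tropical.untrop a ≠ ⊤ := fun h =>
      ha (Tropical.untrop_injective (by rw [h, Tropical.untrop_zero]))
    have h2 : Tropical.untrop b ≠ ⊤ := fun h =>
      hb (Tropical.untrop_injective (by rw [h, Tropical.untrop_zero]))
    obtain ⟨x, hx⟩ := WithTop.ne_top_iff_exists.mp h1
    obtain ⟨y, hy⟩ := WithTop.ne_top_iff_exists.mp h2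
    rw [Tropical.untrop_mul, ← hx, ← hy, ← WithTop.coe_add, WithTop.untopD_coe,
      WithTop.untopD_coe, WithTop.untopD_coe, ofDual_add]
    ring
  ν_add := by
    intro a b ha
    have h1 : Tropical.untrop a ≠ ⊤ := fun h =>
      ha (Tropical.untrop_injective (by rw [h, Tropical.untrop_zero]))
    obtain ⟨x, hx⟩ := WithTop.ne_top_iff_exists.mp h1
    rw [Tropical.untrop_add, ← hx]
    by_cases h2 : Tropical.untrop b = ⊤
    · rw [h2]; simp
    · obtain ⟨y, hy⟩ := WithTop.ne_top_iff_exists.mp h2
      rw [← hy, ← WithTop.coe_min, WithTop.untopD_coe, WithTop.untopD_coe]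
      have h3 : min x y ≤ x := min_le_left _ _
      have h4 : ofDual x ≤ ofDual (min x y) := h3
      linarith
  le_ν_add := by
    intro a b ha hb
    have h1 : Tropical.untrop a ≠ ⊤ := fun h =>
      ha (Tropical.untrop_injective (by rw [h, Tropical.untrop_zero]))
    have h2 : Tropical.untrop b ≠ ⊤ := fun h =>
      hb (Tropical.untrop_injective (by rw [h, Tropical.untrop_zero]))
    obtain ⟨x, hx⟩ := WithTop.ne_top_iff_exists.mp h1
    obtain ⟨y, hy⟩ := WithTop.ne_top_iff_exists.mp h2
    rw [Tropical.untrop_add, ← hx, ← hy, ← WithTop.coe_min, WithTop.untopD_coe,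
      WithTop.untopD_coe, WithTop.untopD_coe, add_zero]
    rcases min_choice x y with h | h
    · rw [h]; exact min_le_left _ _
    · rw [h]; exact min_le_right _ _

open NNReal in
/-- The nonnegative reals. -/
noncomputable def nnrealQVal : QVal ℝ≥0 where
  ν := fun a => - Real.log (a : ℝ)
  c := Real.log 2
  c_nonneg := Real.log_nonneg (by norm_num)
  one_ne := one_ne_zero
  mul_ne := fun a b ha hb => mul_ne_zero ha hb
  add_ne := by
    intro a b ha h
    exact ha (add_eq_zero.mp h).1
  ν_mul := by
    intro a b ha hb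
    have ha' : (a : ℝ) ≠ 0 := by exact_mod_cast ha
    have hb' : (b : ℝ) ≠ 0 := by exact_mod_cast hb
    rw [NNReal.coe_mul, Real.log_mul ha' hb']
    ring
  ν_add := by
    intro a b ha
    have ha' : (0 : ℝ) < (a : ℝ) := by
      have : 0 < a := pos_iff_ne_zero.mpr ha
      exact_mod_cast this
    have : Real.log (a : ℝ) ≤ Real.log ((a + b : ℝ≥0) : ℝ) := by
      apply Real.log_le_log ha'
      have : (0 : ℝ) ≤ b := b.coe_nonneg
      push_cast
      linarith
    linarith
  le_ν_add := by
    intro a b ha hb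
    have ha' : (0 : ℝ) < (a : ℝ) := by
      have : 0 < a := pos_iff_ne_zero.mpr ha
      exact_mod_cast this
    have hb' : (0 : ℝ) < (b : ℝ) := by
      have : 0 < b := pos_iff_ne_zero.mpr hb
      exact_mod_cast this
    have key : ∀ s t : ℝ, 0 < s → 0 < t → t ≤ s →
        - Real.log s ≤ - Real.log (s + t) + Real.log 2 := by
      intro s t hs ht hst
      have h1 : Real.log (s + t) ≤ Real.log (2 * s) := Real.log_le_log (by linarith) (by linarith)
      rw [Real.log_mul (by norm_num) hs.ne'] at h1
      linarith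
    rcases le_total (b : ℝ) (a : ℝ) with h | h
    · refine le_trans (min_le_left _ _) ?_
      rw [NNReal.coe_add]
      exact key _ _ ha' hb' h
    · refine le_trans (min_le_right _ _) ?_
      rw [NNReal.coe_add, add_comm (a : ℝ)]
      exact key _ _ hb' ha' h

end Pool.Agent.V8H11.TS
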