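import Pool.Agent.V8H11.TS.Defs
import Pool.Agent.V8H11.TS.QVal

/-!
Monomials produced by a register program.
-/

namespace Pool.Agent.V8H11.TS

variable {K X Reg : Type} [CommSemiring K]

/-- The value of a monomial. -/
def mval (m : Multiset X) (w : X → ℕ) : ℕ := (m.map w).sum

theorem mval_add (m m' : Multiset X) (w : X → ℕ) : mval (m + m') w = mval m w + mval m' w := by
  simp [mval]

theorem mval_zero (w : X → ℕ) : mval (0 : Multiset X) w = 0 := by simp [mval]

/-- The monomials (as multisets of variables) produced at register `r` after `t` rounds. -/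
def Program.Gen (P : Program K X Reg) : ℕ → Reg → Set (Multiset X)
  | 0, r => {m | P.init r ≠ 0 ∧ m = 0}
  | t + 1, r => {m | ∃ τ ∈ P.rule t r, τ.coeff ≠ 0 ∧ ∃ l : List (Multiset X),
      List.Forall₂ (fun r' m' => m' ∈ P.Gen t r') τ.regs l ∧ m = (τ.vars : Multiset X) + l.sum}

variable (Q : QVal K) (inp : ℕ → K) (σ : ℝ) (hne : ∀ a, inp a ≠ 0)
  (hinp : ∀ a, Q.ν (inp a) = σ * a)

include hne hinp

theorem ν_vars (vars : List X) (w : X → ℕ) :
    (∀ a ∈ vars.map (fun v => inp (w v)), a ≠ 0) ∧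
    Q.ν ((vars.map (fun v => inp (w v))).prod) = σ * mval (vars : Multiset X) w := by
  have h1 : ∀ a ∈ vars.map (fun v => inp (w v)), a ≠ 0 := by
    intro a ha
    obtain ⟨v, _, rfl⟩ := List.mem_map.mp ha
    exact hne _
  refine ⟨h1, ?_⟩
  rw [Q.ν_prod h1]
  induction vars with
  | nil => simp [mval]
  | cons a l ih =>
    have h2 := ih (fun b hb => h1 b (by
      rw [List.map_cons]
      exact List.mem_cons_of_mem _ hb))
    simp only [List.map_cons, List.sum_cons]
    rw [h2, hinp]
    simp only [mval, Multiset.map_coe, Multiset.sum_coe, List.map_cons, List.sum_cons]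
    push_cast
    ring

/-- The size of a term with nonzero coefficient and nonzero registers. -/
theorem ν_eval (τ : Term K X Reg) (w : X → ℕ) (v : Reg → K) (hc : τ.coeff ≠ 0)
    (hr : ∀ r ∈ τ.regs, v r ≠ 0) : τ.eval (fun u => inp (w u)) v ≠ 0 ∧
      Q.ν (τ.eval (fun u => inp (w u)) v) = Q.ν τ.coeff + (τ.regs.map (fun r => Q.ν (v r))).sum +
        σ * mval (τ.vars : Multiset X) w := by
  have h1 : ∀ a ∈ τ.regs.map v, a ≠ 0 := by
    intro a ha
    obtain ⟨r, hr', rfl⟩ := List.mem_map.mp ha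
    exact hr r hr'
  obtain ⟨h2, h3⟩ := ν_vars Q inp σ hne hinp τ.vars w
  have h4 := Q.prod_ne h1
  have h5 := Q.prod_ne h2
  have h6 := Q.mul_ne _ _ hc h4
  refine ⟨Q.mul_ne _ _ h6 h5, ?_⟩
  unfold Term.eval
  rw [Q.ν_mul _ _ h6 h5, Q.ν_mul _ _ hc h4, h3, Q.ν_prod h1, List.map_map]
  rfl

/-- Every produced monomial bounds the size of the value, up to a constant. -/
theorem value_le_of_gen (P : Program K X Reg) : ∀ (t : ℕ) (r : Reg) (m : Multiset X),
    m ∈ P.Gen t r → ∃ C : ℝ, ∀ w : X → ℕ, P.value (fun u => inp (w u)) t r ≠ 0 ∧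
      Q.ν (P.value (fun u => inp (w u)) t r) ≤ C + σ * mval m w := by
  intro t
  induction t with
  | zero =>
    intro r m hm
    obtain ⟨h1, rfl⟩ := hm
    refine ⟨Q.ν (P.init r), fun w => ⟨h1, ?_⟩⟩
    simp [Program.value, mval_zero]
  | succ t ih =>
    intro r m hm
    obtain ⟨τ, hτ, hc, l, hl, rfl⟩ := hm
    have key : ∀ (regs : List Reg) (l : List (Multiset X)),
        List.Forall₂ (fun r' m' => m' ∈ P.Gen t r') regs l →
        ∃ C : ℝ, ∀ w : X → ℕ, (∀ r' ∈ regs, P.value (fun u => inp (w u)) t r' ≠ 0) ∧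
          (regs.map (fun r' => Q.ν (P.value (fun u => inp (w u)) t r'))).sum ≤
            C + σ * mval l.sum w := by
      intro regs l h
      induction h with
      | nil => exact ⟨0, fun w => by simp [mval_zero]⟩
      | @cons a b l₁ l₂ hab _ ih2 =>
        obtain ⟨C1, h1⟩ := ih a b hab
        obtain ⟨C2, h2⟩ := ih2
        refine ⟨C1 + C2, fun w => ⟨?_, ?_⟩⟩
        · intro r' hr'
          rcases List.mem_cons.mp hr' with rfl | hr'
          · exact (h1 w).1
          · exact (h2 w).1 r' hr'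
        · rw [List.map_cons, List.sum_cons, List.sum_cons, mval_add]
          have e1 := (h1 w).2
          have e2 := (h2 w).2
          push_cast
          linarith
    obtain ⟨C, hC⟩ := key τ.regs l hl
    refine ⟨Q.ν τ.coeff + C, fun w => ?_⟩
    obtain ⟨h1, h2⟩ := hC w
    obtain ⟨h3, h4⟩ := ν_eval Q inp σ hne hinp τ w (P.value (fun u => inp (w u)) t) hc h1
    have hmem : τ.eval (fun u => inp (w u)) (P.value (fun u => inp (w u)) t) ∈
        (P.rule t r).map (fun τ => τ.eval (fun u => inp (w u)) (P.value (fun u => inp (w u)) t)) :=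
      List.mem_map.mpr ⟨τ, hτ, rfl⟩
    obtain ⟨h5, h6⟩ := Q.sum_ne hmem h3
    refine ⟨h5, ?_⟩
    have h7 : P.value (fun u => inp (w u)) (t + 1) r = ((P.rule t r).map
      (fun τ => τ.eval (fun u => inp (w u)) (P.value (fun u => inp (w u)) t))).sum := rfl
    rw [h7, mval_add]
    rw [h4] at h6
    push_cast
    linarith

/-- Every nonzero value is bounded by a produced monomial, up to a constant. -/
theorem gen_of_value_ne (P : Program K X Reg) : ∀ (t : ℕ) (r : Reg),
    ∃ C : ℝ, ∀ w : X → ℕ, P.value (fun u => inp (w u)) t r ≠ 0 →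
      ∃ m ∈ P.Gen t r, σ * mval m w ≤ Q.ν (P.value (fun u => inp (w u)) t r) + C := by
  intro t
  induction t with
  | zero =>
    intro r
    refine ⟨|Q.ν (P.init r)|, fun w h => ⟨0, ⟨h, rfl⟩, ?_⟩⟩
    rw [mval_zero]
    have := neg_abs_le (Q.ν (P.init r))
    simp only [Program.value, Nat.cast_zero, mul_zero]
    linarith
  | succ t ih =>
    intro r
    -- lists of registers
    have key : ∀ (regs : List Reg), ∃ C : ℝ, ∀ w : X → ℕ,
        (∀ r' ∈ regs, P.value (fun u => inp (w u)) t r' ≠ 0) →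
        ∃ l : List (Multiset X), List.Forall₂ (fun r' m' => m' ∈ P.Gen t r') regs l ∧
          σ * mval l.sum w ≤
            (regs.map (fun r' => Q.ν (P.value (fun u => inp (w u)) t r'))).sum + C := by
      intro regs
      induction regs with
      | nil => exact ⟨0, fun w _ => ⟨[], List.Forall₂.nil, by simp [mval_zero]⟩⟩
      | cons a regs ih2 =>
        obtain ⟨C1, h1⟩ := ih a
        obtain ⟨C2, h2⟩ := ih2
        refine ⟨C1 + C2, fun w hw => ?_⟩
        obtain ⟨m, hm, hm2⟩ := h1 w (hw a (by simp))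
        obtain ⟨l, hl, hl2⟩ := h2 w (fun r' hr' => hw r' (by simp [hr']))
        refine ⟨m :: l, List.Forall₂.cons hm hl, ?_⟩
        rw [List.sum_cons, mval_add, List.map_cons, List.sum_cons]
        push_cast
        linarith
    -- one term
    have hterm : ∀ τ : Term K X Reg, ∃ C : ℝ, τ ∈ P.rule t r → ∀ w : X → ℕ,
        τ.eval (fun u => inp (w u)) (P.value (fun u => inp (w u)) t) ≠ 0 →
        ∃ m ∈ P.Gen (t + 1) r, σ * mval m w ≤
          Q.ν (τ.eval (fun u => inp (w u)) (P.value (fun u => inp (w u)) t)) + C := by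
      intro τ
      obtain ⟨C, hC⟩ := key τ.regs
      refine ⟨|Q.ν τ.coeff| + C, fun hτ w h => ?_⟩
      have hc : τ.coeff ≠ 0 := by
        intro h'
        apply h
        simp [Term.eval, h']
      have hr : ∀ r' ∈ τ.regs, P.value (fun u => inp (w u)) t r' ≠ 0 := by
        intro r' hr' h'
        apply h
        have : (τ.regs.map (P.value (fun u => inp (w u)) t)).prod = 0 :=
          List.prod_eq_zero (List.mem_map.mpr ⟨r', hr', h'⟩)
        simp [Term.eval, this]
      obtain ⟨l, hl, hl2⟩ := hC w hr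
      obtain ⟨_, h4⟩ := ν_eval Q inp σ hne hinp τ w (P.value (fun u => inp (w u)) t) hc hr
      refine ⟨(τ.vars : Multiset X) + l.sum, ⟨τ, hτ, hc, l, hl, rfl⟩, ?_⟩
      rw [mval_add, h4]
      have := neg_abs_le (Q.ν τ.coeff)
      push_cast
      linarith
    choose Ct hCt using hterm
    obtain ⟨C1, hC1⟩ := Q.exists_le_sum (P.rule t r)
    refine ⟨C1 + ((P.rule t r).map (fun τ => |Ct τ|)).sum, fun w h => ?_⟩
    obtain ⟨τ, hτ, h1, h2⟩ := hC1 (fun τ => τ.eval (fun u => inp (w u))
      (P.value (fun u => inp (w u)) t)) h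
    obtain ⟨m, hm, h3⟩ := hCt τ hτ w h1
    refine ⟨m, hm, ?_⟩
    have h4 : |Ct τ| ≤ ((P.rule t r).map (fun τ => |Ct τ|)).sum := by
      apply List.single_le_sum
      · intro x hx
        obtain ⟨y, _, rfl⟩ := List.mem_map.mp hx
        exact abs_nonneg _
      · exact List.mem_map.mpr ⟨τ, hτ, rfl⟩
    have h5 := le_abs_self (Ct τ)
    have h7 : P.value (fun u => inp (w u)) (t + 1) r = ((P.rule t r).map
      (fun τ => τ.eval (fun u => inp (w u)) (P.value (fun u => inp (w u)) t))).sum := rfl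
    rw [h7]
    linarith

end Pool.Agent.V8H11.TS
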