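import Pool.Agent.V8H11.TS.Gen

/-!
Programs computing the sum over all labellings: the monomials of the output register and the
pieces of labellings stored in the registers.
-/

namespace Pool.Agent.V8H11.TS

open Finset

section

variable {ι V : Type} {n : ℕ} (src dst : ι → V)

/-- The total cost of a labelling. -/
def cost [Fintype ι] (w : ι × Fin n × Fin n → ℕ) (φ : V → Fin n) : ℕ :=
  ∑ e : ι, w (e, φ (src e), φ (dst e))

/-- The variable of the edge `e` selected by the labelling. -/
def sel (φ : V → Fin n) (e : ι) : ι × Fin n × Fin n := (e, φ (src e), φ (dst e))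

/-- The monomial of a labelling restricted to a set of edges. -/
def mono (φ : V → Fin n) (E : Finset ι) : Multiset (ι × Fin n × Fin n) := E.val.map (sel src dst φ)

theorem mono_map_fst (φ : V → Fin n) (E : Finset ι) :
    (mono src dst φ E).map Prod.fst = E.val := by
  have : (Prod.fst ∘ sel src dst φ : ι → ι) = id := rfl
  rw [mono, Multiset.map_map, this, Multiset.map_id]

theorem mono_nodup (φ : V → Fin n) (E : Finset ι) : (mono src dst φ E).Nodup := by
  apply Multiset.Nodup.of_map Prod.fst
  rw [mono_map_fst]
  exact E.nodup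

theorem mem_mono (φ : V → Fin n) (E : Finset ι) (v : ι × Fin n × Fin n) :
    v ∈ mono src dst φ E ↔ v.1 ∈ E ∧ v = sel src dst φ v.1 := by
  simp only [mono, Multiset.mem_map, Finset.mem_val]
  constructor
  · rintro ⟨e, he, rfl⟩
    exact ⟨he, rfl⟩
  · rintro ⟨h1, h2⟩
    exact ⟨v.1, h1, h2.symm⟩

theorem card_mono (φ : V → Fin n) (E : Finset ι) : (mono src dst φ E).card = E.card := by
  simp [mono]

/-- A part of the monomial of a labelling is the monomial of the same labelling on the set of its
blocks. -/
theorem eq_mono_of_le (φ : V → Fin n) (E : Finset ι) (m : Multiset (ι × Fin n × Fin n))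
    (h : m ≤ mono src dst φ E) : ∃ E' : Finset ι, E' ⊆ E ∧ E'.val = m.map Prod.fst ∧
      m = mono src dst φ E' := by
  have h1 : m.map Prod.fst ≤ E.val := by
    have := Multiset.map_le_map (f := Prod.fst) h
    rwa [mono_map_fst] at this
  have h2 : (m.map Prod.fst).Nodup := Multiset.nodup_of_le h1 E.nodup
  refine ⟨⟨m.map Prod.fst, h2⟩, ?_, rfl, ?_⟩
  · intro e he
    exact Multiset.mem_of_le h1 he
  · have : (mono src dst φ ⟨m.map Prod.fst, h2⟩) = m.map (fun v => sel src dst φ v.1) := by
      simp [mono, Multiset.map_map]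
    rw [this]
    conv_lhs => rw [← Multiset.map_id m]
    apply Multiset.map_congr rfl
    intro v hv
    have := (mem_mono src dst φ E v).mp (Multiset.mem_of_le h hv)
    exact this.2

theorem eq_mono_univ [Fintype ι] (φ : V → Fin n) (m : Multiset (ι × Fin n × Fin n))
    (hsub : ∀ v ∈ m, v ∈ mono src dst φ univ)
    (hb : m.map Prod.fst = (univ : Finset ι).val) : m = mono src dst φ univ := by
  have e1 : mono src dst φ univ = m.map (fun v => sel src dst φ v.1) := by
    simp only [mono, ← hb, Multiset.map_map]
    rfl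
  rw [e1]
  conv_lhs => rw [← Multiset.map_id m]
  apply Multiset.map_congr rfl
  intro v hv
  exact ((mem_mono src dst φ univ v).mp (hsub v hv)).2

/-- What is used about the set of monomials of the output register. -/
structure Spec [Fintype ι] (G : Set (Multiset (ι × Fin n × Fin n))) : Prop where
  mono_mem : ∀ φ : V → Fin n, mono src dst φ univ ∈ G
  exact_mem : (∀ m ∈ G, m.card ≤ Fintype.card ι → ∃ φ : V → Fin n, m = mono src dst φ univ) ∨
    ((∀ m ∈ G, m.card ≤ Fintype.card ι) ∧
      ∀ m ∈ G, m.card = Fintype.card ι → ∃ φ : V → Fin n, m = mono src dst φ univ)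

variable [Fintype ι] [DecidableEq ι] (G : Set (Multiset (ι × Fin n × Fin n)))

theorem mono_univ_of_sel (φ : V → Fin n) (m : Multiset (ι × Fin n × Fin n))
    (hmem : ∀ e : ι, sel src dst φ e ∈ m) (hc : m.card ≤ Fintype.card ι) :
    m = mono src dst φ univ := by
  symm
  apply Multiset.eq_of_le_of_card_le
  · rw [Multiset.le_iff_subset (mono_nodup src dst φ univ)]
    intro v hv
    rw [mem_mono] at hv
    rw [hv.2]
    exact hmem _
  · rw [card_mono]
    simpa using hc

theorem cost_block (e : ι) (φ : V → Fin n) :
    cost src dst (fun v : ι × Fin n × Fin n => if v.1 = e then 1 else 0) φ = 1 := by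
  simp [cost]

theorem mval_indicator (p : ι × Fin n × Fin n → Prop) [DecidablePred p]
    (m : Multiset (ι × Fin n × Fin n)) :
    mval m (fun v => if p v then 1 else 0) = m.countP p := by
  induction m using Multiset.induction_on with
  | empty => simp [mval]
  | cons a m ih =>
    simp only [mval, Multiset.map_cons, Multiset.sum_cons] at ih ⊢
    rw [ih, Multiset.countP_cons]
    split_ifs <;> omega

/-- Minimization. -/
theorem spec_min
    (F1 : ∀ m ∈ G, ∀ w, ∃ φ : V → Fin n, cost src dst w φ ≤ mval m w)
    (F2 : ∀ (φ : V → Fin n) w, ∃ m ∈ G, mval m w ≤ cost src dst w φ) : Spec src dst G := by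
  classical
  have blocks : ∀ m ∈ G, m.card ≤ Fintype.card ι → m.map Prod.fst = (univ : Finset ι).val := by
    intro m hm hc
    have hle : (univ : Finset ι).val ≤ m.map Prod.fst := by
      rw [Multiset.le_iff_subset (univ : Finset ι).nodup]
      intro e _
      obtain ⟨φ, hφ⟩ := F1 m hm (fun v => if v.1 = e then 1 else 0)
      rw [cost_block, mval_indicator] at hφ
      have hpos : 0 < m.countP (fun v => v.1 = e) := hφ
      rw [Multiset.countP_pos] at hpos
      obtain ⟨v, hv, rfl⟩ := hpos
      exact Multiset.mem_map_of_mem Prod.fst hv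
    symm
    apply Multiset.eq_of_le_of_card_le hle
    rw [Multiset.card_map]
    simpa using hc
  constructor
  · intro φ
    obtain ⟨m, hm, hle⟩ := F2 φ
      (fun v => if v ∈ mono src dst φ univ then 1 else Fintype.card ι + 1)
    have h1 : cost src dst (fun v => if v ∈ mono src dst φ univ then 1 else Fintype.card ι + 1) φ
        = Fintype.card ι := by
      simp only [cost]
      rw [Finset.sum_congr rfl (g := fun _ => 1)]
      · simp
      · intro e _
        rw [if_pos]
        rw [mem_mono]
        exact ⟨Finset.mem_univ _, rfl⟩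
    rw [h1] at hle
    have hsub : ∀ v ∈ m, v ∈ mono src dst φ univ := by
      intro v hv
      by_contra hcon
      have : Fintype.card ι + 1 ≤
          mval m (fun v => if v ∈ mono src dst φ univ then 1 else Fintype.card ι + 1) := by
        simp only [mval]
        have := Multiset.single_le_sum (s := m.map
          (fun v => if v ∈ mono src dst φ univ then 1 else Fintype.card ι + 1))
          (fun _ _ => Nat.zero_le _) _ (Multiset.mem_map_of_mem _ hv)
        rwa [if_neg hcon] at this
      omega
    have hcard : mval m (fun v => if v ∈ mono src dst φ univ then 1 else Fintype.card ι + 1)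
        = m.card := by
      simp only [mval]
      rw [Multiset.map_congr rfl (g := fun _ => 1)]
      · simp
      · intro v hv
        rw [if_pos (hsub v hv)]
    rw [hcard] at hle
    rw [← eq_mono_univ src dst φ m hsub (blocks m hm hle)]
    exact hm
  · left
    intro m hm hc
    obtain ⟨φ, hφ⟩ := F1 m hm (fun v => if v ∉ m then 1 else 0)
    refine ⟨φ, mono_univ_of_sel src dst φ m ?_ hc⟩
    have h0 : mval m (fun v => if v ∉ m then 1 else 0) = 0 := by
      rw [mval_indicator, Multiset.countP_eq_zero]
      intro v hv h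
      exact h hv
    rw [h0] at hφ
    intro e
    have : cost src dst (fun v => if v ∉ m then 1 else 0) φ = 0 := by omega
    simp only [cost] at this
    rw [Finset.sum_eq_zero_iff] at this
    have h := this e (Finset.mem_univ e)
    by_contra hcon
    have hcon' : (e, φ (src e), φ (dst e)) ∉ m := hcon
    rw [if_pos hcon'] at h
    omega

/-- Maximization. -/
theorem spec_max
    (F1 : ∀ m ∈ G, ∀ w, ∃ φ : V → Fin n, mval m w ≤ cost src dst w φ)
    (F2 : ∀ (φ : V → Fin n) w, ∃ m ∈ G, cost src dst w φ ≤ mval m w) : Spec src dst G := by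
  classical
  have hcards : ∀ m ∈ G, m.card ≤ Fintype.card ι := by
    intro m hm
    obtain ⟨φ, hφ⟩ := F1 m hm (fun _ => 1)
    simpa [cost, mval] using hφ
  have blocks : ∀ m ∈ G, m.card = Fintype.card ι → m.map Prod.fst = (univ : Finset ι).val := by
    intro m hm hc
    have hnd : (m.map Prod.fst).Nodup := by
      rw [Multiset.nodup_iff_count_le_one]
      intro e
      obtain ⟨φ, hφ⟩ := F1 m hm (fun v => if v.1 = e then 1 else 0)
      rw [cost_block, mval_indicator] at hφ
      rw [Multiset.count_map, ← Multiset.countP_eq_card_filter]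
      have : m.countP (fun a => e = a.1) = m.countP (fun v => v.1 = e) := by
        apply Multiset.countP_congr rfl
        intro v _
        exact propext eq_comm
      rw [this]
      exact hφ
    apply Multiset.eq_of_le_of_card_le
    · rw [Multiset.le_iff_subset hnd]
      intro e _
      exact Finset.mem_univ e
    · rw [Multiset.card_map, hc]
      simp
  constructor
  · intro φ
    obtain ⟨m, hm, hle⟩ := F2 φ (fun v => if v ∈ mono src dst φ univ then 1 else 0)
    have h1 : cost src dst (fun v => if v ∈ mono src dst φ univ then 1 else 0) φ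
        = Fintype.card ι := by
      simp only [cost]
      rw [Finset.sum_congr rfl (g := fun _ => 1)]
      · simp
      · intro e _
        rw [if_pos]
        rw [mem_mono]
        exact ⟨Finset.mem_univ _, rfl⟩
    rw [h1, mval_indicator (fun v => v ∈ mono src dst φ univ)] at hle
    have hc1 := hcards m hm
    have hc2 := Multiset.countP_le_card (fun v => v ∈ mono src dst φ univ) m
    have hc : m.card = Fintype.card ι := by omega
    have hall : m.countP (fun v => v ∈ mono src dst φ univ) = m.card := by omega
    rw [Multiset.countP_eq_card] at hall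
    rw [← eq_mono_univ src dst φ m hall (blocks m hm hc)]
    exact hm
  · right
    refine ⟨hcards, ?_⟩
    intro m hm hc
    obtain ⟨φ, hφ⟩ := F1 m hm (fun v => if v ∈ m then 1 else 0)
    refine ⟨φ, mono_univ_of_sel src dst φ m ?_ hc.le⟩
    have h0 : mval m (fun v => if v ∈ m then 1 else 0) = Fintype.card ι := by
      rw [mval_indicator (fun v => v ∈ m), ← hc, Multiset.countP_eq_card]
      exact fun v hv => hv
    rw [h0] at hφ
    intro e
    by_contra hcon
    have hcon' : (e, φ (src e), φ (dst e)) ∉ m := hcon
    have : cost src dst (fun v => if v ∈ m then 1 else 0) φ < Fintype.card ι := by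
      have h2 : ∑ e' : ι, (if (e', φ (src e'), φ (dst e')) ∈ m then 1 else 0) <
          ∑ _e' : ι, 1 := by
        apply Finset.sum_lt_sum
        · intro i _
          split_ifs <;> omega
        · exact ⟨e, Finset.mem_univ e, by rw [if_neg hcon']; omega⟩
      simpa [cost] using h2
    omega

end

section

theorem cost_smul {ι V : Type} [Fintype ι] {n : ℕ} (src dst : ι → V) (l : ℕ)
    (w : ι × Fin n × Fin n → ℕ) (φ : V → Fin n) :
    cost src dst (fun v => l * w v) φ = l * cost src dst w φ := by
  simp [cost, Finset.mul_sum]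

theorem mval_smul {X : Type} (l : ℕ) (w : X → ℕ) (m : Multiset X) :
    mval m (fun v => l * w v) = l * mval m w := by
  simp [mval, Multiset.sum_map_mul_left]

/-- Scaling removes bounded errors between integers. -/
theorem scale_aux {σ : ℝ} (hσ : σ ≠ 0) {a b : ℕ} {C : ℝ} {l : ℕ} (hl : C < l * |σ|)
    (h : σ * ((l * a : ℕ) : ℝ) ≤ σ * ((l * b : ℕ) : ℝ) + C) : σ * a ≤ σ * b := by
  by_contra hcon
  push Not at hcon
  have h1 : |σ| ≤ σ * a - σ * b := by
    have h2 : σ * a - σ * b = σ * ((a : ℝ) - b) := by ring
    have h3 : 0 < σ * ((a : ℝ) - b) := by linarith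
    rcases lt_or_gt_of_ne hσ with hneg | hpos
    · have h4 : (a : ℝ) - b < 0 := by
        by_contra h5
        push Not at h5
        nlinarith
      have h6 : a + 1 ≤ b := by
        have : (a : ℝ) < b := by linarith
        exact_mod_cast this
      have h7 : (a : ℝ) + 1 ≤ b := by exact_mod_cast h6
      rw [abs_of_neg hneg, h2]
      nlinarith
    · have h4 : 0 < (a : ℝ) - b := by
        by_contra h5
        push Not at h5
        nlinarith
      have h6 : b + 1 ≤ a := by
        have : (b : ℝ) < a := by linarith
        exact_mod_cast this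
      have h7 : (b : ℝ) + 1 ≤ a := by exact_mod_cast h6
      rw [abs_of_pos hpos, h2]
      nlinarith
  push_cast at h
  have h8 : (l : ℝ) * (σ * a - σ * b) ≤ C := by nlinarith
  have h9 : (l : ℝ) * |σ| ≤ l * (σ * a - σ * b) := by
    apply mul_le_mul_of_nonneg_left h1 (Nat.cast_nonneg _)
  linarith


end

section

variable {ι V K : Type} [Fintype ι] [DecidableEq ι] [Fintype V] [DecidableEq V]
  {Reg : Type} {n : ℕ} [CommSemiring K] (src dst : ι → V)

/-- Sum over all labellings of the product of the weights. -/
def lsum (x : ι × Fin n × Fin n → K) : K :=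
  ∑ φ : V → Fin n, ∏ e : ι, x (e, φ (src e), φ (dst e))

variable (Q : QVal K) (inp : ℕ → K) (σ : ℝ) (hne : ∀ a, inp a ≠ 0)
  (hinp : ∀ a, Q.ν (inp a) = σ * a)

include hne hinp

theorem ν_prod_sel (w : ι × Fin n × Fin n → ℕ) (φ : V → Fin n) :
    (∏ e : ι, inp (w (e, φ (src e), φ (dst e)))) ≠ 0 ∧
    Q.ν (∏ e : ι, inp (w (e, φ (src e), φ (dst e)))) = σ * cost src dst w φ := by
  rw [← Finset.prod_map_toList]
  have h1 : ∀ a ∈ (univ : Finset ι).toList.map (fun e => inp (w (e, φ (src e), φ (dst e)))),
      a ≠ 0 := by
    intro a ha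
    obtain ⟨e, _, rfl⟩ := List.mem_map.mp ha
    exact hne _
  refine ⟨Q.prod_ne h1, ?_⟩
  rw [Q.ν_prod h1, List.map_map]
  have : (Q.ν ∘ fun e => inp (w (e, φ (src e), φ (dst e)))) =
      fun e => σ * (w (e, φ (src e), φ (dst e)) : ℝ) := by
    funext e
    simp [hinp]
  rw [this, Finset.sum_map_toList, cost, ← Finset.mul_sum]
  push_cast
  rfl

theorem ν_lsum_le (w : ι × Fin n × Fin n → ℕ) (φ : V → Fin n) :
    lsum src dst (fun u => inp (w u)) ≠ 0 ∧
    Q.ν (lsum src dst (fun u => inp (w u))) ≤ σ * cost src dst w φ := by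
  obtain ⟨h1, h2⟩ := ν_prod_sel src dst Q inp σ hne hinp w φ
  unfold lsum
  rw [← Finset.sum_map_toList]
  have hmem : (∏ e : ι, inp (w (e, φ (src e), φ (dst e)))) ∈
      (univ : Finset (V → Fin n)).toList.map
        (fun φ => ∏ e : ι, inp (w (e, φ (src e), φ (dst e)))) :=
    List.mem_map.mpr ⟨φ, Finset.mem_toList.mpr (Finset.mem_univ _), rfl⟩
  obtain ⟨h3, h4⟩ := Q.sum_ne hmem h1
  exact ⟨h3, le_trans h4 h2.le⟩

theorem exists_le_ν_lsum (hn : 0 < n) : ∃ C : ℝ, ∀ w : ι × Fin n × Fin n → ℕ,
    ∃ φ : V → Fin n, σ * cost src dst w φ ≤ Q.ν (lsum src dst (fun u => inp (w u))) + C := by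
  obtain ⟨C, hC⟩ := Q.exists_le_sum (univ : Finset (V → Fin n)).toList
  refine ⟨C, fun w => ?_⟩
  have h0 := (ν_lsum_le src dst Q inp σ hne hinp w (fun _ => ⟨0, hn⟩)).1
  unfold lsum at h0 ⊢
  rw [← Finset.sum_map_toList] at h0 ⊢
  obtain ⟨φ, _, h1, h2⟩ := hC _ h0
  refine ⟨φ, ?_⟩
  rw [(ν_prod_sel src dst Q inp σ hne hinp w φ).2] at h2
  exact h2

variable (P : Program K (ι × Fin n × Fin n) Reg) (T : ℕ) (hσ : σ ≠ 0) (hn : 0 < n)
  (hP : ∀ w : ι × Fin n × Fin n → ℕ,
    P.value (fun u => inp (w u)) T P.out = lsum src dst (fun u => inp (w u)))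

include hσ hn hP

theorem fact1 (m : Multiset (ι × Fin n × Fin n)) (hm : m ∈ P.Gen T P.out)
    (w : ι × Fin n × Fin n → ℕ) : ∃ φ : V → Fin n, σ * cost src dst w φ ≤ σ * mval m w := by
  obtain ⟨C, hC⟩ := value_le_of_gen Q inp σ hne hinp P T P.out m hm
  obtain ⟨C', hC'⟩ := exists_le_ν_lsum (V := V) (n := n) src dst Q inp σ hne hinp hn
  obtain ⟨l, hl⟩ := exists_nat_gt ((C + C') / |σ|)
  have hl' : C + C' < l * |σ| := (div_lt_iff₀ (abs_pos.mpr hσ)).mp hl
  obtain ⟨φ, hφ⟩ := hC' (fun v => l * w v)
  have h1 := (hC (fun v => l * w v)).2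
  rw [hP] at h1
  refine ⟨φ, scale_aux hσ (C := C + C') (l := l) hl' ?_⟩
  rw [← cost_smul, ← mval_smul]
  linarith

theorem fact2 (φ : V → Fin n) (w : ι × Fin n × Fin n → ℕ) :
    ∃ m ∈ P.Gen T P.out, σ * mval m w ≤ σ * cost src dst w φ := by
  obtain ⟨C, hC⟩ := gen_of_value_ne Q inp σ hne hinp P T P.out
  obtain ⟨l, hl⟩ := exists_nat_gt (C / |σ|)
  have hl' : C < l * |σ| := (div_lt_iff₀ (abs_pos.mpr hσ)).mp hl
  have h0 := ν_lsum_le src dst Q inp σ hne hinp (fun v => l * w v) φ
  have h1 := hC (fun v => l * w v)
  rw [hP] at h1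
  obtain ⟨m, hm, h2⟩ := h1 h0.1
  refine ⟨m, hm, scale_aux hσ (C := C) (l := l) hl' ?_⟩
  rw [← cost_smul, ← mval_smul]
  linarith [h0.2]

/-- The monomials of the output register of a correct program. -/
theorem spec_of_computes : Spec (V := V) src dst (P.Gen T P.out) := by
  rcases lt_or_gt_of_ne hσ with hneg | hpos
  · apply spec_max
    · intro m hm w
      obtain ⟨φ, hφ⟩ := fact1 src dst Q inp σ hne hinp P T hσ hn hP m hm w
      refine ⟨φ, ?_⟩
      have : (mval m w : ℝ) ≤ cost src dst w φ := by nlinarith
      exact_mod_cast this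
    · intro φ w
      obtain ⟨m, hm, h⟩ := fact2 src dst Q inp σ hne hinp P T hσ hn hP φ w
      refine ⟨m, hm, ?_⟩
      have : (cost src dst w φ : ℝ) ≤ mval m w := by nlinarith
      exact_mod_cast this
  · apply spec_min
    · intro m hm w
      obtain ⟨φ, hφ⟩ := fact1 src dst Q inp σ hne hinp P T hσ hn hP m hm w
      refine ⟨φ, ?_⟩
      have : (cost src dst w φ : ℝ) ≤ mval m w := by nlinarith
      exact_mod_cast this
    · intro φ w
      obtain ⟨m, hm, h⟩ := fact2 src dst Q inp σ hne hinp P T hσ hn hP φ w
      refine ⟨m, hm, ?_⟩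
      have : (mval m w : ℝ) ≤ cost src dst w φ := by nlinarith
      exact_mod_cast this

end

section

variable {ι V K : Type} [Fintype ι] [DecidableEq ι] {Reg : Type} {n : ℕ} [CommSemiring K]
  (src dst : ι → V) (P : Program K (ι × Fin n × Fin n) Reg) (T : ℕ)

/-- The piece `E` of the labelling `φ` is alive in register `r` at time `t`. -/
def Live (φ : V → Fin n) (t : ℕ) (r : Reg) (E : Finset ι) : Prop :=
  mono src dst φ E ∈ P.Gen t r ∧
    ∀ q ∈ P.Gen t r, mono src dst φ (univ \ E) + q ∈ P.Gen T P.out

theorem live_zero (φ : V → Fin n) (r : Reg) (E : Finset ι) (h : Live src dst P T φ 0 r E) :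
    E = ∅ := by
  have h2 := h.1.2
  have := card_mono src dst φ E
  rw [h2] at this
  simpa using this.symm

/-- The vertices at which a set of edges meets its complement. -/
noncomputable def bd [Fintype V] (E : Finset ι) : Finset V :=
  by classical exact Finset.univ.filter (fun v => (∃ e ∈ E, v = src e ∨ v = dst e) ∧
    (∃ e, e ∉ E ∧ (v = src e ∨ v = dst e)))

theorem mem_bd [Fintype V] (E : Finset ι) (v : V) : v ∈ bd src dst E ↔
    (∃ e ∈ E, v = src e ∨ v = dst e) ∧ (∃ e, e ∉ E ∧ (v = src e ∨ v = dst e)) := by
  simp [bd]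

theorem mono_split (φ : V → Fin n) (F : Finset ι) :
    mono src dst φ (univ \ F) + mono src dst φ F = mono src dst φ univ := by
  simp only [mono]
  rw [← Multiset.map_add]
  congr 1
  have hd : Disjoint (univ \ F) F := Finset.sdiff_disjoint
  rw [← Finset.disjUnion_val _ _ hd]
  congr 1
  rw [Finset.disjUnion_eq_union]
  exact Finset.sdiff_union_of_subset (Finset.subset_univ F)

/-- One round back. -/
theorem live_succ (B k : ℕ) (hk : 1 ≤ k) (hB : P.FanIn B) (φ : V → Fin n) (t : ℕ) (r : Reg)
    (E H : Finset ι) (h : Live src dst P T φ (t + 1) r E)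
    (hs : ∀ (r' : Reg) (E' : Finset ι), Live src dst P T φ t r' E' → (E' ∩ H).card < k) :
    (E ∩ H).card ≤ B * k := by
  classical
  obtain ⟨hgen, hlive⟩ := h
  obtain ⟨τ, hτ, hc, l, hl, hm⟩ := hgen
  have hlen := hB t r τ hτ
  -- every part is alive
  have hparts : ∀ (i : ℕ) (hi : i < τ.regs.length) (hi' : i < l.length),
      ((l[i].map Prod.fst).countP (fun e => e ∈ H)) < k := by
    intro i hi hi'
    have hle : l[i] ≤ mono src dst φ E := by
      rw [hm]
      have h1 : l[i] ≤ l.sum := List.single_le_sum (fun _ _ => Multiset.zero_le _) _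
        (List.getElem_mem hi')
      exact le_trans h1 (Multiset.le_add_left _ _)
    obtain ⟨E', hE', hval, heq⟩ := eq_mono_of_le src dst φ E _ hle
    have hli : Live src dst P T φ t (τ.regs[i]) E' := by
      constructor
      · rw [← heq]
        have := (List.forall₂_iff_get.mp hl).2 i hi hi'
        simpa using this
      · intro q hq
        -- replace the i-th part by `q`
        have hset : List.Forall₂ (fun r' m' => m' ∈ P.Gen t r') τ.regs (l.set i q) := by
          rw [List.forall₂_iff_get]
          refine ⟨by rw [List.length_set]; exact hl.length_eq, ?_⟩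
          intro j hj hj'
          by_cases hij : i = j
          · subst hij
            simpa using hq
          · have := (List.forall₂_iff_get.mp hl).2 j hj (by simpa using hj')
            simp only [List.get_eq_getElem] at this ⊢
            rw [List.getElem_set_ne hij]
            exact this
        have hnew : (τ.vars : Multiset (ι × Fin n × Fin n)) + (l.set i q).sum ∈ P.Gen (t + 1) r :=
          ⟨τ, hτ, hc, l.set i q, hset, rfl⟩
        have hfin := hlive _ hnew
        have hsum : (l.set i q).sum + l[i] = l.sum + q := by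
          have e1 : l.sum = (l.take i).sum + (l[i] + (l.drop (i + 1)).sum) := by
            conv_lhs => rw [← List.take_append_drop i l]
            rw [List.sum_append, List.drop_eq_getElem_cons hi', List.sum_cons]
          have e2 : (l.set i q).sum = (l.take i).sum + (q + (l.drop (i + 1)).sum) := by
            rw [List.set_eq_take_append_cons_drop, if_pos hi', List.sum_append, List.sum_cons]
          rw [e1, e2]
          abel
        have hcancel : mono src dst φ (univ \ E') + q =
            mono src dst φ (univ \ E) + ((τ.vars : Multiset (ι × Fin n × Fin n)) + (l.set i q).sum) := by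
          have : (mono src dst φ (univ \ E') + q) + l[i] =
            (mono src dst φ (univ \ E) +
              ((τ.vars : Multiset (ι × Fin n × Fin n)) + (l.set i q).sum)) + l[i] := by
            calc (mono src dst φ (univ \ E') + q) + l[i]
                = (mono src dst φ (univ \ E') + mono src dst φ E') + q := by
                  rw [← heq]; abel
              _ = (mono src dst φ (univ \ E) + mono src dst φ E) + q := by
                  rw [mono_split, mono_split]
              _ = mono src dst φ (univ \ E) +
                  ((τ.vars : Multiset (ι × Fin n × Fin n)) + (l.sum + q)) := by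
                  rw [hm]; abel
              _ = _ := by rw [← hsum]; abel
          exact add_right_cancel this
        rw [hcancel]
        exact hfin
    have := hs _ _ hli
    rw [← hval]
    rw [← Finset.filter_mem_eq_inter] at this
    rwa [Finset.card_def, Finset.filter_val, ← Multiset.countP_eq_card_filter] at this
  -- count
  have hcount : (E ∩ H).card = (E.val).countP (fun e => e ∈ H) := by
    rw [← Finset.filter_mem_eq_inter, Finset.card_def, Finset.filter_val,
      ← Multiset.countP_eq_card_filter]
  rw [hcount, ← mono_map_fst src dst φ E, hm, Multiset.map_add, Multiset.countP_add]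
  have h1 : ((τ.vars : Multiset (ι × Fin n × Fin n)).map Prod.fst).countP (fun e => e ∈ H)
      ≤ τ.vars.length := by
    refine le_trans (Multiset.countP_le_card _ _) ?_
    simp
  have h2 : (l.sum.map Prod.fst).countP (fun e => e ∈ H) ≤ l.length * k := by
    have hall : ∀ m' ∈ l, (m'.map Prod.fst).countP (fun e => e ∈ H) ≤ k := by
      intro m' hm'
      obtain ⟨i, hi, rfl⟩ := List.getElem_of_mem hm'
      exact (hparts i (by rw [hl.length_eq]; exact hi) hi).le
    clear hm hl hparts hlive
    induction l with
    | nil => simp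
    | cons a l ih =>
      rw [List.sum_cons, Multiset.map_add, Multiset.countP_add, List.length_cons]
      have h3 := hall a (by simp)
      have h4 := ih (fun m' hm' => hall m' (by simp [hm']))
      have : (l.length + 1) * k = l.length * k + k := by ring
      omega
  have h3 : l.length = τ.regs.length := hl.length_eq.symm
  rw [h3] at h2
  calc _ ≤ τ.vars.length + τ.regs.length * k := Nat.add_le_add h1 h2
    _ ≤ τ.vars.length * k + τ.regs.length * k := by nlinarith
    _ = (τ.regs.length + τ.vars.length) * k := by ring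
    _ ≤ B * k := Nat.mul_le_mul_right k hlen

variable (hS : Spec (V := V) src dst (P.Gen T P.out))

include hS in
theorem live_top (φ : V → Fin n) : Live src dst P T φ T P.out univ := by
  refine ⟨hS.mono_mem φ, ?_⟩
  intro q hq
  simpa [mono] using hq

include hS in
/-- A representative of the monomials of a register. -/
theorem exists_pick (t : ℕ) (r : Reg)
    (hl : ∃ (φ : V → Fin n) (E : Finset ι), Live src dst P T φ t r E) :
    ∃ q ∈ P.Gen t r, ∀ (φ : V → Fin n) (E : Finset ι), Live src dst P T φ t r E →
      ∃ φ' : V → Fin n, mono src dst φ (univ \ E) + q = mono src dst φ' univ := by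
  classical
  have hcE : ∀ E : Finset ι, (univ \ E).card + E.card = Fintype.card ι := by
    intro E
    rw [Finset.card_sdiff_add_card, Finset.union_eq_left.mpr (Finset.subset_univ E)]
    simp
  obtain ⟨φ₀, E₀, hlive₀⟩ := hl
  rcases hS.exact_mem with hmin | ⟨hle, hmax⟩
  · obtain ⟨q, hq, hqmin⟩ : ∃ q ∈ P.Gen t r, ∀ q' ∈ P.Gen t r, q.card ≤ q'.card := by
      have hne' : ((fun q : Multiset (ι × Fin n × Fin n) => q.card) '' (P.Gen t r)).Nonempty :=
        ⟨_, _, hlive₀.1, rfl⟩
      obtain ⟨q, hq, hqe⟩ := Nat.sInf_mem hne'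
      refine ⟨q, hq, fun q' hq' => ?_⟩
      have : sInf ((fun q : Multiset (ι × Fin n × Fin n) => q.card) '' (P.Gen t r)) ≤ q'.card :=
        Nat.sInf_le ⟨q', hq', rfl⟩
      simp only at hqe
      omega
    refine ⟨q, hq, fun φ E h => ?_⟩
    apply hmin _ (h.2 q hq)
    have h1 := hqmin _ h.1
    rw [card_mono] at h1
    have h2 := hcE E
    rw [Multiset.card_add, card_mono]
    omega
  · have hbound : ∀ φ E, Live src dst P T φ t r E → ∀ q ∈ P.Gen t r, q.card ≤ E.card := by
      intro φ E h q hq
      have h1 := hle _ (h.2 q hq)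
      rw [Multiset.card_add, card_mono] at h1
      have := hcE E
      omega
    refine ⟨mono src dst φ₀ E₀, hlive₀.1, fun φ E h => ?_⟩
    apply hmax _ (h.2 _ hlive₀.1)
    have h1 := hbound φ₀ E₀ hlive₀ _ h.1
    have h2 := hbound φ E h _ hlive₀.1
    rw [card_mono] at h1 h2
    rw [Multiset.card_add, card_mono, card_mono]
    have := hcE E
    omega

include hS in
/-- The piece stored in a register and the labels on its boundary are determined by the
register and the time. -/
theorem live_unique [Fintype V] (hn : 0 < n) (t : ℕ) (r : Reg) :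
    ∃ (E₀ : Finset ι) (β : V → Fin n), ∀ (φ : V → Fin n) (E : Finset ι),
      Live src dst P T φ t r E → E = E₀ ∧ ∀ v ∈ bd src dst E₀, φ v = β v := by
  classical
  by_cases hl : ∃ (φ : V → Fin n) (E : Finset ι), Live src dst P T φ t r E
  swap
  · refine ⟨∅, fun _ => ⟨0, hn⟩, ?_⟩
    intro φ E h
    exact absurd ⟨φ, E, h⟩ hl
  obtain ⟨q, hq, hpick⟩ := exists_pick src dst P T hS t r hl
  -- the blocks of `q` are those of the piece, and `q` is a monomial of a labelling
  have key : ∀ (φ : V → Fin n) (E : Finset ι), Live src dst P T φ t r E →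
      ∃ φ' : V → Fin n, q = mono src dst φ' E ∧ ∀ e, e ∉ E → φ' (src e) = φ (src e) ∧
        φ' (dst e) = φ (dst e) := by
    intro φ E h
    obtain ⟨φ', hφ'⟩ := hpick φ E h
    have hagree : ∀ e, e ∉ E → φ' (src e) = φ (src e) ∧ φ' (dst e) = φ (dst e) := by
      intro e he
      have hmem : sel src dst φ e ∈ mono src dst φ' univ := by
        rw [← hφ']
        apply Multiset.mem_add.mpr
        left
        rw [mem_mono]
        exact ⟨by simp [sel, he], rfl⟩
      have := ((mem_mono src dst φ' univ _).mp hmem).2
      simp only [sel, Prod.mk.injEq, true_and] at this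
      exact ⟨this.1.symm, this.2.symm⟩
    refine ⟨φ', ?_, hagree⟩
    have hU := mono_split src dst φ' E
    have hsame : mono src dst φ' (univ \ E) = mono src dst φ (univ \ E) := by
      simp only [mono]
      apply Multiset.map_congr rfl
      intro e he
      have he' : e ∉ E := (Finset.mem_sdiff.mp (Finset.mem_val.mp he)).2
      simp only [sel, (hagree e he').1, (hagree e he').2]
    rw [← hφ', hsame] at hU
    exact (add_left_cancel hU).symm
  obtain ⟨φ₀, E₀, h₀⟩ := hl
  obtain ⟨β, hβ, -⟩ := key φ₀ E₀ h₀
  refine ⟨E₀, β, ?_⟩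
  intro φ E h
  obtain ⟨φ', hφ', hagree⟩ := key φ E h
  have hEE : E = E₀ := by
    have h1 := mono_map_fst src dst φ' E
    have h2 := mono_map_fst src dst β E₀
    rw [← hφ'] at h1
    rw [← hβ] at h2
    exact Finset.val_injective (h1.symm.trans h2)
  refine ⟨hEE, ?_⟩
  subst hEE
  intro v hv
  rw [mem_bd] at hv
  obtain ⟨⟨e, he, hve⟩, ⟨e', he', hve'⟩⟩ := hv
  have e1 : φ' v = φ v := by
    rcases hve' with rfl | rfl
    · exact (hagree e' he').1
    · exact (hagree e' he').2
  have e2 : sel src dst β e = sel src dst φ' e := by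
    have : sel src dst φ' e ∈ mono src dst β E := by
      rw [← hβ, hφ', mem_mono]
      exact ⟨he, rfl⟩
    exact ((mem_mono src dst β E _).mp this).2.symm
  simp only [sel, Prod.mk.injEq, true_and] at e2
  rw [← e1]
  rcases hve with rfl | rfl
  · exact e2.1.symm
  · exact e2.2.symm

end

end Pool.Agent.V8H11.TS
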