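import Pool.Agent.V8H11.TS.Grid
import Pool.Agent.V8H11.TS.Count

/-!
The recursion for the number of labellings whose pieces grow quickly, and the lower bound.
-/

namespace Pool.Agent.V8H11.TS

open Finset

section

variable {k L n : ℕ} {Reg : Type}

/-- Labellings all of whose live pieces are light on a block of columns at time `s`, and some
live piece of which is heavy there at time `t`. -/
def Jump (Lv : (Fin k × Fin L → Fin n) → ℕ → Reg → Prop)
    (Ef : ℕ → Reg → Finset (GridEdge k L)) (s t a l : ℕ) : Set (Fin k × Fin L → Fin n) :=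
  {φ | (∀ r, Lv φ s r → (Ef s r ∩ hrow k L a l).card < k) ∧
    ∃ r, Lv φ t r ∧ (hrow k L a l \ Ef t r).card < k}

theorem hrow_mono {a l a' l' : ℕ} (h1 : a' ≤ a) (h2 : a + l ≤ a' + l') :
    hrow k L a l ⊆ hrow k L a' l' := by
  intro e he
  rw [mem_hrow] at he ⊢
  omega

theorem colset_mono {a l a' l' : ℕ} (h1 : a' ≤ a) (h2 : a + l ≤ a' + l') :
    colset k L a l ⊆ colset k L a' l' := by
  intro v hv
  rw [mem_colset] at hv ⊢
  omega

theorem colset_disjoint {a l a' l' : ℕ} (h : a + l ≤ a' ∨ a' + l' ≤ a) :
    Disjoint (colset k L a l) (colset k L a' l') := by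
  rw [Finset.disjoint_left]
  intro v hv hv'
  rw [mem_colset] at hv hv'
  omega

theorem light_and_heavy {a l : ℕ} (hk : 1 ≤ k) (hL : a + l + 1 ≤ L)
    (E : Finset (GridEdge k L)) (x : ℕ) (h1 : (E ∩ hrow k L a l).card ≤ x)
    (h2 : (hrow k L a l \ E).card < k) : l < x + k := by
  have h3 : (hrow k L a l \ E).card + (E ∩ hrow k L a l).card = (hrow k L a l).card := by
    rw [Finset.inter_comm, Finset.card_sdiff_add_card_inter]
  rw [card_hrow hk hL] at h3
  omega

variable {Lv : (Fin k × Fin L → Fin n) → ℕ → Reg → Prop}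
    {Ef : ℕ → Reg → Finset (GridEdge k L)} {β : ℕ → Reg → (Fin k × Fin L → Fin n)}

/-- The recursion. -/
theorem jump_bound [Fintype Reg] (B m : ℕ) (hk : 1 ≤ k) (hn : 1 ≤ n) (hm : 2 ≤ m)
    (hR : m ^ 2 * Fintype.card Reg ≤ n ^ k)
    (hbd : ∀ φ t r, Lv φ t r → ∀ v ∈ gbd (Ef t r), φ v = β t r v)
    (hstep : ∀ φ t r (H : Finset (GridEdge k L)), Lv φ (t + 1) r →
      (∀ r', Lv φ t r' → (Ef t r' ∩ H).card < k) → (Ef (t + 1) r ∩ H).card ≤ B * k) :
    ∀ (j y s t a : ℕ), s ≤ t → t ≤ s + m ^ j → a + (B + 2) * k * 3 ^ y + 1 ≤ L →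
      Bnd (Jump Lv Ef s t a ((B + 2) * k * 3 ^ y)) (colset k L a ((B + 2) * k * 3 ^ y))
        ((n : ℝ) ^ (Fintype.card (Fin k × Fin L)) * (m : ℝ) ^ (4 * j) / (m : ℝ) ^ y) := by
  classical
  have hn0 : (0 : ℝ) < n := by exact_mod_cast hn
  have hm0 : (0 : ℝ) < m := by exact_mod_cast (by omega : 0 < m)
  have hm2 : (2 : ℝ) ≤ m := by exact_mod_cast hm
  set N : ℝ := (n : ℝ) ^ (Fintype.card (Fin k × Fin L)) with hN
  have hN0 : 0 < N := by positivity
  intro j
  induction j with
  | zero =>
    intro y s t a hst hts hL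
    have hemp : Jump Lv Ef s t a ((B + 2) * k * 3 ^ y) = ∅ := by
      rw [Set.eq_empty_iff_forall_notMem]
      rintro φ ⟨h1, r, h2, h3⟩
      have h3y : 1 ≤ 3 ^ y := Nat.one_le_pow _ _ (by norm_num)
      have hlen : (B + 2) * k ≤ (B + 2) * k * 3 ^ y := Nat.le_mul_of_pos_right _ h3y
      have hexp : (B + 2) * k = B * k + 2 * k := by ring
      rcases Nat.eq_or_lt_of_le hst with h | h
      · subst h
        have := light_and_heavy hk hL _ k (h1 r h2).le h3
        omega
      · have hts' : t = s + 1 := by
          simp only [pow_zero] at hts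
          omega
        subst hts'
        have := light_and_heavy hk hL _ (B * k) (hstep φ s r _ h2 h1) h3
        omega
    rw [hemp]
    apply bnd_empty
    positivity
  | succ j ihj =>
    intro y
    induction y with
    | zero =>
      intro s t a hst hts hL
      refine bnd_mono (Set.Subset.refl _) (Finset.Subset.refl _) ?_ (bnd_trivial _ _)
      rw [pow_zero, div_one]
      have : (1 : ℝ) ≤ (m : ℝ) ^ (4 * (j + 1)) := one_le_pow₀ (by linarith)
      nlinarith
    | succ y ihy =>
      intro s t a hst hts hL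
      set l : ℕ := (B + 2) * k * 3 ^ y with hl
      have hl3 : (B + 2) * k * 3 ^ (y + 1) = 3 * l := by rw [hl]; ring
      rw [hl3] at hL ⊢
      have hl2k : 2 * k ≤ l := by
        have h3y : 1 ≤ 3 ^ y := Nat.one_le_pow _ _ (by norm_num)
        have hlen : (B + 2) * k ≤ (B + 2) * k * 3 ^ y := Nat.le_mul_of_pos_right _ h3y
        have hexp : (B + 2) * k = B * k + 2 * k := by ring
        omega
      -- inner times
      set τ : ℕ → ℕ := fun c => min (s + c * m ^ j) t with hτ
      have hτ0 : τ 0 = s := by simp [hτ, hst]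
      have hτm : τ m = t := by
        simp only [hτ]
        have : s + m * m ^ j = s + m ^ (j + 1) := by ring
        rw [this]
        exact min_eq_right hts
      have hτmono : ∀ c, τ c ≤ τ (c + 1) := by
        intro c
        simp only [hτ]
        have : s + c * m ^ j ≤ s + (c + 1) * m ^ j := by nlinarith [Nat.zero_le (m ^ j)]
        omega
      have hτstep : ∀ c, τ (c + 1) ≤ τ c + m ^ j := by
        intro c
        simp only [hτ]
        have : s + (c + 1) * m ^ j = s + c * m ^ j + m ^ j := by ring
        omega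
      -- good labellings
      set Good : ℕ → Set (Fin k × Fin L → Fin n) := fun b =>
        {φ | ∀ c, 0 < c → c < m → ∀ r, Lv φ (τ c) r →
          (gbd (Ef (τ c) r) ∩ colset k L b l).card < k} with hGood
      set Bad : ℕ → Set (Fin k × Fin L → Fin n) := fun b =>
        {φ | ∃ p : Fin m × Reg, k ≤ (gbd (Ef (τ p.1.val) p.2) ∩ colset k L b l).card ∧
          ∀ v ∈ gbd (Ef (τ p.1.val) p.2) ∩ colset k L b l, φ v = β (τ p.1.val) p.2 v} with hBad
      have hcover : ∀ b φ, φ ∈ Good b ∨ φ ∈ Bad b := by
        intro b φ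
        by_cases h : φ ∈ Good b
        · exact Or.inl h
        · right
          simp only [hGood, Set.mem_ofPred_eq] at h
          push Not at h
          obtain ⟨c, _, hc, r, hr, hle⟩ := h
          refine ⟨(⟨c, hc⟩, r), hle, ?_⟩
          intro v hv
          exact hbd φ _ r hr v (Finset.mem_inter.mp hv).1
      set A := Jump Lv Ef s t a (3 * l) with hA
      -- a good labelling jumps inside one of the short time intervals
      have hgood : ∀ b, a ≤ b → b + l ≤ a + 3 * l →
          Bnd (A ∩ Good b) (colset k L b l) (m * (N * (m : ℝ) ^ (4 * j) / (m : ℝ) ^ y)) := by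
        intro b hab hba
        have hbL : b + l + 1 ≤ L := by omega
        have hsub : A ∩ Good b ⊆ {φ | ∃ c : Fin m, φ ∈ Jump Lv Ef (τ c.val) (τ (c.val + 1)) b l} := by
          rintro φ ⟨⟨hAl, r₁, hr₁, hr₁h⟩, hg⟩
          -- first time with a heavy piece
          have hex : ∃ c, c ≤ m ∧ ∃ r, Lv φ (τ c) r ∧ (hrow k L b l \ Ef (τ c) r).card < k := by
            refine ⟨m, le_refl m, r₁, by rw [hτm]; exact hr₁, ?_⟩
            rw [hτm]
            refine lt_of_le_of_lt (Finset.card_le_card ?_) hr₁h
            exact Finset.sdiff_subset_sdiff (hrow_mono hab hba) (Finset.Subset.refl _)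
          classical
          obtain ⟨hcm, r, hr, hh⟩ := Nat.find_spec hex
          set c := Nat.find hex with hc
          have hlight0 : ∀ r, Lv φ s r → (Ef s r ∩ hrow k L b l).card < k := by
            intro r hr
            refine lt_of_le_of_lt (Finset.card_le_card ?_) (hAl r hr)
            exact Finset.inter_subset_inter (Finset.Subset.refl _) (hrow_mono hab hba)
          have hcpos : 0 < c := by
            rcases Nat.eq_zero_or_pos c with h0 | h0
            · exfalso
              rw [h0, hτ0] at hr hh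
              have := light_and_heavy hk hbL _ k (hlight0 r hr).le hh
              omega
            · exact h0
          obtain ⟨c', hc'⟩ : ∃ c', c = c' + 1 := ⟨c - 1, by omega⟩
          refine ⟨⟨c', by omega⟩, ?_, r, ?_, ?_⟩
          · intro r' hr'
            simp only at hr' ⊢
            rcases Nat.eq_zero_or_pos c' with h0 | h0
            · subst h0
              rw [hτ0] at hr' ⊢
              exact hlight0 r' hr'
            · rcases light_or_heavy hk (a := b) (l := l) (Ef (τ c') r')
                (hg c' h0 (by omega) r' hr') with h | h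
              · exact h
              · exact absurd ⟨by omega, r', hr', h⟩ (Nat.find_min hex (m := c') (by omega))
          · simp only
            rw [← hc']; exact hr
          · simp only
            rw [← hc']; exact hh
        have h1 : Bnd {φ | ∃ c : Fin m, φ ∈ Jump Lv Ef (τ c.val) (τ (c.val + 1)) b l}
            (colset k L b l) (Fintype.card (Fin m) * (N * (m : ℝ) ^ (4 * j) / (m : ℝ) ^ y)) := by
          apply bnd_exists
          intro c
          exact ihj y (τ c.val) (τ (c.val + 1)) b (hτmono _) (hτstep _) hbL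
        rw [Fintype.card_fin] at h1
        exact bnd_mono hsub (Finset.Subset.refl _) (le_refl _) h1
      -- one more bad block
      have hbadstep : ∀ (Q : Set (Fin k × Fin L → Fin n)) (U : Finset (Fin k × Fin L)) (x : ℝ)
          (b : ℕ), 0 ≤ x → Bnd Q U x → Disjoint (colset k L b l) U →
          Bnd (Q ∩ Bad b) (U ∪ colset k L b l) (x / m) := by
        intro Q U x b hx hQ hd
        have h1 := bnd_bad (J := Fin m × Reg) hn k hx hQ hd
          (fun p => gbd (Ef (τ p.1.val) p.2) ∩ colset k L b l)
          (fun p => Finset.inter_subset_right) (fun p => β (τ p.1.val) p.2)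
        refine bnd_mono ?_ (Finset.Subset.refl _) ?_ h1
        · rintro φ ⟨h2, h3⟩
          exact ⟨h2, h3⟩
        · rw [Fintype.card_prod, Fintype.card_fin, Nat.cast_mul]
          have hRr : (m : ℝ) ^ 2 * (Fintype.card Reg : ℝ) ≤ (n : ℝ) ^ k := by exact_mod_cast hR
          have hnk : (0 : ℝ) < (n : ℝ) ^ k := by positivity
          rw [le_div_iff₀ hm0]
          have : (m : ℝ) * (Fintype.card Reg : ℝ) * (x / (n : ℝ) ^ k) * m =
              ((m : ℝ) ^ 2 * (Fintype.card Reg : ℝ)) * x / (n : ℝ) ^ k := by
            ring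
          rw [this, div_le_iff₀ hnk]
          nlinarith
      set X0 : ℝ := N * (m : ℝ) ^ (4 * j) / (m : ℝ) ^ y with hX0
      have hX0pos : 0 < X0 := by positivity
      -- the four parts
      have g0 := hgood a (le_refl _) (by omega)
      have g1 := hgood (a + l) (by omega) (by omega)
      have g2 := hgood (a + 2 * l) (by omega) (by omega)
      have b1 := hbadstep _ _ _ a (by positivity) g1 (colset_disjoint (by omega))
      have b2 := hbadstep _ _ _ (a + l) (by positivity) g2 (colset_disjoint (by omega))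
      have b3 := hbadstep _ _ _ a (by positivity) b2 (by
        rw [Finset.disjoint_union_right]
        exact ⟨colset_disjoint (by omega), colset_disjoint (by omega)⟩)
      have c0 : Bnd A (colset k L a l)
          (N * (m : ℝ) ^ (4 * (j + 1)) / (m : ℝ) ^ y) := by
        refine bnd_mono ?_ (Finset.Subset.refl _) (le_refl _) (ihy s t a hst hts (by omega))
        rintro φ ⟨h1, r, h2, h3⟩
        refine ⟨?_, r, h2, ?_⟩
        · intro r hr
          refine lt_of_le_of_lt (Finset.card_le_card ?_) (h1 r hr)
          exact Finset.inter_subset_inter (Finset.Subset.refl _) (hrow_mono (le_refl _) (by omega))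
        · refine lt_of_le_of_lt (Finset.card_le_card ?_) h3
          exact Finset.sdiff_subset_sdiff (hrow_mono (le_refl _) (by omega)) (Finset.Subset.refl _)
      have c1 := hbadstep _ _ _ (a + l) (by positivity) c0 (colset_disjoint (by omega))
      have c2 := hbadstep _ _ _ (a + 2 * l) (by positivity) c1 (by
        rw [Finset.disjoint_union_right]
        exact ⟨colset_disjoint (by omega), colset_disjoint (by omega)⟩)
      have hbig : ∀ {U : Finset (Fin k × Fin L)}, U ⊆ colset k L a (3 * l) →
          ∀ {Q : Set (Fin k × Fin L → Fin n)} {x : ℝ}, Bnd Q U x →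
            Bnd Q (colset k L a (3 * l)) x :=
        fun hU _ _ h => bnd_mono (Set.Subset.refl _) hU (le_refl _) h
      have s0 : colset k L a l ⊆ colset k L a (3 * l) := colset_mono (by omega) (by omega)
      have s1 : colset k L (a + l) l ⊆ colset k L a (3 * l) := colset_mono (by omega) (by omega)
      have s2 : colset k L (a + 2 * l) l ⊆ colset k L a (3 * l) :=
        colset_mono (by omega) (by omega)
      have d0 := hbig s0 g0
      have d1 := hbig (Finset.union_subset s1 s0) b1
      have d2 := hbig (Finset.union_subset (Finset.union_subset s2 s1) s0) b3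
      have d3 := hbig (Finset.union_subset (Finset.union_subset s0 s1) s2) c2
      have hall := bnd_union (bnd_union (bnd_union d0 d1) d2) d3
      refine bnd_mono ?_ (Finset.Subset.refl _) ?_ hall
      · intro φ hφ
        rcases hcover a φ with h | h
        · exact Or.inl (Or.inl (Or.inl ⟨hφ, h⟩))
        rcases hcover (a + l) φ with h' | h'
        · exact Or.inl (Or.inl (Or.inr ⟨⟨hφ, h'⟩, h⟩))
        rcases hcover (a + 2 * l) φ with h'' | h''
        · exact Or.inl (Or.inr ⟨⟨⟨hφ, h''⟩, h'⟩, h⟩)
        · exact Or.inr ⟨⟨hφ, h'⟩, h''⟩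
      · have e1 : N * (m : ℝ) ^ (4 * (j + 1)) / (m : ℝ) ^ y = X0 * (m : ℝ) ^ 4 := by
          rw [hX0]; ring
        have e2 : N * (m : ℝ) ^ (4 * (j + 1)) / (m : ℝ) ^ (y + 1) = X0 * (m : ℝ) ^ 3 := by
          rw [hX0]; field_simp; ring
        rw [e1, e2]
        have e3 : (m : ℝ) * X0 + m * X0 / m + m * X0 / m / m + X0 * (m : ℝ) ^ 4 / m / m =
            X0 * ((m : ℝ) + 1 + 1 / m + (m : ℝ) ^ 2) := by
          field_simp
        rw [e3]
        apply mul_le_mul_of_nonneg_left _ hX0pos.le
        have e4 : (1 : ℝ) / m ≤ 1 := by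
          rw [div_le_one hm0]; linarith
        have e5 : (1 : ℝ) / m ≤ 1 / 2 := by
          apply one_div_le_one_div_of_le (by norm_num) hm2
        nlinarith [mul_nonneg (sub_nonneg.mpr hm2) (sub_nonneg.mpr hm2),
          mul_nonneg (mul_nonneg (sub_nonneg.mpr hm2) (sub_nonneg.mpr hm2)) (sub_nonneg.mpr hm2)]

end

/-- The lower bound for programs whose output monomials are as in `Spec`. -/
theorem rounds_of_spec {K : Type} [CommSemiring K]
    (k L n m D B T : ℕ) (hk : 1 ≤ k) (hn : 1 ≤ n) (hm : 2 ≤ m)
    (Reg : Type) [Fintype Reg] (hR : m ^ 2 * Fintype.card Reg ≤ n ^ k)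
    (hL : (B + 2) * k * 3 ^ (4 * D + 1) + 1 ≤ L)
    (P : Program K (Var k L n) Reg) (hB : P.FanIn B)
    (hS : Spec (V := Fin k × Fin L) (gsrc k L) (gdst k L) (P.Gen T P.out)) : m ^ D < T := by
  classical
  by_contra hT
  push Not at hT
  choose Ef β hEf using fun t r =>
    live_unique (gsrc k L) (gdst k L) P T hS (by omega : 0 < n) t r
  set Lv : (Fin k × Fin L → Fin n) → ℕ → Reg → Prop :=
    fun φ t r => Live (gsrc k L) (gdst k L) P T φ t r (Ef t r) with hLv
  have key := jump_bound (Lv := Lv) (Ef := Ef) (β := β) B m hk hn hm hR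
    (fun φ t r h v hv => (hEf t r φ _ h).2 v hv)
    (by
      intro φ t r H h h'
      apply live_succ (gsrc k L) (gdst k L) P T B k hk hB φ t r (Ef (t + 1) r) H h
      intro r' E' hE'
      have := (hEf t r' φ E' hE').1
      subst this
      exact h' r' hE')
    D (4 * D + 1) 0 T 0 (Nat.zero_le _) (by omega) (by omega)
  have huniv : Jump Lv Ef 0 T 0 ((B + 2) * k * 3 ^ (4 * D + 1)) = Set.univ := by
    rw [Set.eq_univ_iff_forall]
    intro φ
    refine ⟨?_, P.out, ?_⟩
    · intro r hr
      have := live_zero _ _ P T φ r _ hr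
      rw [this, Finset.empty_inter, Finset.card_empty]
      omega
    · have htop := live_top _ _ P T hS φ
      have := (hEf T P.out φ _ htop).1
      constructor
      · simp only [hLv]
        rw [← this]
        exact htop
      · have hemp : hrow k L 0 ((B + 2) * k * 3 ^ (4 * D + 1)) \ (univ : Finset (GridEdge k L))
            = ∅ := by
          rw [Finset.sdiff_eq_empty_iff_subset]
          exact Finset.subset_univ _
        rw [← this, hemp, Finset.card_empty]
        omega
  rw [huniv] at key
  have h1 := key ∅ (fun _ => ⟨0, by omega⟩) (by simp)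
  have h2 := cnt_univ_mul (∅ : Finset (Fin k × Fin L)) (fun _ => (⟨0, by omega⟩ : Fin n))
  simp only [Finset.card_empty, pow_zero, mul_one] at h1 h2
  rw [h2] at h1
  have hn0 : (0 : ℝ) < n := by exact_mod_cast hn
  have hm0 : (0 : ℝ) < m := by exact_mod_cast (by omega : 0 < m)
  have hm2 : (2 : ℝ) ≤ m := by exact_mod_cast hm
  rw [le_div_iff₀ (by positivity)] at h1
  push_cast at h1
  have hN : (0 : ℝ) < (n : ℝ) ^ (Fintype.card (Fin k × Fin L)) := by positivity
  have h3 : (m : ℝ) ^ (4 * D + 1) ≤ (m : ℝ) ^ (4 * D) := le_of_mul_le_mul_left h1 hN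
  rw [pow_succ] at h3
  have h4 : (0 : ℝ) < (m : ℝ) ^ (4 * D) := by positivity
  nlinarith

/-- The lower bound, over every semiring with a size function. -/
theorem rounds_lower_bound {K : Type} [CommSemiring K] (Q : QVal K) (inp : ℕ → K) (σ : ℝ)
    (hne : ∀ a, inp a ≠ 0) (hinp : ∀ a, Q.ν (inp a) = σ * a) (hσ : σ ≠ 0)
    (k L n m D B T : ℕ) (hk : 1 ≤ k) (hn : 1 ≤ n) (hm : 2 ≤ m)
    (Reg : Type) [Fintype Reg] (hR : m ^ 2 * Fintype.card Reg ≤ n ^ k)
    (hL : (B + 2) * k * 3 ^ (4 * D + 1) + 1 ≤ L)
    (P : Program K (Var k L n) Reg) (hB : P.FanIn B)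
    (hP : ∀ w : Var k L n → ℕ, P.result T (fun u => inp (w u)) =
      labelSum k L n (fun u => inp (w u))) : m ^ D < T :=
  rounds_of_spec k L n m D B T hk hn hm Reg hR hL P hB
    (spec_of_computes (gsrc k L) (gdst k L) Q inp σ hne hinp P T hσ (by omega) hP)

end Pool.Agent.V8H11.TS
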