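import Pool.Agent.V8H11.TS.Main
import Pool.Agent.V8H11.TS.Bool

/-!
The models: min-plus, max-plus, nonnegative arithmetic and Boolean programs with read-once
derivations.
-/

namespace Pool.Agent.V8H11.TS

open Tropical OrderDual Filter
open scoped NNReal

/-- The kinds of programs. -/
inductive Model
  | minPlus
  | maxPlus
  | nonneg
  | boolean

/-- Some program of the given kind, with the registers `Reg` and products of at most `B` factors,
computes in `T` rounds the sum over all labellings of the `k × L` grid by `n` labels of the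
product of the weights. For `minPlus` (reals and infinity with minimum and addition) and natural
weights this is the minimum cost of a labelling, for `maxPlus` (reals and minus infinity with
maximum and addition) and natural weights the maximum weight, for `nonneg` (nonnegative reals
with addition and multiplication) and natural weights the generating function; for `boolean` it
is the truth value of the existence of a labelling all of whose weights are true, and every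
accepted input is required to have a derivation that reads no input variable twice. -/
def Solves (k L n : ℕ) (Reg : Type) (B T : ℕ) : Model → Prop
  | .minPlus => ∃ P : Program (Tropical (WithTop ℝ)) (Var k L n) Reg, P.FanIn B ∧
      ∀ w : Var k L n → ℕ, P.result T (fun u => trop ((w u : ℝ) : WithTop ℝ)) =
        labelSum k L n (fun u => trop ((w u : ℝ) : WithTop ℝ))
  | .maxPlus => ∃ P : Program (Tropical (WithTop ℝᵒᵈ)) (Var k L n) Reg, P.FanIn B ∧
      ∀ w : Var k L n → ℕ, P.result T (fun u => trop ((toDual (w u : ℝ) : ℝᵒᵈ) : WithTop ℝᵒᵈ)) =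
        labelSum k L n (fun u => trop ((toDual (w u : ℝ) : ℝᵒᵈ) : WithTop ℝᵒᵈ))
  | .nonneg => ∃ P : Program ℝ≥0 (Var k L n) Reg, P.FanIn B ∧
      ∀ w : Var k L n → ℕ, P.result T (fun u => (w u : ℝ≥0)) =
        labelSum k L n (fun u => (w u : ℝ≥0))
  | .boolean => ∃ P : Program BoolSR (Var k L n) Reg, P.FanIn B ∧ P.ReadOnce T ∧
      ∀ x, P.result T x = labelSum k L n x

/-- The explicit tradeoff. -/
theorem solves_lower_bound (M : Model) (k L n m D B T : ℕ) (hk : 1 ≤ k) (hn : 1 ≤ n) (hm : 2 ≤ m)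
    (Reg : Type) [Fintype Reg] (hR : m ^ 2 * Fintype.card Reg ≤ n ^ k)
    (hL : (B + 2) * k * 3 ^ (4 * D + 1) + 1 ≤ L) (h : Solves k L n Reg B T M) : m ^ D < T := by
  cases M with
  | minPlus =>
    obtain ⟨P, hB, hP⟩ := h
    refine rounds_lower_bound tropQVal (fun a : ℕ => trop ((a : ℝ) : WithTop ℝ)) 1 ?_ ?_
      one_ne_zero k L n m D B T hk hn hm Reg hR hL P hB hP
    · intro a h
      have := congrArg untrop h
      simp at this
    · intro a
      change (untrop (trop ((a : ℝ) : WithTop ℝ))).untopD 0 = 1 * (a : ℝ)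
      rw [untrop_trop, WithTop.untopD_coe, one_mul]
  | maxPlus =>
    obtain ⟨P, hB, hP⟩ := h
    refine rounds_lower_bound arcticQVal
      (fun a : ℕ => trop ((toDual (a : ℝ) : ℝᵒᵈ) : WithTop ℝᵒᵈ)) (-1) ?_ ?_
      (by norm_num) k L n m D B T hk hn hm Reg hR hL P hB hP
    · intro a h
      have := congrArg untrop h
      simp at this
    · intro a
      change - ofDual ((untrop (trop ((toDual (a : ℝ) : ℝᵒᵈ) : WithTop ℝᵒᵈ))).untopD (toDual 0)) =
        (-1) * (a : ℝ)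
      rw [untrop_trop, WithTop.untopD_coe, ofDual_toDual]
      ring
  | nonneg =>
    obtain ⟨P, hB, hP⟩ := h
    refine rounds_lower_bound nnrealQVal (fun a : ℕ => ((2 ^ a : ℕ) : ℝ≥0)) (- Real.log 2) ?_ ?_
      (by have := Real.log_pos (by norm_num : (1 : ℝ) < 2); linarith)
      k L n m D B T hk hn hm Reg hR hL P hB (fun w => hP (fun u => 2 ^ (w u)))
    · intro a
      positivity
    · intro a
      change - Real.log (((2 ^ a : ℕ) : ℝ≥0) : ℝ) = - Real.log 2 * (a : ℝ)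
      rw [NNReal.coe_natCast, Nat.cast_pow, Nat.cast_ofNat, Real.log_pow]
      ring
  | boolean =>
    obtain ⟨P, hB, hro, hP⟩ := h
    exact rounds_of_spec k L n m D B T hk hn hm Reg hR hL P hB
      (spec_of_bool (gsrc k L) (gdst k L) P T hro hP)

theorem exp_bound : (81 : ℝ) ≤ Real.exp (9 / 2) := by
  have h1 : Real.exp (9 / 2) ^ 2 = Real.exp 1 ^ 9 := by
    rw [← Real.exp_nat_mul, ← Real.exp_nat_mul]
    norm_num
  have h2 : (2.7 : ℝ) ≤ Real.exp 1 := by
    have := Real.exp_one_gt_d9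
    linarith
  have h3 : (2.7 : ℝ) ^ 9 ≤ Real.exp 1 ^ 9 := by gcongr
  have h4 : (81 : ℝ) ^ 2 ≤ Real.exp (9 / 2) ^ 2 := by
    rw [h1]
    refine le_trans ?_ h3
    norm_num
  exact le_of_sq_le_sq h4 (Real.exp_pos _).le

theorem lower_bound_asymptotic (k : ℕ) (hk : 1 ≤ k) (γ : ℝ) (hγ : γ < k) :
    ∀ᶠ n : ℕ in atTop, ∀ (M : Model) (Reg : Type) [Fintype Reg] (B T : ℕ),
      (Fintype.card Reg : ℝ) ≤ (n : ℝ) ^ γ → B ^ 2 ≤ n → Solves k n n Reg B T M →
      (n : ℝ) ^ ((k - γ) * Real.log n / 40) < T := by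
  set δ : ℝ := k - γ with hδ
  have hδ0 : 0 < δ := by rw [hδ]; linarith
  have hcast : Tendsto (fun n : ℕ => (n : ℝ)) atTop atTop := tendsto_natCast_atTop_atTop
  have e1 : ∀ᶠ n : ℕ in atTop, (2 : ℝ) ≤ (n : ℝ) ^ (δ / 6) :=
    ((tendsto_rpow_atTop (by positivity : 0 < δ / 6)).comp hcast).eventually_ge_atTop 2
  have e2 : ∀ᶠ n : ℕ in atTop, (10 * k : ℝ) ≤ (n : ℝ) ^ ((1 : ℝ) / 20) :=
    ((tendsto_rpow_atTop (by norm_num : (0 : ℝ) < 1 / 20)).comp hcast).eventually_ge_atTop _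
  have e3 : ∀ᶠ n : ℕ in atTop, (40 : ℝ) ≤ Real.log n :=
    (Real.tendsto_log_atTop.comp hcast).eventually_ge_atTop 40
  have e4 : ∀ᶠ n : ℕ in atTop, 1 ≤ n := eventually_ge_atTop 1
  filter_upwards [e1, e2, e3, e4] with n h1 h2 h3 hn
  intro M Reg _ B T hReg hB hS
  have hn1 : (1 : ℝ) ≤ n := by exact_mod_cast hn
  have hn0 : (0 : ℝ) < n := by linarith
  set m : ℕ := ⌊(n : ℝ) ^ (δ / 2)⌋₊ with hm
  set D : ℕ := ⌊Real.log n / 10⌋₊ with hD
  have hsplit : (n : ℝ) ^ (δ / 2) = (n : ℝ) ^ (δ / 6) * (n : ℝ) ^ (δ / 3) := by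
    rw [← Real.rpow_add hn0]; congr 1; ring
  have hsplit2 : (n : ℝ) ^ (δ / 3) = (n : ℝ) ^ (δ / 6) * (n : ℝ) ^ (δ / 6) := by
    rw [← Real.rpow_add hn0]; congr 1; ring
  have h13 : (4 : ℝ) ≤ (n : ℝ) ^ (δ / 3) := by rw [hsplit2]; nlinarith
  have hmge : (n : ℝ) ^ (δ / 3) ≤ m := by
    have h5 : (n : ℝ) ^ (δ / 2) - 1 ≤ m := by
      have := Nat.lt_floor_add_one ((n : ℝ) ^ (δ / 2))
      rw [← hm] at this
      linarith
    have h6 : 2 * (n : ℝ) ^ (δ / 3) ≤ (n : ℝ) ^ (δ / 2) := by rw [hsplit]; nlinarith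
    linarith
  have hm2 : 2 ≤ m := by
    have : (2 : ℝ) ≤ m := by linarith
    exact_mod_cast this
  have hmle : (m : ℝ) ≤ (n : ℝ) ^ (δ / 2) := Nat.floor_le (by positivity)
  have hR : m ^ 2 * Fintype.card Reg ≤ n ^ k := by
    have : (m : ℝ) ^ 2 * (Fintype.card Reg : ℝ) ≤ (n : ℝ) ^ k := by
      calc (m : ℝ) ^ 2 * (Fintype.card Reg : ℝ) ≤ ((n : ℝ) ^ (δ / 2)) ^ 2 * (n : ℝ) ^ γ := by
            gcongr
        _ = (n : ℝ) ^ (δ / 2 * 2) * (n : ℝ) ^ γ := by
            rw [Real.rpow_mul hn0.le]; norm_num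
        _ = (n : ℝ) ^ (k : ℝ) := by
            rw [← Real.rpow_add hn0]; congr 1; rw [hδ]; ring
        _ = (n : ℝ) ^ k := Real.rpow_natCast _ _
    exact_mod_cast this
  have hlog0 : 0 ≤ Real.log n := by linarith
  have hDle : (D : ℝ) ≤ Real.log n / 10 := Nat.floor_le (by positivity)
  have hpow : (3 : ℝ) ^ (4 * D) ≤ (n : ℝ) ^ ((9 : ℝ) / 20) := by
    calc (3 : ℝ) ^ (4 * D) = (81 : ℝ) ^ D := by rw [pow_mul]; norm_num
      _ ≤ (Real.exp (9 / 2)) ^ D := by gcongr; exact exp_bound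
      _ = Real.exp (D * (9 / 2)) := (Real.exp_nat_mul _ _).symm
      _ ≤ Real.exp (Real.log n * (9 / 20)) := by
          apply Real.exp_le_exp.mpr
          nlinarith
      _ = (n : ℝ) ^ ((9 : ℝ) / 20) := by rw [Real.rpow_def_of_pos hn0]
  have hBle : (B : ℝ) ≤ (n : ℝ) ^ ((1 : ℝ) / 2) := by
    rw [← Real.sqrt_eq_rpow]
    apply Real.le_sqrt_of_sq_le
    exact_mod_cast hB
  have hk1 : (1 : ℝ) ≤ k := by exact_mod_cast hk
  have hL : (B + 2) * k * 3 ^ (4 * D + 1) + 1 ≤ n := by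
    have hhalf : (1 : ℝ) ≤ (n : ℝ) ^ ((1 : ℝ) / 2) := Real.one_le_rpow hn1 (by norm_num)
    have h95 : (1 : ℝ) ≤ (n : ℝ) ^ ((19 : ℝ) / 20) := Real.one_le_rpow hn1 (by norm_num)
    have : ((B : ℝ) + 2) * k * 3 ^ (4 * D + 1) + 1 ≤ n := by
      calc ((B : ℝ) + 2) * k * 3 ^ (4 * D + 1) + 1
          ≤ (3 * (n : ℝ) ^ ((1 : ℝ) / 2)) * k * (3 * (n : ℝ) ^ ((9 : ℝ) / 20)) + 1 := by
            rw [pow_succ, mul_comm ((3 : ℝ) ^ (4 * D)) 3]
            gcongr
            linarith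
        _ = 9 * k * ((n : ℝ) ^ ((1 : ℝ) / 2) * (n : ℝ) ^ ((9 : ℝ) / 20)) + 1 := by ring
        _ = 9 * k * (n : ℝ) ^ ((19 : ℝ) / 20) + 1 := by
            rw [← Real.rpow_add hn0]; norm_num
        _ ≤ 10 * k * (n : ℝ) ^ ((19 : ℝ) / 20) := by nlinarith
        _ ≤ (n : ℝ) ^ ((1 : ℝ) / 20) * (n : ℝ) ^ ((19 : ℝ) / 20) := by gcongr
        _ = n := by rw [← Real.rpow_add hn0]; norm_num
    exact_mod_cast this
  have hT := solves_lower_bound M k n n m D B T hk hn hm2 Reg hR hL hS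
  have hT' : (m : ℝ) ^ D < T := by exact_mod_cast hT
  refine lt_of_le_of_lt ?_ hT'
  calc (n : ℝ) ^ (δ * Real.log n / 40) ≤ (n : ℝ) ^ (δ / 3 * D) := by
        apply Real.rpow_le_rpow_of_exponent_le hn1
        have h7 : Real.log n / 10 - 1 ≤ D := by
          have := Nat.lt_floor_add_one (Real.log n / 10)
          rw [← hD] at this
          linarith
        have h8 : Real.log n / 40 ≤ (D : ℝ) / 3 := by linarith
        calc δ * Real.log n / 40 = δ * (Real.log n / 40) := by ring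
          _ ≤ δ * ((D : ℝ) / 3) := by gcongr
          _ = δ / 3 * D := by ring
    _ = ((n : ℝ) ^ (δ / 3)) ^ D := by rw [Real.rpow_mul hn0.le, Real.rpow_natCast]
    _ ≤ (m : ℝ) ^ D := by gcongr

/-- The form of the question. -/
theorem lower_bound_question (f : ℕ → ℕ) (c k : ℕ) (hck : c < k) :
    ∀ᶠ n : ℕ in atTop, ∀ (M : Model) (Reg : Type) [Fintype Reg] (B T : ℕ),
      Fintype.card Reg ≤ f k * n ^ c → B ^ 2 ≤ n → Solves k n n Reg B T M → n ^ (f k) < T := by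
  have hcast : Tendsto (fun n : ℕ => (n : ℝ)) atTop atTop := tendsto_natCast_atTop_atTop
  have hck' : (c : ℝ) + 1 ≤ k := by exact_mod_cast hck
  have e1 := lower_bound_asymptotic k (by omega) ((c : ℝ) + 1 / 2) (by linarith)
  have e2 : ∀ᶠ n : ℕ in atTop, (f k : ℝ) ≤ (n : ℝ) ^ ((1 : ℝ) / 2) :=
    ((tendsto_rpow_atTop (by norm_num : (0 : ℝ) < 1 / 2)).comp hcast).eventually_ge_atTop _
  have e3 : ∀ᶠ n : ℕ in atTop, (80 * f k : ℝ) ≤ Real.log n :=
    (Real.tendsto_log_atTop.comp hcast).eventually_ge_atTop _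
  have e4 : ∀ᶠ n : ℕ in atTop, 1 ≤ n := eventually_ge_atTop 1
  filter_upwards [e1, e2, e3, e4] with n h1 h2 h3 hn
  intro M Reg _ B T hReg hB hS
  have hn1 : (1 : ℝ) ≤ n := by exact_mod_cast hn
  have hn0 : (0 : ℝ) < n := by linarith
  have hR : (Fintype.card Reg : ℝ) ≤ (n : ℝ) ^ ((c : ℝ) + 1 / 2) := by
    calc (Fintype.card Reg : ℝ) ≤ (f k : ℝ) * (n : ℝ) ^ c := by exact_mod_cast hReg
      _ ≤ (n : ℝ) ^ ((1 : ℝ) / 2) * (n : ℝ) ^ c := by gcongr
      _ = (n : ℝ) ^ ((c : ℝ) + 1 / 2) := by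
          rw [← Real.rpow_natCast, ← Real.rpow_add hn0, add_comm]
  have hlt := h1 M Reg B T hR hB hS
  have hle : (n : ℝ) ^ (f k) ≤ (n : ℝ) ^ (((k : ℝ) - ((c : ℝ) + 1 / 2)) * Real.log n / 40) := by
    rw [← Real.rpow_natCast]
    apply Real.rpow_le_rpow_of_exponent_le hn1
    have hlog : 0 ≤ Real.log n := Real.log_nonneg hn1
    nlinarith
  have : (n : ℝ) ^ (f k) < T := lt_of_le_of_lt hle hlt
  exact_mod_cast this

end Pool.Agent.V8H11.TS
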