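import Pool.Agent.V8H11.TS.Exec

/-!
Divide and conquer with few registers, for sums over walks in layered graphs.
-/

namespace Pool.Agent.V8H11.TS

section

variable {K X S : Type} [CommSemiring K] [Fintype S] [DecidableEq S]
  (sv : ℕ → S → S → Option (List X)) (x : X → K)

/-- Product of a list of variables (zero if there is no list). -/
def wt (x : X → K) : Option (List X) → K
  | none => 0
  | some l => (l.map x).prod

/-- Sum over the walks with `m` steps starting in layer `c`. -/
def mdist (c : ℕ) : ℕ → S → S → K
  | 0, s, s' => if s = s' then 1 else 0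
  | m + 1, s, s' => ∑ u, mdist c m s u * wt x (sv (c + m) u s')

theorem mdist_one (c : ℕ) (s s' : S) : mdist sv x c 1 s s' = wt x (sv c s s') := by
  simp [mdist]

theorem mdist_add (c a b : ℕ) (s s' : S) :
    mdist sv x c (a + b) s s' = ∑ u, mdist sv x c a s u * mdist sv x (c + a) b u s' := by
  induction b generalizing s' with
  | zero => simp [mdist]
  | succ b ih =>
    rw [← add_assoc]
    simp only [mdist]
    simp_rw [ih, Finset.sum_mul, Finset.mul_sum]
    rw [Finset.sum_comm]
    apply Finset.sum_congr rfl
    intro w _
    apply Finset.sum_congr rfl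
    intro u _
    rw [mul_assoc, add_assoc]

end

section

variable {K X S : Type} [CommSemiring K] [Fintype S] [DecidableEq S]
  (sv : ℕ → S → S → Option (List X)) {D q G : ℕ} (lab : Fin q → Fin G → Option S)

/-- Registers: `D + 2` vectors of length `G`. -/
abbrev VReg (D G : ℕ) : Type := Fin (D + 2) × Fin G

/-- The `d`-th vector. -/
def sl (D d : ℕ) : Fin (D + 2) := Fin.ofNat (D + 2) d

theorem sl_val (D d : ℕ) (h : d < D + 2) : (sl D d).val = d := by
  simp [sl, Fin.ofNat, Nat.mod_eq_of_lt h]

/-- Extension by zero of a function of two states to positions in groups. -/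
def ext (F : S → S → K) (g0 : Fin q) (j : Fin G) (g1 : Fin q) (i : Fin G) : K :=
  match lab g0 j, lab g1 i with
  | some s, some s' => F s s'
  | _, _ => 0

/-- Every state has exactly one position. -/
def IsLab (lab : Fin q → Fin G → Option S) : Prop :=
  ∀ s, ∃! p : Fin q × Fin G, lab p.1 p.2 = some s

end

section

theorem sum_lab {M S : Type} [AddCommMonoid M] [Fintype S] {q G : ℕ}
    (lab : Fin q → Fin G → Option S) (hlab : IsLab lab) (f : S → M) :
    ∑ g, ∑ j, (lab g j).elim 0 f = ∑ s, f s := by
  classical
  choose pos hpos hposu using hlab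
  rw [← Fintype.sum_prod_type (f := fun p : Fin q × Fin G => (lab p.1 p.2).elim 0 f)]
  symm
  have hinj : Function.Injective pos := by
    intro s s' h
    have h1 := hpos s
    have h2 := hpos s'
    simp only at h1 h2
    rw [h, h2] at h1
    exact (Option.some.inj h1).symm
  have h1 : ∑ s, f s = ∑ p ∈ (Finset.univ.map ⟨pos, hinj⟩), (lab p.1 p.2).elim 0 f := by
    rw [Finset.sum_map]
    apply Finset.sum_congr rfl
    intro s _
    have := hpos s
    simp only at this
    simp [this]
  rw [h1]
  apply Finset.sum_subset (Finset.subset_univ _)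
  intro p _ hp
  cases h : lab p.1 p.2 with
  | none => rfl
  | some s =>
    exfalso
    apply hp
    rw [Finset.mem_map]
    exact ⟨s, Finset.mem_univ _, (hposu s p h).symm⟩

end

section

variable {K X S : Type} [CommSemiring K] [Fintype S] [DecidableEq S]
  (sv : ℕ → S → S → Option (List X)) {D q G : ℕ} (lab : Fin q → Fin G → Option S)

theorem ext_comp (hlab : IsLab lab) (F F' : S → S → K) (g0 : Fin q) (j : Fin G) (g1 : Fin q)
    (i : Fin G) : ∑ h, ∑ j', ext lab F g0 j h j' * ext lab F' h j' g1 i =
      ext lab (fun s s' => ∑ u, F s u * F' u s') g0 j g1 i := by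
  cases h0 : lab g0 j with
  | none => simp [ext, h0]
  | some s =>
    cases h1 : lab g1 i with
    | none => simp [ext, h0, h1]
    | some s' =>
      have : ext lab (fun s s' => ∑ u, F s u * F' u s') g0 j g1 i = ∑ u, F s u * F' u s' := by
        simp [ext, h0, h1]
      rw [this, ← sum_lab lab hlab (fun u => F s u * F' u s')]
      apply Finset.sum_congr rfl
      intro h _
      apply Finset.sum_congr rfl
      intro j' _
      cases h2 : lab h j' with
      | none => simp [ext, h0, h2]
      | some u => simp [ext, h0, h1, h2]

/-- Set a vector to zero. -/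
def clearR (K : Type) [CommSemiring K] (D G : ℕ) (X : Type) (t : Fin (D + 2)) :
    Round K X (VReg D G) :=
  fun r => if r.1 = t then [] else [cp r]

/-- One product of the basic step. -/
def stepT (K : Type) [CommSemiring K] (c : ℕ) (src : Fin (D + 2)) (g0 : Fin q) (j : Fin G)
    (g1 : Fin q) (i : Fin G) : Term K X (VReg D G) :=
  match lab g0 j, lab g1 i with
  | some s, some s' => (match sv c s s' with
    | some l => ⟨1, [(src, j)], l⟩
    | none => ⟨0, [], []⟩)
  | _, _ => ⟨0, [], []⟩

/-- The basic step. -/
def stepR (K : Type) [CommSemiring K] (c : ℕ) (src tgt : Fin (D + 2)) (g0 g1 : Fin q) :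
    Round K X (VReg D G) :=
  fun r => if r.1 = tgt then
    cp r :: (List.finRange G).map (fun j => stepT sv lab K c src g0 j g1 r.2) else [cp r]

/-- Propagate the vector `src` from the group `g0` of layer `c` to the group `g1` of layer
`c + 2 ^ d`, accumulating in the vector `tgt`. -/
def prg (K : Type) [CommSemiring K] :
    (d : ℕ) → ℕ → Fin (D + 2) → Fin (D + 2) → Fin q → Fin q → List (Round K X (VReg D G))
  | 0, c, src, tgt, g0, g1 => [stepR sv lab K c src tgt g0 g1]
  | d + 1, c, src, tgt, g0, g1 => (List.finRange q).flatMap (fun h =>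
      clearR K D G X (sl D d) ::
        (prg K d c src (sl D d) g0 h ++ prg K d (c + 2 ^ d) (sl D d) tgt h g1))

/-- Number of rounds of the propagation. -/
def len (q : ℕ) : ℕ → ℕ
  | 0 => 1
  | d + 1 => q * (1 + 2 * len q d)

omit [Fintype S] [DecidableEq S] in
theorem length_prg (d c : ℕ) (src tgt : Fin (D + 2)) (g0 g1 : Fin q) :
    (prg sv lab K d c src tgt g0 g1).length = len q d := by
  induction d generalizing c src tgt g0 g1 with
  | zero => simp [prg, len]
  | succ d ih =>
    simp only [prg, len, List.length_flatMap, List.length_cons, List.length_append, ih]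
    simp only [List.map_const', List.length_finRange, List.sum_replicate, smul_eq_mul]
    ring

theorem len_le (hq : 1 ≤ q) (d : ℕ) : len q d ≤ (3 * q) ^ d := by
  induction d with
  | zero => simp [len]
  | succ d ih =>
    have h1 : 1 ≤ (3 * q) ^ d := Nat.one_le_pow _ _ (by omega)
    calc len q (d + 1) = q * (1 + 2 * len q d) := rfl
      _ ≤ q * (3 * (3 * q) ^ d) := Nat.mul_le_mul_left _ (by omega)
      _ = (3 * q) ^ (d + 1) := by ring

theorem app_clear (x : X → K) (v : VReg D G → K) (t : Fin (D + 2)) (r : VReg D G) :
    app x v (clearR K D G X t) r = if r.1 = t then 0 else v r := by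
  unfold app clearR
  split_ifs with h
  · simp
  · simp [eval_cp]

omit [Fintype S] [DecidableEq S] in
theorem eval_stepT (x : X → K) (v : VReg D G → K) (c : ℕ) (src : Fin (D + 2)) (g0 : Fin q)
    (j : Fin G) (g1 : Fin q) (i : Fin G) :
    (stepT sv lab K c src g0 j g1 i).eval x v =
      v (src, j) * ext lab (fun s s' => wt x (sv c s s')) g0 j g1 i := by
  unfold stepT ext
  cases h0 : lab g0 j with
  | none => simp [Term.eval]
  | some s =>
    cases h1 : lab g1 i with
    | none => simp [Term.eval]
    | some s' =>
      cases h2 : sv c s s' with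
      | none => simp [Term.eval, wt, h2]
      | some l => simp [Term.eval, wt, h2]

theorem sum_map_finRange (m : ℕ) (f : Fin m → K) : ((List.finRange m).map f).sum = ∑ i, f i := by
  rw [← List.ofFn_eq_map, List.sum_ofFn]

omit [Fintype S] [DecidableEq S] in
theorem app_step (x : X → K) (v : VReg D G → K) (c : ℕ) (src tgt : Fin (D + 2)) (g0 g1 : Fin q)
    (r : VReg D G) : app x v (stepR sv lab K c src tgt g0 g1) r =
      if r.1 = tgt then v r + ∑ j : Fin G,
        (v (src, j) * ext lab (fun s s' => wt x (sv c s s')) g0 j g1 r.2)
      else v r := by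
  unfold app stepR
  split_ifs with h
  · rw [List.map_cons, List.sum_cons, eval_cp, List.map_map, sum_map_finRange]
    congr 1
    apply Finset.sum_congr rfl
    intro j _
    exact eval_stepT sv lab x v c src g0 j g1 r.2
  · simp [eval_cp]

/-- Correctness of the propagation. -/
theorem exec_prg (hlab : IsLab lab) (x : X → K) (d : ℕ) :
    ∀ (_ : d ≤ D) (c : ℕ) (src tgt : Fin (D + 2)) (g0 g1 : Fin q) (v : VReg D G → K),
      d ≤ src.val → d ≤ tgt.val → src ≠ tgt →
      (∀ i, exec (prg sv lab K d c src tgt g0 g1) x v (tgt, i) =
        v (tgt, i) + ∑ j, (v (src, j) * ext lab (mdist sv x c (2 ^ d)) g0 j g1 i)) ∧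
      (∀ u i, d ≤ u.val → u ≠ tgt → exec (prg sv lab K d c src tgt g0 g1) x v (u, i) = v (u, i)) := by
  induction d with
  | zero =>
    intro _ c src tgt g0 g1 v _ _ _
    constructor
    · intro i
      have : mdist sv x c (2 ^ 0) = fun s s' => wt x (sv c s s') := by
        funext s s'
        rw [pow_zero, mdist_one]
      simp only [prg, exec_cons, exec_nil, app_step, if_true, this]
    · intro u i _ hu
      simp only [prg, exec_cons, exec_nil, app_step, if_neg hu]
  | succ d ih =>
    intro hd c src tgt g0 g1 v hsrc htgt hst
    have hsd : (sl D d).val = d := sl_val D d (by omega)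
    have hne1 : src ≠ sl D d := by
      intro h
      rw [h, hsd] at hsrc
      omega
    have hne2 : sl D d ≠ tgt := by
      intro h
      rw [← h, hsd] at htgt
      omega
    -- induction on the list of groups
    have key : ∀ (hs : List (Fin q)) (v : VReg D G → K),
        (∀ i, exec (hs.flatMap (fun h => clearR K D G X (sl D d) ::
          (prg sv lab K d c src (sl D d) g0 h ++ prg sv lab K d (c + 2 ^ d) (sl D d) tgt h g1))) x v
            (tgt, i) = v (tgt, i) + (hs.map (fun h => ∑ j', (∑ j,
              (v (src, j) * ext lab (mdist sv x c (2 ^ d)) g0 j h j')) *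
                ext lab (mdist sv x (c + 2 ^ d) (2 ^ d)) h j' g1 i)).sum) ∧
        (∀ u i, d + 1 ≤ u.val → u ≠ tgt → exec (hs.flatMap (fun h => clearR K D G X (sl D d) ::
          (prg sv lab K d c src (sl D d) g0 h ++ prg sv lab K d (c + 2 ^ d) (sl D d) tgt h g1))) x v
            (u, i) = v (u, i)) := by
      intro hs
      induction hs with
      | nil =>
        intro v
        simp [exec_nil]
      | cons h hs ihs =>
        intro v
        -- the three stages for the group `h`
        set v1 := app x v (clearR K D G X (sl D d)) with hv1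
        set v2 := exec (prg sv lab K d c src (sl D d) g0 h) x v1 with hv2
        set v3 := exec (prg sv lab K d (c + 2 ^ d) (sl D d) tgt h g1) x v2 with hv3
        have hex : ∀ l : List (Round K X (VReg D G)), exec ((clearR K D G X (sl D d) ::
            (prg sv lab K d c src (sl D d) g0 h ++ prg sv lab K d (c + 2 ^ d) (sl D d) tgt h g1))
              ++ l) x v = exec l x v3 := by
          intro l
          rw [exec_append, exec_cons, exec_append]
        have a1 := ih (by omega) c src (sl D d) g0 h v1 (by omega) (by omega) hne1
        have a2 := ih (by omega) (c + 2 ^ d) (sl D d) tgt h g1 v2 (by omega) (by omega) hne2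
        have b1 : ∀ i, v1 (sl D d, i) = 0 := by
          intro i; rw [hv1, app_clear]; simp
        have b2 : ∀ u i, u ≠ sl D d → v1 (u, i) = v (u, i) := by
          intro u i hu; rw [hv1, app_clear]; simp [hu]
        have b3 : ∀ j', v2 (sl D d, j') =
            ∑ j, (v (src, j) * ext lab (mdist sv x c (2 ^ d)) g0 j h j') := by
          intro j'
          rw [hv2, a1.1 j', b1, zero_add]
          apply Finset.sum_congr rfl
          intro j _
          rw [b2 src j hne1]
        have b4 : ∀ u i, d + 1 ≤ u.val → v2 (u, i) = v (u, i) := by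
          intro u i hu
          have hune : u ≠ sl D d := by
            intro h'
            rw [h', hsd] at hu
            omega
          rw [hv2, a1.2 u i (by omega) hune, b2 u i hune]
        have b5 : ∀ i, v3 (tgt, i) = v (tgt, i) + ∑ j', (∑ j,
              (v (src, j) * ext lab (mdist sv x c (2 ^ d)) g0 j h j')) *
                ext lab (mdist sv x (c + 2 ^ d) (2 ^ d)) h j' g1 i := by
          intro i
          rw [hv3, a2.1 i, b4 tgt i htgt]
          congr 1
          apply Finset.sum_congr rfl
          intro j' _
          rw [b3]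
        have b6 : ∀ u i, d + 1 ≤ u.val → u ≠ tgt → v3 (u, i) = v (u, i) := by
          intro u i hu hut
          rw [hv3, a2.2 u i (by omega) hut, b4 u i hu]
        obtain ⟨c1, c2⟩ := ihs v3
        constructor
        · intro i
          rw [List.flatMap_cons, hex, c1 i, b5 i, List.map_cons, List.sum_cons, add_assoc]
          congr 3
          apply List.map_congr_left
          intro h' _
          apply Finset.sum_congr rfl
          intro j' _
          congr 1
          apply Finset.sum_congr rfl
          intro j _
          rw [b6 src j hsrc hst]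
        · intro u i hu hut
          rw [List.flatMap_cons, hex, c2 u i hu hut, b6 u i hu hut]
    obtain ⟨k1, k2⟩ := key (List.finRange q) v
    constructor
    · intro i
      simp only [prg]
      rw [k1 i, sum_map_finRange]
      congr 1
      have e1 : mdist sv x c (2 ^ (d + 1)) = fun s s' =>
          ∑ u, mdist sv x c (2 ^ d) s u * mdist sv x (c + 2 ^ d) (2 ^ d) u s' := by
        funext s s'
        have : 2 ^ (d + 1) = 2 ^ d + 2 ^ d := by ring
        rw [this, mdist_add]
      rw [e1]
      have e2 : ∀ j, ext lab (fun s s' =>
          ∑ u, mdist sv x c (2 ^ d) s u * mdist sv x (c + 2 ^ d) (2 ^ d) u s') g0 j g1 i =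
          ∑ h, ∑ j', ext lab (mdist sv x c (2 ^ d)) g0 j h j' *
            ext lab (mdist sv x (c + 2 ^ d) (2 ^ d)) h j' g1 i := by
        intro j
        rw [ext_comp lab hlab]
      simp_rw [e2, Finset.mul_sum, Finset.sum_mul]
      have e3 : ∀ h : Fin q, ∑ j', ∑ j, v (src, j) * ext lab (mdist sv x c (2 ^ d)) g0 j h j' *
            ext lab (mdist sv x (c + 2 ^ d) (2 ^ d)) h j' g1 i =
          ∑ j, ∑ j', v (src, j) * ext lab (mdist sv x c (2 ^ d)) g0 j h j' *
            ext lab (mdist sv x (c + 2 ^ d) (2 ^ d)) h j' g1 i := fun h => Finset.sum_comm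
      simp_rw [e3]
      rw [Finset.sum_comm]
      simp_rw [mul_assoc]
    · intro u i hu hut
      simp only [prg]
      exact k2 u i hu hut

end

end Pool.Agent.V8H11.TS
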