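import Pool.Agent.V8H11.TS.Savitch

/-!
The complete divide and conquer program for sums over walks in layered graphs.
-/

namespace Pool.Agent.V8H11.TS

section

variable {K X S : Type} [CommSemiring K] [Fintype S] [DecidableEq S]
  (sv : ℕ → S → S → Option (List X)) (iv : S → List X) {D q G : ℕ}
  (lab : Fin q → Fin G → Option S)

/-- Initial weight of a position. -/
def iext (K : Type) [CommSemiring K] (x : X → K) (g : Fin q) (j : Fin G) : K :=
  match lab g j with
  | some s => wt x (some (iv s))
  | none => 0

/-- Load the initial weights of a group. -/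
def loadR (K : Type) [CommSemiring K] (g0 : Fin q) : Round K X (VReg D G) :=
  fun r => if r.1 = sl D D then (match lab g0 r.2 with
    | some s => [⟨1, [], iv s⟩]
    | none => []) else [cp r]

/-- Sum of the last vector. -/
def finalR (K : Type) [CommSemiring K] (X : Type) (D G : ℕ) (out : VReg D G) :
    Round K X (VReg D G) :=
  fun r => if r = out then (List.finRange G).map (fun i => cp (sl D (D + 1), i)) else [cp r]

/-- The rounds of the program. -/
def topL (K : Type) [CommSemiring K] (out : VReg D G) : List (Round K X (VReg D G)) :=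
  (List.finRange q).flatMap (fun g0 => loadR iv lab K g0 ::
    (List.finRange q).flatMap (fun g1 => prg sv lab K D 0 (sl D D) (sl D (D + 1)) g0 g1)) ++
    [finalR K X D G out]

omit [Fintype S] [DecidableEq S] in
theorem length_topL (out : VReg D G) :
    (topL sv iv lab K out).length = q * (1 + q * len q D) + 1 := by
  simp only [topL, List.length_append, List.length_flatMap, List.length_cons, length_prg,
    List.map_const', List.length_finRange, List.sum_replicate, smul_eq_mul, List.length_nil]
  ring

omit [Fintype S] [DecidableEq S] in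
theorem app_load (x : X → K) (v : VReg D G → K) (g0 : Fin q) (r : VReg D G) :
    app x v (loadR iv lab K g0) r = if r.1 = sl D D then iext iv lab K x g0 r.2 else v r := by
  unfold app loadR iext
  split_ifs with h
  · cases h1 : lab g0 r.2 with
    | none => simp
    | some s => simp [Term.eval, wt]
  · simp [eval_cp]

theorem exec_inner (hlab : IsLab lab) (x : X → K) (g0 : Fin q)
    (gs : List (Fin q)) : ∀ v : VReg D G → K,
    (∀ i, exec (gs.flatMap (fun g1 => prg sv lab K D 0 (sl D D) (sl D (D + 1)) g0 g1)) x v
      (sl D (D + 1), i) = v (sl D (D + 1), i) + (gs.map (fun g1 => ∑ j,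
        (v (sl D D, j) * ext lab (mdist sv x 0 (2 ^ D)) g0 j g1 i))).sum) ∧
    (∀ i, exec (gs.flatMap (fun g1 => prg sv lab K D 0 (sl D D) (sl D (D + 1)) g0 g1)) x v
      (sl D D, i) = v (sl D D, i)) := by
  have h1 : (sl D D).val = D := sl_val D D (by omega)
  have h2 : (sl D (D + 1)).val = D + 1 := sl_val D (D + 1) (by omega)
  have hne : sl D D ≠ sl D (D + 1) := by
    intro h
    have := congrArg Fin.val h
    omega
  induction gs with
  | nil => intro v; simp [exec_nil]
  | cons g gs ih =>
    intro v
    have a := exec_prg sv lab hlab x D (le_refl D) 0 (sl D D) (sl D (D + 1)) g0 g v (by omega)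
      (by omega) hne
    obtain ⟨c1, c2⟩ := ih (exec (prg sv lab K D 0 (sl D D) (sl D (D + 1)) g0 g) x v)
    constructor
    · intro i
      rw [List.flatMap_cons, exec_append, c1 i, a.1 i, List.map_cons, List.sum_cons, add_assoc]
      congr 3
      apply List.map_congr_left
      intro g1 _
      apply Finset.sum_congr rfl
      intro j _
      rw [a.2 (sl D D) j (by omega) hne]
    · intro i
      rw [List.flatMap_cons, exec_append, c2 i, a.2 (sl D D) i (by omega) hne]

theorem exec_outer (hlab : IsLab lab) (x : X → K)
    (gs : List (Fin q)) : ∀ v : VReg D G → K, ∀ i,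
    exec (gs.flatMap (fun g0 => loadR iv lab K g0 ::
      (List.finRange q).flatMap (fun g1 => prg sv lab K D 0 (sl D D) (sl D (D + 1)) g0 g1))) x v
      (sl D (D + 1), i) = v (sl D (D + 1), i) + (gs.map (fun g0 => ∑ g1, ∑ j,
        (iext iv lab K x g0 j * ext lab (mdist sv x 0 (2 ^ D)) g0 j g1 i))).sum := by
  have h1 : (sl D D).val = D := sl_val D D (by omega)
  have h2 : (sl D (D + 1)).val = D + 1 := sl_val D (D + 1) (by omega)
  have hne : sl D (D + 1) ≠ sl D D := by
    intro h
    have := congrArg Fin.val h
    omega
  induction gs with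
  | nil => intro v; simp [exec_nil]
  | cons g gs ih =>
    intro v i
    rw [List.flatMap_cons, exec_append, ih, exec_cons]
    have a := exec_inner (D := D) sv lab hlab x g (List.finRange q) (app x v (loadR iv lab K g))
    rw [a.1 i, List.map_cons, List.sum_cons, add_assoc, app_load, if_neg hne]
    congr 2
    rw [sum_map_finRange]
    apply Finset.sum_congr rfl
    intro g1 _
    apply Finset.sum_congr rfl
    intro j _
    rw [app_load, if_pos rfl]

theorem exec_topL (hlab : IsLab lab) (x : X → K) (out : VReg D G) :
    exec (topL sv iv lab K out) x (fun _ => 0) out =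
      ∑ s, ∑ s', wt x (some (iv s)) * mdist sv x 0 (2 ^ D) s s' := by
  rw [topL, exec_append, exec_cons, exec_nil]
  have h1 : ∀ v : VReg D G → K, app x v (finalR K X D G out) out = ∑ i, v (sl D (D + 1), i) := by
    intro v
    unfold app finalR
    rw [if_pos rfl, List.map_map, sum_map_finRange]
    apply Finset.sum_congr rfl
    intro i _
    exact eval_cp _ _ _
  rw [h1]
  have h2 := exec_outer (D := D) sv iv lab hlab x (List.finRange q) (fun _ => 0)
  rw [Finset.sum_congr rfl (fun i _ => h2 i)]
  simp_rw [zero_add, sum_map_finRange]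
  -- reorder
  have e1 : ∑ i, ∑ g0, ∑ g1, ∑ j,
        (iext iv lab K x g0 j * ext lab (mdist sv x 0 (2 ^ D)) g0 j g1 i) =
      ∑ g0, ∑ j, ∑ g1, ∑ i, (iext iv lab K x g0 j * ext lab (mdist sv x 0 (2 ^ D)) g0 j g1 i) := by
    rw [Finset.sum_comm]
    apply Finset.sum_congr rfl
    intro g0 _
    rw [Finset.sum_comm]
    have : ∀ g1 : Fin q, ∑ i, ∑ j, (iext iv lab K x g0 j *
        ext lab (mdist sv x 0 (2 ^ D)) g0 j g1 i) = ∑ j, ∑ i, (iext iv lab K x g0 j *
        ext lab (mdist sv x 0 (2 ^ D)) g0 j g1 i) := fun g1 => Finset.sum_comm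
    rw [Finset.sum_congr rfl (fun g1 _ => this g1), Finset.sum_comm]
  rw [e1, ← sum_lab lab hlab]
  apply Finset.sum_congr rfl
  intro g0 _
  apply Finset.sum_congr rfl
  intro j _
  cases h3 : lab g0 j with
  | none => simp [iext, h3]
  | some s =>
    simp only [Option.elim]
    rw [← sum_lab lab hlab]
    apply Finset.sum_congr rfl
    intro g1 _
    apply Finset.sum_congr rfl
    intro i _
    cases h4 : lab g1 i with
    | none => simp [iext, h3, h4, ext]
    | some s' => simp [iext, h3, h4, ext]

omit [Fintype S] [DecidableEq S] in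
/-- Products formed by the program. -/
theorem rfanIn_topL (B : ℕ) (hB : 1 ≤ B)
    (hsv : ∀ c s s', ∀ l, sv c s s' = some l → l.length + 1 ≤ B)
    (hiv : ∀ s, (iv s).length ≤ B) (out : VReg D G) :
    ∀ ρ ∈ topL sv iv lab K out, RFanIn B ρ := by
  have hcp : ∀ r : VReg D G, ∀ τ ∈ ([cp r] : List (Term K X (VReg D G))),
      τ.regs.length + τ.vars.length ≤ B := by
    intro r τ hτ
    rw [List.mem_singleton] at hτ
    rw [hτ]
    simpa [cp] using hB
  have hclear : ∀ t, RFanIn B (clearR K D G X t) := by
    intro t r τ hτ
    unfold clearR at hτ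
    split_ifs at hτ
    · exact absurd hτ (List.not_mem_nil)
    · exact hcp r τ hτ
  have hstep : ∀ c src tgt g0 g1, RFanIn B (stepR (D := D) sv lab K c src tgt g0 g1) := by
    intro c src tgt g0 g1 r τ hτ
    unfold stepR at hτ
    split_ifs at hτ
    · rcases List.mem_cons.mp hτ with rfl | hτ
      · simpa [cp] using hB
      · obtain ⟨j, _, rfl⟩ := List.mem_map.mp hτ
        unfold stepT
        cases h0 : lab g0 j with
        | none => simp
        | some s =>
          cases h1 : lab g1 r.2 with
          | none => simp
          | some s' =>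
            cases h2 : sv c s s' with
            | none => simp [h2]
            | some l =>
              have := hsv c s s' l h2
              simp only [h2, List.length_cons, List.length_nil]
              omega
    · exact hcp r τ hτ
  have hprg : ∀ d c src tgt g0 g1, ∀ ρ ∈ prg (D := D) sv lab K d c src tgt g0 g1, RFanIn B ρ := by
    intro d
    induction d with
    | zero =>
      intro c src tgt g0 g1 ρ hρ
      simp only [prg, List.mem_singleton] at hρ
      rw [hρ]
      exact hstep _ _ _ _ _
    | succ d ih =>
      intro c src tgt g0 g1 ρ hρ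
      simp only [prg, List.mem_flatMap, List.mem_cons, List.mem_append] at hρ
      obtain ⟨h, _, hρ⟩ := hρ
      rcases hρ with rfl | hρ | hρ
      · exact hclear _
      · exact ih _ _ _ _ _ ρ hρ
      · exact ih _ _ _ _ _ ρ hρ
  intro ρ hρ
  rw [topL, List.mem_append, List.mem_singleton] at hρ
  simp only [List.mem_flatMap, List.mem_cons] at hρ
  rcases hρ with ⟨g0, _, hρ⟩ | rfl
  · rcases hρ with rfl | ⟨g1, _, hρ⟩
    · intro r τ hτ
      unfold loadR at hτ
      split_ifs at hτ
      · cases h0 : lab g0 r.2 with
        | none =>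
          rw [h0] at hτ
          exact absurd hτ (List.not_mem_nil)
        | some s =>
          rw [h0] at hτ
          simp only [List.mem_singleton] at hτ
          rw [hτ]
          simpa using hiv _
      · exact hcp r τ hτ
    · exact hprg _ _ _ _ _ _ ρ hρ
  · intro r τ hτ
    unfold finalR at hτ
    split_ifs at hτ
    · obtain ⟨i, _, rfl⟩ := List.mem_map.mp hτ
      simpa [cp] using hB
    · exact hcp r τ hτ

end

end Pool.Agent.V8H11.TS
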